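import Pool.Agent.TH272.Nec.ArithCore
import Pool.Agent.H53R6.Bound

set_option autoImplicit false
set_option linter.unusedSectionVars false

/-! # Circuits with few shared gates for multiples of the permanent -/

namespace Pool.Agent.TH272.Nec.Arith

open Finset MvPolynomial Pool.Agent.H53R5 Pool.Agent.H567.Nec Pool.Agent.H53R6

theorem local_of_jets {K : Type} [Field K] {σ Ξ : Type} [DecidableEq σ] [Nonempty Ξ] {N : ℕ}
    (C : Circuit K σ) (T : Finset σ) (P : Ξ → σ → TrivSqZeroExt K (Fin N → K))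
    (h1 : ∀ ξ, ∀ v ∈ T, (P ξ v).snd = 0) (h2 : ∀ ξ ξ' v, v ∉ T → P ξ v = P ξ' v)
    (h3 : ∀ A : Submodule K (Fin N → K), (∀ ξ, (aeval (P ξ) C.poly).snd ∈ A) → A = ⊤) :
    N ≤ 4 * (C.prog.occ T + C.refs) + C.shared + 1 := by
  obtain ⟨D, hD, hDmem⟩ := Prog.exists_submodule (P := P) (T := T) (fun v hv ξ => h1 ξ v hv)
    (fun v hv ξ ξ' => h2 ξ ξ' v hv) C.prog
  have hT : D = ⊤ := h3 D (fun ξ => hDmem ξ (Fin.last _))
  rw [hT, finrank_top] at hD
  simp only [Module.finrank_fintype_fun_eq_card, Fintype.card_fin] at hD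
  have e : C.refs = C.prog.refs := rfl
  omega

theorem count {K : Type} (m : ℕ) (C : Circuit K (Fin m × Fin m))
    (hloc : ∀ ℓ n' : ℕ, 2 * ℓ + n' = m → n' ≤ 2 ^ ℓ → 1 ≤ n' → ∀ r c : Fin (2 * ℓ) → Fin m,
      Function.Injective r → Function.Injective c → ∀ T : Finset (Fin m × Fin m),
      T = Finset.univ.image (fun s => (r s, c s)) →
        n' ^ 2 - 1 ≤ 4 * (C.prog.occ T + C.refs) + C.shared + 1) :
    m * (m - 2 * Nat.clog 2 m) * ((m - 2 * Nat.clog 2 m) ^ 2 - (2 + 4 * C.refs + C.shared))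
      ≤ 8 * Nat.clog 2 m * C.leaves := by
  classical
  set ℓ := Nat.clog 2 m with hℓ
  by_cases hm : m ≤ 2 * ℓ
  · rw [Nat.sub_eq_zero_of_le hm]; simp
  push Not at hm
  have hm0 : NeZero m := ⟨by omega⟩
  obtain ⟨n', hn'⟩ : ∃ n', 2 * ℓ + n' = m := ⟨m - 2 * ℓ, by omega⟩
  have hn2 : n' ≤ 2 ^ ℓ := by
    have := Nat.le_pow_clog (b := 2) (by norm_num) m
    rw [← hℓ] at this
    omega
  have hsub : m - 2 * ℓ = n' := by omega
  rw [hsub]
  obtain ⟨B, hB⟩ : ∃ B, B = n' ^ 2 - (2 + 4 * C.refs + C.shared) := ⟨_, rfl⟩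
  rw [← hB]
  rcases Nat.eq_zero_or_pos ℓ with h0 | h0
  · have hm1 : m ≤ 1 := by
      by_contra hcon
      have := Nat.clog_pos (b := 2) (n := m) (by norm_num) (by omega)
      omega
    have hn1 : n' = 1 := by omega
    subst hn1
    have : B = 0 := by omega
    rw [this]
    simp
  have hloc' : ∀ p : Fin m × Fin (m / (2 * ℓ)),
      B ≤ 4 * C.prog.occ (blk m (2 * ℓ) p) := by
    intro p
    have h := hloc ℓ n' hn' hn2 (by omega) (rowB m (2 * ℓ) p.2)
      (colB m (2 * ℓ) p.1 p.2) (rowB_injective _ _ _) (colB_injective _ _ _ _) _ rfl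
    have e : blk m (2 * ℓ) p =
      Finset.univ.image (fun s => (rowB m (2 * ℓ) p.2 s, colB m (2 * ℓ) p.1 p.2 s)) := rfl
    rw [e]
    omega
  have hsum := Prog.sum_occ_le Finset.univ (blk m (2 * ℓ)) (blk_disjoint m (2 * ℓ)) C.prog
  have hlv : C.prog.leaves = C.leaves := rfl
  have h4 : (m * (m / (2 * ℓ))) * B ≤ 4 * C.leaves := by
    calc (m * (m / (2 * ℓ))) * B
        = ∑ _p : Fin m × Fin (m / (2 * ℓ)), B := by
          rw [Finset.sum_const, Finset.card_univ, Fintype.card_prod, Fintype.card_fin,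
            Fintype.card_fin, smul_eq_mul]
      _ ≤ ∑ p : Fin m × Fin (m / (2 * ℓ)), 4 * C.prog.occ (blk m (2 * ℓ) p) :=
          Finset.sum_le_sum (fun p _ => hloc' p)
      _ = 4 * ∑ p : Fin m × Fin (m / (2 * ℓ)), C.prog.occ (blk m (2 * ℓ) p) := by
          rw [Finset.mul_sum]
      _ ≤ 4 * C.leaves := Nat.mul_le_mul_left _ hsum
  have h5 : n' ≤ 2 * ℓ * (m / (2 * ℓ)) := by
    have := Nat.div_add_mod m (2 * ℓ)
    have := Nat.mod_lt m (show 0 < 2 * ℓ by omega)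
    omega
  calc m * n' * B ≤ m * (2 * ℓ * (m / (2 * ℓ))) * B := by
        gcongr
    _ = 2 * ℓ * ((m * (m / (2 * ℓ))) * B) := by ring
    _ ≤ 2 * ℓ * (4 * C.leaves) := Nat.mul_le_mul_left _ h4
    _ = 8 * ℓ * C.leaves := by ring

/-- circuits over the field -/
theorem exact {K : Type} [Field K] [CharZero K] (m : ℕ) (C : Circuit K (Fin m × Fin m))
    (hC : C.poly ≠ 0) (hvan : ∀ p, eval p (gperm K m) = 0 → eval p C.poly = 0) :
    m * (m - 2 * Nat.clog 2 m) * ((m - 2 * Nat.clog 2 m) ^ 2 - (2 + 4 * C.refs + C.shared))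
      ≤ 8 * Nat.clog 2 m * C.leaves := by
  classical
  refine count m C fun ℓ n' hm hn hn0 r c hr hc T hT => ?_
  obtain ⟨P, h1, h2, h3⟩ := exists_jets_vanish m ℓ n' hm hn hn0 r c hr hc C.poly hC hvan T hT
  exact local_of_jets C T P h1 h2 h3

/-- circuits over the field of rational functions -/
theorem border {k : Type} [Field k] [CharZero k] (m : ℕ) (g : MvPolynomial (Fin m × Fin m) k)
    (hg : g ≠ 0) (hvan : ∀ p, eval p (gperm k m) = 0 → eval p g = 0)
    (C : Circuit (RatFunc k) (Fin m × Fin m))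
    (hC : ∀ d : Fin m × Fin m →₀ ℕ, (C.poly.coeff d).denom.eval 0 ≠ 0 ∧
      RatFunc.eval (RingHom.id k) 0 (C.poly.coeff d) = g.coeff d) :
    m * (m - 2 * Nat.clog 2 m) * ((m - 2 * Nat.clog 2 m) ^ 2 - (2 + 4 * C.refs + C.shared))
      ≤ 8 * Nat.clog 2 m * C.leaves := by
  classical
  refine count m C fun ℓ n' hm hn hn0 r c hr hc T hT => ?_
  obtain ⟨P, h1, h2, h3⟩ := exists_jets_border m ℓ n' hm hn hn0 r c hr hc g hg hvan C.poly hC T hT
  exact local_of_jets C T P h1 h2 h3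

lemma eval_gperm' {K : Type} [Field K] (m : ℕ) (p : Fin m × Fin m → K) :
    eval p (gperm K m) = (Matrix.of fun i j => p (i, j)).permanent := by
  rw [gperm_eq, map_sum]
  unfold Matrix.permanent
  refine Finset.sum_congr rfl fun s _ => ?_
  rw [map_prod]
  refine Finset.prod_congr rfl fun k _ => ?_
  rw [eval_X, Matrix.of_apply]

end Pool.Agent.TH272.Nec.Arith
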