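import Pool.Agent.TH272.Nec.ArithDefs
import Pool.Agent.H567.Nec.Formula

set_option autoImplicit false
set_option linter.unusedSectionVars false

/-! # The jets of the polynomials of a program -/

namespace Pool.Agent.TH272.Nec.Arith

open Finset MvPolynomial Pool.Agent.H567.Nec

variable {K σ : Type}

namespace Fm

variable {k : ℕ}

/-- The number of leaves labelled by a variable of `T`. -/
def occ [DecidableEq σ] (T : Finset σ) : Fm K σ k → ℕ
  | var i => if i ∈ T then 1 else 0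
  | const _ => 0
  | ref _ => 0
  | add f g => f.occ T + g.occ T
  | mul f g => f.occ T + g.occ T

lemma sum_occ_le [DecidableEq σ] {β : Type*} (s : Finset β) (T : β → Finset σ)
    (hT : (s : Set β).PairwiseDisjoint T) (f : Fm K σ k) : ∑ b ∈ s, f.occ (T b) ≤ f.leaves := by
  induction f with
  | var i =>
    simp only [occ, leaves]
    rw [Finset.sum_boole]
    simp only [Nat.cast_id]
    rw [Finset.card_le_one]
    intro a ha b hb
    simp only [mem_filter] at ha hb
    by_contra hab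
    exact (Finset.disjoint_left.mp (hT ha.1 hb.1 hab)) ha.2 hb.2
  | const c => simp [occ]
  | ref j => simp [occ]
  | add f g hf hg =>
    simp only [occ, leaves, Finset.sum_add_distrib]
    omega
  | mul f g hf hg =>
    simp only [occ, leaves, Finset.sum_add_distrib]
    omega

variable [Field K] [DecidableEq σ] {Ξ ω : Type}

/-- The values of the formula at jets. -/
noncomputable def jet (v : Fin k → TrivSqZeroExt K (ω → K)) (x : σ → TrivSqZeroExt K (ω → K)) :
    Fm K σ k → TrivSqZeroExt K (ω → K)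
  | var i => x i
  | const c => algebraMap K _ c
  | ref j => v j
  | add f g => f.jet v x + g.jet v x
  | mul f g => f.jet v x * g.jet v x

lemma aeval_poly (x : σ → TrivSqZeroExt K (ω → K)) (v : Fin k → MvPolynomial σ K)
    (f : Fm K σ k) : aeval x (f.poly v) = f.jet (fun j => aeval x (v j)) x := by
  induction f with
  | var i => simp [poly, jet]
  | const c => simp [poly, jet]
  | ref j => rfl
  | add f g ihf ihg => simp only [poly, jet, map_add, ihf, ihg]
  | mul f g ihf ihg => simp only [poly, jet, map_mul, ihf, ihg]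

lemma const_of_occ {T : Finset σ} {P : Ξ → σ → TrivSqZeroExt K (ω → K)}
    (V : Ξ → Fin k → TrivSqZeroExt K (ω → K))
    (hc : ∀ v, v ∉ T → ∀ ξ ξ', P ξ v = P ξ' v) (f : Fm K σ k) (hf : f.occ T + f.refs = 0)
    (ξ ξ' : Ξ) : f.jet (V ξ) (P ξ) = f.jet (V ξ') (P ξ') := by
  induction f with
  | var i =>
    simp only [occ, refs, add_zero] at hf
    simp only [jet]
    apply hc
    intro hi
    rw [if_pos hi] at hf
    exact one_ne_zero hf
  | const c => rfl
  | ref j => simp [occ, refs] at hf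
  | add f g ihf ihg =>
    simp only [occ, refs] at hf
    simp only [jet]
    rw [ihf (by omega), ihg (by omega)]
  | mul f g ihf ihg =>
    simp only [occ, refs] at hf
    simp only [jet]
    rw [ihf (by omega), ihg (by omega)]

/-- combination of two subformulas which both contain relevant leaves -/
lemma combine_aux [Finite ω] {e e' : ℕ} (he : 1 ≤ e) (he' : 1 ≤ e') (D₀ : Submodule K (ω → K))
    {F G H : Ξ → TrivSqZeroExt K (ω → K)}
    (hF : ∃ (D : Submodule K (ω → K)) (c0 c1 : TrivSqZeroExt K (ω → K))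
      (a : Ξ → TrivSqZeroExt K (ω → K)), Module.finrank K D ≤ 4 * e - 4 ∧
        (∀ ξ, (a ξ).snd ∈ D₀ ⊔ D) ∧ ∀ ξ, F ξ = c0 + c1 * a ξ)
    (hG : ∃ (D : Submodule K (ω → K)) (c0 c1 : TrivSqZeroExt K (ω → K))
      (a : Ξ → TrivSqZeroExt K (ω → K)), Module.finrank K D ≤ 4 * e' - 4 ∧
        (∀ ξ, (a ξ).snd ∈ D₀ ⊔ D) ∧ ∀ ξ, G ξ = c0 + c1 * a ξ)
    (hH : ∀ D : Submodule K (ω → K), (∀ ξ, (F ξ).snd ∈ D) → (∀ ξ, (G ξ).snd ∈ D) →
      ∀ ξ, (H ξ).snd ∈ D) :
    ∃ (D : Submodule K (ω → K)) (c0 c1 : TrivSqZeroExt K (ω → K))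
      (a : Ξ → TrivSqZeroExt K (ω → K)), Module.finrank K D ≤ 4 * (e + e') - 4 ∧
        (∀ ξ, (a ξ).snd ∈ D₀ ⊔ D) ∧ ∀ ξ, H ξ = c0 + c1 * a ξ := by
  obtain ⟨D, c0, c1, a, hD, ha, hF⟩ := hF
  obtain ⟨D', c0', c1', a', hD', ha', hG⟩ := hG
  let S : Finset (ω → K) := by
    classical
    exact {c0.snd, c1.snd, c0'.snd, c1'.snd}
  have hS : S.card ≤ 4 := by
    classical
    exact Finset.card_le_four
  refine ⟨(D ⊔ D') ⊔ Submodule.span K (S : Set (ω → K)), 0, 1, H, ?_, ?_, ?_⟩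
  · have h1 : Module.finrank K (Submodule.span K (S : Set (ω → K))) ≤ 4 :=
      le_trans (finrank_span_finset_le_card S) hS
    have h2 := Submodule.finrank_add_le_finrank_add_finrank (D ⊔ D')
      (Submodule.span K (S : Set (ω → K)))
    have h3 := Submodule.finrank_add_le_finrank_add_finrank D D'
    omega
  · have hmem : ∀ z ∈ S, z ∈ D₀ ⊔ ((D ⊔ D') ⊔ Submodule.span K (S : Set (ω → K))) :=
      fun z hz => Submodule.mem_sup_right (Submodule.mem_sup_right (Submodule.subset_span hz))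
    have hl1 : D₀ ⊔ D ≤ D₀ ⊔ ((D ⊔ D') ⊔ Submodule.span K (S : Set (ω → K))) :=
      sup_le_sup_left (le_sup_of_le_left le_sup_left) _
    have hl2 : D₀ ⊔ D' ≤ D₀ ⊔ ((D ⊔ D') ⊔ Submodule.span K (S : Set (ω → K))) :=
      sup_le_sup_left (le_sup_of_le_left le_sup_right) _
    have hcs : c0.snd ∈ S ∧ c1.snd ∈ S ∧ c0'.snd ∈ S ∧ c1'.snd ∈ S := by
      classical
      simp [S]
    apply hH
    · intro ξ
      rw [hF ξ, TrivSqZeroExt.snd_add, TrivSqZeroExt.snd_mul]
      apply Submodule.add_mem _ (hmem _ hcs.1)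
      apply Submodule.add_mem
      · exact Submodule.smul_mem _ _ (hl1 (ha ξ))
      · rw [op_smul_eq_smul]
        exact Submodule.smul_mem _ _ (hmem _ hcs.2.1)
    · intro ξ
      rw [hG ξ, TrivSqZeroExt.snd_add, TrivSqZeroExt.snd_mul]
      apply Submodule.add_mem _ (hmem _ hcs.2.2.1)
      apply Submodule.add_mem
      · exact Submodule.smul_mem _ _ (hl2 (ha' ξ))
      · rw [op_smul_eq_smul]
        exact Submodule.smul_mem _ _ (hmem _ hcs.2.2.2)
  · intro ξ; simp

lemma exists_of_occ [Finite ω] {T : Finset σ} {P : Ξ → σ → TrivSqZeroExt K (ω → K)}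
    (V : Ξ → Fin k → TrivSqZeroExt K (ω → K)) (D₀ : Submodule K (ω → K))
    (hV : ∀ ξ j, (V ξ j).snd ∈ D₀)
    (hT : ∀ v ∈ T, ∀ ξ, (P ξ v).snd = 0)
    (hc : ∀ v, v ∉ T → ∀ ξ ξ', P ξ v = P ξ' v) (f : Fm K σ k) (hf : 1 ≤ f.occ T + f.refs)
    [Nonempty Ξ] :
    ∃ (D : Submodule K (ω → K)) (c0 c1 : TrivSqZeroExt K (ω → K))
      (a : Ξ → TrivSqZeroExt K (ω → K)), Module.finrank K D ≤ 4 * (f.occ T + f.refs) - 4 ∧
        (∀ ξ, (a ξ).snd ∈ D₀ ⊔ D) ∧ ∀ ξ, f.jet (V ξ) (P ξ) = c0 + c1 * a ξ := by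
  obtain ⟨ξ₀⟩ := (inferInstance : Nonempty Ξ)
  induction f with
  | var i =>
    simp only [occ, refs] at hf ⊢
    by_cases hi : i ∈ T
    · rw [if_pos hi]
      refine ⟨⊥, 0, 1, fun ξ => P ξ i, by simp, ?_, ?_⟩
      · intro ξ; rw [hT i hi ξ]; exact Submodule.zero_mem _
      · intro ξ; simp [jet]
    · rw [if_neg hi] at hf; omega
  | const c => simp [occ, refs] at hf
  | ref j =>
    refine ⟨⊥, 0, 1, fun ξ => V ξ j, by simp, ?_, ?_⟩
    · intro ξ; exact Submodule.mem_sup_left (hV ξ j)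
    · intro ξ; simp [jet]
  | add f g ihf ihg =>
    simp only [occ, refs] at hf ⊢
    simp only [jet]
    by_cases h1 : f.occ T + f.refs = 0
    · obtain ⟨D, c0, c1, a, hD, ha, hG⟩ := ihg (by omega)
      refine ⟨D, c0 + f.jet (V ξ₀) (P ξ₀), c1, a, by omega, ha, ?_⟩
      intro ξ
      rw [hG ξ, const_of_occ V hc f h1 ξ ξ₀]; ring
    · by_cases h2 : g.occ T + g.refs = 0
      · obtain ⟨D, c0, c1, a, hD, ha, hG⟩ := ihf (by omega)
        refine ⟨D, c0 + g.jet (V ξ₀) (P ξ₀), c1, a, by omega, ha, ?_⟩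
        intro ξ
        rw [hG ξ, const_of_occ V hc g h2 ξ ξ₀]; ring
      · rw [show f.occ T + g.occ T + (f.refs + g.refs) =
          (f.occ T + f.refs) + (g.occ T + g.refs) by omega]
        apply combine_aux (by omega) (by omega) D₀ (ihf (by omega)) (ihg (by omega))
        intro D hF hG ξ
        rw [TrivSqZeroExt.snd_add]
        exact Submodule.add_mem _ (hF ξ) (hG ξ)
  | mul f g ihf ihg =>
    simp only [occ, refs] at hf ⊢
    simp only [jet]
    by_cases h1 : f.occ T + f.refs = 0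
    · obtain ⟨D, c0, c1, a, hD, ha, hG⟩ := ihg (by omega)
      refine ⟨D, c0 * f.jet (V ξ₀) (P ξ₀), c1 * f.jet (V ξ₀) (P ξ₀), a, by omega, ha, ?_⟩
      intro ξ
      rw [hG ξ, const_of_occ V hc f h1 ξ ξ₀]; ring
    · by_cases h2 : g.occ T + g.refs = 0
      · obtain ⟨D, c0, c1, a, hD, ha, hG⟩ := ihf (by omega)
        refine ⟨D, c0 * g.jet (V ξ₀) (P ξ₀), c1 * g.jet (V ξ₀) (P ξ₀), a, by omega, ha, ?_⟩
        intro ξ
        rw [hG ξ, const_of_occ V hc g h2 ξ ξ₀]; ring
      · rw [show f.occ T + g.occ T + (f.refs + g.refs) =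
          (f.occ T + f.refs) + (g.occ T + g.refs) by omega]
        apply combine_aux (by omega) (by omega) D₀ (ihf (by omega)) (ihg (by omega))
        intro D hF hG ξ
        rw [TrivSqZeroExt.snd_mul, op_smul_eq_smul]
        exact Submodule.add_mem _ (Submodule.smul_mem _ _ (hG ξ)) (Submodule.smul_mem _ _ (hF ξ))

/-- The infinitesimal parts of the jets of a formula. -/
lemma exists_submodule [Finite ω] {T : Finset σ} {P : Ξ → σ → TrivSqZeroExt K (ω → K)}
    (V : Ξ → Fin k → TrivSqZeroExt K (ω → K)) (D₀ : Submodule K (ω → K))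
    (hV : ∀ ξ j, (V ξ j).snd ∈ D₀)
    (hT : ∀ v ∈ T, ∀ ξ, (P ξ v).snd = 0)
    (hc : ∀ v, v ∉ T → ∀ ξ ξ', P ξ v = P ξ' v) (f : Fm K σ k) [hΞ : Nonempty Ξ] :
    ∃ D : Submodule K (ω → K), Module.finrank K D ≤ 4 * (f.occ T + f.refs) + 1 ∧
      ∀ ξ, (f.jet (V ξ) (P ξ)).snd ∈ D₀ ⊔ D := by
  obtain ⟨ξ₀⟩ := id hΞ
  by_cases h0 : f.occ T + f.refs = 0
  · refine ⟨Submodule.span K {(f.jet (V ξ₀) (P ξ₀)).snd}, ?_, ?_⟩
    · have := finrank_span_finset_le_card (R := K) ({(f.jet (V ξ₀) (P ξ₀)).snd} : Finset (ω → K))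
      rw [Finset.coe_singleton, Finset.card_singleton] at this
      exact le_trans this (by omega)
    · intro ξ
      rw [const_of_occ V hc f h0 ξ ξ₀]
      exact Submodule.mem_sup_right (Submodule.mem_span_singleton_self _)
  · obtain ⟨D, c0, c1, a, hD, ha, hG⟩ := exists_of_occ V D₀ hV hT hc f (by omega)
    let S : Finset (ω → K) := by
      classical
      exact {c0.snd, c1.snd}
    have hS : S.card ≤ 2 := by
      classical
      exact Finset.card_le_two
    refine ⟨D ⊔ Submodule.span K (S : Set (ω → K)), ?_, ?_⟩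
    · have h1 : Module.finrank K (Submodule.span K (S : Set (ω → K))) ≤ 2 :=
        le_trans (finrank_span_finset_le_card S) hS
      have h2 := Submodule.finrank_add_le_finrank_add_finrank D
        (Submodule.span K (S : Set (ω → K)))
      omega
    · intro ξ
      have hmem : ∀ z ∈ S, z ∈ D₀ ⊔ (D ⊔ Submodule.span K (S : Set (ω → K))) := fun z hz =>
        Submodule.mem_sup_right (Submodule.mem_sup_right (Submodule.subset_span hz))
      have hl : D₀ ⊔ D ≤ D₀ ⊔ (D ⊔ Submodule.span K (S : Set (ω → K))) :=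
        sup_le_sup_left le_sup_left _
      have hcs : c0.snd ∈ S ∧ c1.snd ∈ S := by
        classical
        simp [S]
      rw [hG ξ, TrivSqZeroExt.snd_add, TrivSqZeroExt.snd_mul]
      apply Submodule.add_mem _ (hmem _ hcs.1)
      apply Submodule.add_mem
      · exact Submodule.smul_mem _ _ (hl (ha ξ))
      · rw [op_smul_eq_smul]
        exact Submodule.smul_mem _ _ (hmem _ hcs.2)

end Fm

namespace Prog

/-- The number of leaves labelled by a variable of `T`. -/
def occ [DecidableEq σ] (T : Finset σ) : {k : ℕ} → Prog K σ k → ℕ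
  | _, nil => 0
  | _, snoc P φ => P.occ T + φ.occ T

lemma sum_occ_le [DecidableEq σ] {β : Type*} (s : Finset β) (T : β → Finset σ)
    (hT : (s : Set β).PairwiseDisjoint T) : ∀ {k : ℕ} (P : Prog K σ k),
    ∑ b ∈ s, P.occ (T b) ≤ P.leaves
  | _, nil => by simp [occ, leaves]
  | _, snoc P φ => by
    simp only [occ, leaves, sum_add_distrib]
    exact Nat.add_le_add (sum_occ_le s T hT P) (Fm.sum_occ_le s T hT φ)

/-- The infinitesimal parts of the jets of a program. -/
lemma exists_submodule [Field K] [DecidableEq σ] {Ξ ω : Type} [Finite ω] {T : Finset σ}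
    {P : Ξ → σ → TrivSqZeroExt K (ω → K)} (hT : ∀ v ∈ T, ∀ ξ, (P ξ v).snd = 0)
    (hc : ∀ v, v ∉ T → ∀ ξ ξ', P ξ v = P ξ' v) [Nonempty Ξ] : ∀ {k : ℕ} (Q : Prog K σ k),
    ∃ D : Submodule K (ω → K), Module.finrank K D ≤ 4 * (Q.occ T + Q.refs) + k ∧
      ∀ ξ j, (aeval (P ξ) (Q.poly j)).snd ∈ D
  | _, nil => ⟨⊥, by simp, fun _ j => j.elim0⟩
  | k + 1, snoc Q φ => by
    obtain ⟨D₀, h1, h2⟩ := exists_submodule hT hc Q
    obtain ⟨D, h3, h4⟩ := Fm.exists_submodule (fun ξ j => aeval (P ξ) (Q.poly j)) D₀ h2 hT hc φ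
    refine ⟨D₀ ⊔ D, ?_, fun ξ j => ?_⟩
    · have h5 := Submodule.finrank_add_le_finrank_add_finrank D₀ D
      simp only [occ, refs]
      omega
    · refine Fin.lastCases ?_ (fun j => ?_) j
      · simp only [poly, Fin.snoc_last]
        rw [Fm.aeval_poly]
        exact h4 ξ
      · simp only [poly, Fin.snoc_castSucc]
        exact Submodule.mem_sup_left (h2 ξ j)

end Prog

end Pool.Agent.TH272.Nec.Arith
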