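import Mathlib

set_option autoImplicit false

/-!
# Arithmetic circuits with sharing, written as sequences of formulas

An arithmetic circuit in which the values of `k` gates are used more than once is a sequence of
`k + 1` formulas; the leaves of a formula are variables, constants and references to the values of
earlier formulas. The number of references is the total fan-out of the `k` shared gates. The circuit
is a formula if and only if `k = 0`.
-/

namespace Pool.Agent.TH272.Nec.Arith

open MvPolynomial

/-- Arithmetic formulas. A leaf is a variable, a constant, or one of `k` polynomials that have been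
computed before. -/
inductive Fm (K σ : Type) (k : ℕ) : Type
  | var : σ → Fm K σ k
  | const : K → Fm K σ k
  | ref : Fin k → Fm K σ k
  | add : Fm K σ k → Fm K σ k → Fm K σ k
  | mul : Fm K σ k → Fm K σ k → Fm K σ k

namespace Fm

variable {K σ : Type} {k : ℕ}

/-- The polynomial computed by the formula. -/
noncomputable def poly [Field K] : Fm K σ k → (Fin k → MvPolynomial σ K) → MvPolynomial σ K
  | var i, _ => X i
  | const c, _ => C c
  | ref j, v => v j
  | add a b, v => a.poly v + b.poly v
  | mul a b, v => a.poly v * b.poly v

/-- The number of leaves that are variables. -/
def leaves : Fm K σ k → ℕ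
  | var _ => 1
  | const _ => 0
  | ref _ => 0
  | add a b => a.leaves + b.leaves
  | mul a b => a.leaves + b.leaves

/-- The number of references. -/
def refs : Fm K σ k → ℕ
  | var _ => 0
  | const _ => 0
  | ref _ => 1
  | add a b => a.refs + b.refs
  | mul a b => a.refs + b.refs

end Fm

/-- Sequences of `k` formulas; each formula may refer to the values of the earlier ones. -/
inductive Prog (K σ : Type) : ℕ → Type
  | nil : Prog K σ 0
  | snoc : {k : ℕ} → Prog K σ k → Fm K σ k → Prog K σ (k + 1)

namespace Prog

variable {K σ : Type}

/-- The polynomials computed by the formulas. -/
noncomputable def poly [Field K] : {k : ℕ} → Prog K σ k → Fin k → MvPolynomial σ K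
  | _, nil => Fin.elim0
  | _, snoc P φ => Fin.snoc P.poly (φ.poly P.poly)

/-- The number of leaves that are variables. -/
def leaves : {k : ℕ} → Prog K σ k → ℕ
  | _, nil => 0
  | _, snoc P φ => P.leaves + φ.leaves

/-- The number of references. -/
def refs : {k : ℕ} → Prog K σ k → ℕ
  | _, nil => 0
  | _, snoc P φ => P.refs + φ.refs

end Prog

/-- A circuit is a sequence of `k + 1` formulas, where `k` is the number of shared gates. -/
structure Circuit (K σ : Type) : Type where
  /-- the number of the gates whose values are shared -/
  shared : ℕ
  /-- the formulas -/
  prog : Prog K σ (shared + 1)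

namespace Circuit

variable {K σ : Type}

/-- The polynomial computed by the last formula. -/
noncomputable def poly [Field K] (C : Circuit K σ) : MvPolynomial σ K := C.prog.poly (Fin.last _)

/-- The number of leaves that are variables. -/
def leaves (C : Circuit K σ) : ℕ := C.prog.leaves

/-- The total fan-out of the shared gates. -/
def refs (C : Circuit K σ) : ℕ := C.prog.refs

end Circuit

end Pool.Agent.TH272.Nec.Arith
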