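import Pool.Agent.TH272.Nec.Partition

set_option autoImplicit false

/-! # From the blocks to all pairs -/

namespace Pool.Agent.TH272.Nec

open Finset

variable {n : ℕ} {κ : Type} [DecidableEq κ] {Ω : Type} [Fintype Ω]

/-- If every matching block is read often, then there are many leaves. -/
theorem blocks_lower (block : Sym2 (Fin n) → κ) (B : Finset κ) (μ : Ω → ℝ) (hμ : ∀ ω, 0 ≤ μ ω)
    (C : Ω → Circuit κ (Item block)) (c : ℝ)
    (h : ∀ i ∈ B, 8 * c ≤ 4 * mean μ (fun ω => (C ω).prog.reads i) +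
      4 * mean μ (fun ω => (C ω).refs) + mean μ (fun ω => (C ω).shared)) :
    c ≤ mean μ (fun ω => (C ω).refs) + mean μ (fun ω => (C ω).shared) ∨
      c * B.card ≤ mean μ (fun ω => (C ω).leaves) := by
  rw [or_iff_not_imp_left]
  intro hcon
  push Not at hcon
  have a3 : 0 ≤ mean μ (fun ω => (C ω).shared) :=
    sum_nonneg fun ω _ => mul_nonneg (hμ ω) (Nat.cast_nonneg _)
  have h2 := leaves_lower μ hμ C B (4 * c) (fun i hi => by linarith [h i hi])
  linarith

/-- The lower bound for circuits whose leaves read single pairs. -/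
theorem single_lower (hn : 2 ^ 11 ≤ n) (Q : SimpleGraph (Fin n) → Prop) (μ : Ω → ℝ)
    (C : Ω → Circuit (Sym2 (Fin n)) (fun _ => Bool))
    (hC : Computes μ C fun x => Q (SimpleGraph.fromEdgeSet {e | x e = true})) (c : ℝ) (hc : 0 ≤ c)
    (w : ℕ) (hw : 1 ≤ w) (hw2 : 8 * w ≤ n)
    (h : ∀ (κ : Type) [DecidableEq κ] (block : Sym2 (Fin n) → κ) (B : Finset κ),
      (∀ i ∈ B, IsMatchingBlock block w i) → ∀ (C : Ω → Circuit κ (Item block)),
      (Computes μ C fun x => Q (graph block x)) →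
      c ≤ mean μ (fun ω => (C ω).refs) + mean μ (fun ω => (C ω).shared) ∨
        c * B.card ≤ mean μ (fun ω => (C ω).leaves)) :
    c ≤ mean μ (fun ω => (C ω).refs) + mean μ (fun ω => (C ω).shared) ∨
      c * n ^ 2 ≤ 9 * w * mean μ (fun ω => (C ω).leaves) := by
  obtain ⟨hh, hhh⟩ : ∃ hh, hh = n / 2 := ⟨_, rfl⟩
  obtain ⟨q, hq⟩ : ∃ q, q = hh / w := ⟨_, rfl⟩
  have hqw : q * w ≤ hh := by rw [hq]; exact Nat.div_mul_le_self _ _
  have h1 := h (Option (Fin hh × Fin q)) (diag n hh w q) (univ.map Function.Embedding.some)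
    (fun i hi => by
      rw [mem_map] at hi
      obtain ⟨⟨d, c⟩, -, rfl⟩ := hi
      exact diag_matching (by omega) hqw d c) (fun ω => (C ω).toBlocks _)
    (hC.toBlocks _)
  have e1 : mean μ (fun ω => ((C ω).toBlocks (diag n hh w q)).refs) =
      mean μ (fun ω => (C ω).refs) := by
    unfold mean
    refine sum_congr rfl fun ω _ => ?_
    beta_reduce
    rw [show ((C ω).toBlocks (diag n hh w q)).refs = (C ω).refs from Prog.toBlocks_refs _ _]
  have e2 : mean μ (fun ω => ((C ω).toBlocks (diag n hh w q)).leaves) =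
      mean μ (fun ω => (C ω).leaves) := by
    unfold mean
    refine sum_congr rfl fun ω _ => ?_
    beta_reduce
    rw [show ((C ω).toBlocks (diag n hh w q)).leaves = (C ω).leaves from Prog.toBlocks_leaves _ _]
  have e3 : mean μ (fun ω => ((C ω).toBlocks (diag n hh w q)).shared) =
      mean μ (fun ω => (C ω).shared) := rfl
  rw [e1, e2, e3] at h1
  refine h1.imp id fun h2 => ?_
  rw [card_map, card_univ, Fintype.card_prod, Fintype.card_fin, Fintype.card_fin] at h2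
  -- the number of the blocks
  have h3 : hh < (q + 1) * w := by
    rw [hq]
    have := Nat.lt_div_mul_add (a := hh) (b := w) (by omega)
    linarith
  have h4 : (n : ℝ) ≤ 2 * hh + 1 := by
    have : n ≤ 2 * hh + 1 := by omega
    exact_mod_cast this
  have h5 : (hh : ℝ) ≤ (q + 1) * w := by exact_mod_cast h3.le
  have h6 : (8 : ℝ) * w ≤ n := by exact_mod_cast hw2
  have h7 : (2048 : ℝ) ≤ n := by exact_mod_cast hn
  have h8 : (n : ℝ) ^ 2 ≤ 9 * w * (hh * q) := by
    have a1 : (2 * hh : ℝ) ≤ n := by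
      have : 2 * hh ≤ n := by omega
      exact_mod_cast this
    have a2 : (n : ℝ) / 4 + n / 8 - 1 ≤ w * q := by nlinarith
    have a3 : (n : ℝ) / 2 - 1 / 2 ≤ hh := by linarith
    nlinarith [mul_le_mul a3 a2 (by linarith) (by linarith)]
  push_cast at h2
  calc c * n ^ 2 ≤ c * (9 * w * (hh * q)) := mul_le_mul_of_nonneg_left h8 hc
    _ = 9 * w * (c * (hh * q)) := by ring
    _ ≤ _ := mul_le_mul_of_nonneg_left h2 (by positivity)

theorem log_bounds {n : ℕ} (hn : 2 ^ 11 ≤ n) : 11 ≤ Nat.log 2 n ∧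
    32 * Nat.log 2 n ≤ n ∧ 8 * 2 ^ (Nat.log 2 n - 3) ≤ n ∧ n < 16 * 2 ^ (Nat.log 2 n - 3) ∧
    256 ≤ 2 ^ (Nat.log 2 n - 3) := by
  have h1 : 11 ≤ Nat.log 2 n := by
    have := Nat.log_mono_right (b := 2) hn
    rwa [Nat.log_pow (by norm_num)] at this
  have h2 : 2 ^ Nat.log 2 n ≤ n := Nat.pow_log_le_self 2 (by omega)
  have h3 : n < 2 ^ (Nat.log 2 n + 1) := Nat.lt_pow_succ_log_self (by norm_num) n
  obtain ⟨ℓ, hℓ⟩ : ∃ ℓ, Nat.log 2 n = ℓ + 3 := ⟨Nat.log 2 n - 3, by omega⟩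
  rw [hℓ] at h1 h2 h3 ⊢
  have h4 : ∀ k : ℕ, 32 * (k + 11) ≤ 2 ^ (k + 11) := by
    intro k
    induction k with
    | zero => norm_num
    | succ k ih =>
      have : 2 ^ (k + 1 + 11) = 2 * 2 ^ (k + 11) := by ring
      omega
  have h5 := h4 (ℓ + 3 - 11)
  rw [show ℓ + 3 - 11 + 11 = ℓ + 3 by omega] at h5
  have e1 : 2 ^ (ℓ + 3) = 8 * 2 ^ ℓ := by ring
  have e2 : 2 ^ (ℓ + 3 + 1) = 16 * 2 ^ ℓ := by ring
  have h6 : 2 ^ 8 ≤ 2 ^ ℓ := Nat.pow_le_pow_right (by norm_num) (by omega)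
  rw [show ℓ + 3 - 3 = ℓ by omega]
  omega

end Pool.Agent.TH272.Nec
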