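import Pool.Agent.TH272.Nec.Graph

set_option autoImplicit false

/-! # Embeddings which put given pairs into a block -/

namespace Pool.Agent.TH272.Nec

open Finset

/-- Extension of an embedding. -/
theorem exists_extend {α β : Type} [Fintype α] [Fintype β] {n : ℕ} (g : α ↪ Fin n)
    (h : Fintype.card α + Fintype.card β ≤ n) :
    ∃ e : α ⊕ β ↪ Fin n, ∀ a, e (.inl a) = g a := by
  classical
  obtain ⟨R, hR⟩ : ∃ R : Finset (Fin n), R = (univ.map g)ᶜ := ⟨_, rfl⟩
  have hc : Fintype.card β ≤ Fintype.card {x // x ∈ R} := by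
    rw [Fintype.card_coe, hR, card_compl, card_map, card_univ, Fintype.card_fin]
    omega
  obtain ⟨k⟩ := Function.Embedding.nonempty_of_card_le hc
  have hk : ∀ b, (k b).1 ∉ univ.map g := fun b => by
    have h2 : (k b).1 ∈ R := (k b).2
    exact mem_compl.1 (by rwa [← hR])
  refine ⟨⟨Sum.elim g (fun b => (k b).1), ?_⟩, fun a => rfl⟩
  rintro (a | b) (a' | b') h
  · exact congrArg _ (g.injective h)
  · exfalso
    simp only [Sum.elim_inl, Sum.elim_inr] at h
    exact hk b' (mem_map.2 ⟨a, mem_univ _, h⟩)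
  · exfalso
    simp only [Sum.elim_inl, Sum.elim_inr] at h
    exact hk b (mem_map.2 ⟨a', mem_univ _, h.symm⟩)
  · simp only [Sum.elim_inr] at h
    exact congrArg _ (k.injective (Subtype.ext h))

/-- Disjoint pairs in the block. -/
theorem exists_pairs {n w : ℕ} {κ : Type} {block : Sym2 (Fin n) → κ} {i : κ}
    (h : IsMatchingBlock block w i) {β : Type} [Fintype β] (hβ : Fintype.card β ≤ w) :
    ∃ g : β × Bool ↪ Fin n, ∀ b, block s(g (b, false), g (b, true)) = i := by
  classical
  obtain ⟨h1, M, hM, h2⟩ := h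
  have hc : Fintype.card β ≤ Fintype.card {x // x ∈ M} := by
    rw [Fintype.card_coe]
    omega
  obtain ⟨k⟩ := Function.Embedding.nonempty_of_card_le hc
  have hex : ∀ b : β, ∃ x y : Fin n, (k b).1 = s(x, y) := fun b => by
    induction h : (k b).1 using Sym2.ind with
    | _ x y => exact ⟨x, y, rfl⟩
  choose x y hxy using hex
  have hb : ∀ b, block s(x b, y b) = i := fun b => by rw [← hxy b]; exact (h2 _ (k b).2).1
  have hne : ∀ b, x b ≠ y b := fun b hcon => by
    have := (h2 _ (k b).2).2
    rw [hxy b, hcon] at this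
    exact this (by simp)
  have key : ∀ b b' v, v ∈ s(x b, y b) → v ∈ s(x b', y b') → b = b' := by
    intro b b' v hv hv'
    apply k.injective
    apply Subtype.ext
    rw [hxy, hxy]
    exact h1 _ _ (hb b) (hb b') v hv hv'
  refine ⟨⟨fun p => if p.2 then y p.1 else x p.1, ?_⟩, fun b => hb b⟩
  rintro ⟨b, s⟩ ⟨b', s'⟩ h
  have hbb : b = b' := by
    refine key b b' (if s then y b else x b) ?_ ?_
    · cases s <;> simp
    · simp only at h
      rw [h]
      cases s' <;> simp
  subst hbb
  simp only at h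
  cases s <;> cases s' <;> simp at h ⊢
  · exact hne b h
  · exact hne b h.symm

end Pool.Agent.TH272.Nec
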