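import Pool.Agent.TH272.Nec.Graph

set_option autoImplicit false

/-! # The gadget for the clique problem -/

namespace Pool.Agent.TH272.Nec.Clq

open Finset

variable {ℓ r : ℕ}

/-- The vertices of the gadget: for each place `p < 2 * ℓ` two parts of two vertices each, two
parts of `2 ^ ℓ` vertices, and `r` vertices joined to all others. -/
abbrev V (ℓ r : ℕ) : Type :=
  (Fin (2 * ℓ) × Bool × Bool) ⊕ ((Fin (2 ^ ℓ) ⊕ Fin (2 ^ ℓ)) ⊕ Fin r)

/-- The address. -/
def addr (t : Fin (2 ^ ℓ) × Fin (2 ^ ℓ)) (p : Fin (2 * ℓ)) : Bool :=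
  if p.val < ℓ then t.1.val.testBit p.val else t.2.val.testBit (p.val - ℓ)

/-- The edges. -/
def rel (z : Fin (2 ^ ℓ) → Fin (2 ^ ℓ) → Prop) (t : Fin (2 ^ ℓ) × Fin (2 ^ ℓ)) :
    V ℓ r → V ℓ r → Prop
  | .inl (p, c, s), .inl (p', c', s') => p = p' → s ≠ s' ∧ c = c' ∧ addr t p = c
  | .inl (p, c, s), .inr (.inl (.inl i)) => s = false → p.val < ℓ → i.val.testBit p.val = c
  | .inl (p, c, s), .inr (.inl (.inr j)) =>
      s = false → ℓ ≤ p.val → j.val.testBit (p.val - ℓ) = c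
  | .inr (.inl (.inl i)), .inr (.inl (.inr j)) => z i j
  | _, .inr (.inr _) => True
  | _, _ => False

/-- The graph. -/
def H (z : Fin (2 ^ ℓ) → Fin (2 ^ ℓ) → Prop) (t : Fin (2 ^ ℓ) × Fin (2 ^ ℓ)) :
    SimpleGraph (V ℓ r) := SimpleGraph.fromRel (rel z t)

/-- The parts. -/
def part : V ℓ r → (Fin (2 * ℓ) × Bool) ⊕ (Bool ⊕ Fin r)
  | .inl (p, _, s) => .inl (p, s)
  | .inr (.inl (.inl _)) => .inr (.inl false)
  | .inr (.inl (.inr _)) => .inr (.inl true)
  | .inr (.inr j) => .inr (.inr j)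

theorem part_ne {z : Fin (2 ^ ℓ) → Fin (2 ^ ℓ) → Prop} {t : Fin (2 ^ ℓ) × Fin (2 ^ ℓ)}
    {a b : V ℓ r} (h : (H z t).Adj a b) : part a ≠ part b := by
  unfold H at h
  rw [SimpleGraph.fromRel_adj] at h
  obtain ⟨h1, h2⟩ := h
  rcases a with ⟨p, c, s⟩ | (i | i) | j <;> rcases b with ⟨p', c', s'⟩ | (i' | i') | j' <;>
    simp only [part, ne_eq, reduceCtorEq, not_false_eq_true, Sum.inr.injEq, Sum.inl.injEq,
      Prod.mk.injEq, rel, or_self] at h1 h2 ⊢
  · rintro ⟨rfl, rfl⟩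
    simp at h2
  · simpa using h1

theorem eq_of_testBit {i j : Fin (2 ^ ℓ)}
    (h : ∀ p < ℓ, i.val.testBit p = j.val.testBit p) : i = j := by
  apply Fin.ext
  apply Nat.eq_of_testBit_eq
  intro p
  by_cases hp : p < ℓ
  · exact h p hp
  · rw [Nat.testBit_lt_two_pow (lt_of_lt_of_le i.2 (Nat.pow_le_pow_right (by norm_num) (by omega))),
      Nat.testBit_lt_two_pow (lt_of_lt_of_le j.2 (Nat.pow_le_pow_right (by norm_num) (by omega)))]

theorem clique_imp {z : Fin (2 ^ ℓ) → Fin (2 ^ ℓ) → Prop} {t : Fin (2 ^ ℓ) × Fin (2 ^ ℓ)}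
    {K : Finset (V ℓ r)} (hK : (H z t).IsNClique (4 * ℓ + 2 + r) K) : z t.1 t.2 := by
  classical
  have hinj : Set.InjOn (part (ℓ := ℓ) (r := r)) K := by
    intro a ha b hb hab
    by_contra hne
    exact part_ne (hK.1 ha hb hne) hab
  have hcard : (K.image part).card = Fintype.card ((Fin (2 * ℓ) × Bool) ⊕ (Bool ⊕ Fin r)) := by
    rw [card_image_of_injOn hinj, hK.2]
    simp only [Fintype.card_sum, Fintype.card_prod, Fintype.card_fin, Fintype.card_bool]
    ring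
  have huniv := Finset.eq_univ_of_card _ hcard
  have hex : ∀ y, ∃ a ∈ K, part a = y := by
    intro y
    have : y ∈ K.image part := by rw [huniv]; exact mem_univ _
    rw [mem_image] at this
    exact this
  have adj : ∀ a ∈ K, ∀ b ∈ K, a ≠ b → rel z t a b ∨ rel z t b a := by
    intro a ha b hb hab
    have h := hK.1 ha hb hab
    unfold H at h
    rw [SimpleGraph.fromRel_adj] at h
    exact h.2
  obtain ⟨u, hu, hu2⟩ := hex (.inr (.inl false))
  obtain ⟨v, hv, hv2⟩ := hex (.inr (.inl true))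
  obtain ⟨i, rfl⟩ : ∃ i, u = .inr (.inl (.inl i)) := by
    rcases u with ⟨p, c, s⟩ | (i | i) | j <;> simp [part] at hu2 ⊢
  obtain ⟨j, rfl⟩ : ∃ j, v = .inr (.inl (.inr j)) := by
    rcases v with ⟨p, c, s⟩ | (i | i) | j <;> simp [part] at hv2 ⊢
  have h3 : ∀ p : Fin (2 * ℓ), (.inl (p, addr t p, false) : V ℓ r) ∈ K := by
    intro p
    obtain ⟨a, ha, ha2⟩ := hex (.inl (p, false))
    obtain ⟨b, hb, hb2⟩ := hex (.inl (p, true))
    obtain ⟨c, rfl⟩ : ∃ c, a = .inl (p, c, false) := by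
      rcases a with ⟨p', c', s'⟩ | (i | i) | j <;> simp [part] at ha2 ⊢
      exact ⟨ha2.1, ha2.2⟩
    obtain ⟨c', rfl⟩ : ∃ c, b = .inl (p, c, true) := by
      rcases b with ⟨p', c', s'⟩ | (i | i) | j <;> simp [part] at hb2 ⊢
      exact ⟨hb2.1, hb2.2⟩
    have h := adj _ ha _ hb (by simp)
    simp only [rel, forall_const] at h
    rcases h with h | h
    · rw [h.2.2]; exact ha
    · rw [h.2.2, h.2.1]; exact ha
  have hi : i = t.1 := by
    refine eq_of_testBit fun p hp => ?_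
    have h := adj _ (h3 ⟨p, by omega⟩) _ hu (by simp)
    simp only [rel, or_false, forall_const] at h
    have h4 := h hp
    rw [h4]
    simp [addr, hp]
  have hj : j = t.2 := by
    refine eq_of_testBit fun p hp => ?_
    have h := adj _ (h3 ⟨ℓ + p, by omega⟩) _ hv (by simp)
    simp only [rel, or_false, forall_const] at h
    have h4 := h (by omega)
    rw [Nat.add_sub_cancel_left] at h4
    rw [h4]
    simp [addr]
  have h := adj _ hu _ hv (by simp)
  simp only [rel, or_false] at h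
  rw [← hi, ← hj]
  exact h

/-- The clique. -/
def sel (t : Fin (2 ^ ℓ) × Fin (2 ^ ℓ)) : (Fin (2 * ℓ) × Bool) ⊕ (Bool ⊕ Fin r) → V ℓ r
  | .inl (p, s) => .inl (p, addr t p, s)
  | .inr (.inl false) => .inr (.inl (.inl t.1))
  | .inr (.inl true) => .inr (.inl (.inr t.2))
  | .inr (.inr j) => .inr (.inr j)

theorem part_sel (t : Fin (2 ^ ℓ) × Fin (2 ^ ℓ)) (y : (Fin (2 * ℓ) × Bool) ⊕ (Bool ⊕ Fin r)) :
    part (sel t y) = y := by
  rcases y with ⟨p, s⟩ | (_ | _) | j <;> rfl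

theorem sel_adj {z : Fin (2 ^ ℓ) → Fin (2 ^ ℓ) → Prop} {t : Fin (2 ^ ℓ) × Fin (2 ^ ℓ)}
    (h : z t.1 t.2) (y y' : (Fin (2 * ℓ) × Bool) ⊕ (Bool ⊕ Fin r)) (hy : y ≠ y') :
    (H z t).Adj (sel t y) (sel t y') := by
  unfold H
  rw [SimpleGraph.fromRel_adj]
  refine ⟨fun hcon => hy ?_, ?_⟩
  · rw [← part_sel t y, hcon, part_sel]
  rcases y with ⟨p, s⟩ | (_ | _) | j <;> rcases y' with ⟨p', s'⟩ | (_ | _) | j' <;>
    simp_all [sel, rel, addr]

theorem cliqueFree_iff (z : Fin (2 ^ ℓ) → Fin (2 ^ ℓ) → Prop) (t : Fin (2 ^ ℓ) × Fin (2 ^ ℓ)) :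
    ¬ (H (r := r) z t).CliqueFree (4 * ℓ + 2 + r) ↔ z t.1 t.2 := by
  constructor
  · intro h
    unfold SimpleGraph.CliqueFree at h
    push Not at h
    obtain ⟨K, hK⟩ := h
    exact clique_imp hK
  · intro h hcon
    classical
    refine hcon (univ.image (sel t)) ⟨?_, ?_⟩
    · intro a ha b hb hab
      rw [coe_image] at ha hb
      obtain ⟨y, -, rfl⟩ := ha
      obtain ⟨y', -, rfl⟩ := hb
      exact sel_adj h y y' (fun h5 => hab (by rw [h5]))
    · rw [card_image_of_injective _ (fun y y' h5 => by rw [← part_sel t y, h5, part_sel]), card_univ]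
      simp only [Fintype.card_sum, Fintype.card_prod, Fintype.card_fin, Fintype.card_bool]
      ring

end Pool.Agent.TH272.Nec.Clq
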