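import Pool.Agent.TH272.Nec.Clique
import Pool.Agent.TH272.Nec.Block

set_option autoImplicit false

/-! # The clique problem: one block -/

namespace Pool.Agent.TH272.Nec.Clq

open Finset

variable {n w ℓ r : ℕ} {κ : Type} [DecidableEq κ] {Ω : Type} [Fintype Ω]

theorem card_T {m : ℕ} (block : Sym2 (Fin n) → κ) (i : κ) (hB : IsMatchingBlock block w i)
    (x y : Fin m → Fin n) (hy : Function.Injective y) :
    m ^ 2 ≤ Fintype.card {ab : Fin m × Fin m // block s(x ab.1, y ab.2) ≠ i} + m := by
  classical
  have h1 : Fintype.card {ab : Fin m × Fin m // block s(x ab.1, y ab.2) = i} ≤ m := by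
    calc _ ≤ Fintype.card (Fin m) := by
          refine Fintype.card_le_of_injective (fun ab => ab.1.1) ?_
          rintro ⟨⟨a, b⟩, h⟩ ⟨⟨a', b'⟩, h'⟩ hab
          simp only at hab
          subst hab
          have h3 := hB.1 _ _ h h' (x a) (by simp) (by simp)
          simp only [Sym2.eq_iff] at h3
          rcases h3 with h3 | h3
          · have := hy h3.2
            subst this
            rfl
          · have := hy (h3.2.trans h3.1)
            subst this
            rfl
      _ = m := Fintype.card_fin m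
  have h2 := Fintype.card_subtype_compl (fun ab : Fin m × Fin m => block s(x ab.1, y ab.2) = i)
  rw [Fintype.card_prod, Fintype.card_fin] at h2
  have h3 : Fintype.card {ab : Fin m × Fin m // block s(x ab.1, y ab.2) = i} ≤ m * m := by
    refine (Fintype.card_subtype_le _).trans (le_of_eq ?_)
    rw [Fintype.card_prod, Fintype.card_fin]
  have e1 : m ^ 2 = m * m := sq m
  show m ^ 2 ≤ Fintype.card {ab : Fin m × Fin m // ¬ block s(x ab.1, y ab.2) = i} + m
  omega

/-- The lower bound for the number of the leaves which read a block. -/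
theorem block_lower (hn : 8 * ℓ + 2 * 2 ^ ℓ + r ≤ n) (hw : 4 * ℓ ≤ w)
    (block : Sym2 (Fin n) → κ) (i : κ) (hB : IsMatchingBlock block w i)
    (μ : Ω → ℝ) (C : Ω → Circuit κ (Item block))
    (hC : Computes μ C fun x => ¬ (graph block x).CliqueFree (4 * ℓ + 2 + r)) :
    (49 / 600 : ℝ) * ((2 ^ ℓ : ℝ) ^ 2 - 2 ^ ℓ) ≤
      4 * mean μ (fun ω => (C ω).prog.reads i) + 4 * mean μ (fun ω => (C ω).refs) +
        mean μ (fun ω => (C ω).shared) + 1 := by
  classical
  obtain ⟨g, hg⟩ := exists_pairs hB (β := Fin (2 * ℓ) × Bool) (by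
    rw [Fintype.card_prod, Fintype.card_fin, Fintype.card_bool]; omega)
  obtain ⟨e, he⟩ := exists_extend (β := (Fin (2 ^ ℓ) ⊕ Fin (2 ^ ℓ)) ⊕ Fin r)
    (((Equiv.prodAssoc (Fin (2 * ℓ)) Bool Bool).symm.toEmbedding).trans g) (by
      simp only [Fintype.card_sum, Fintype.card_prod, Fintype.card_fin, Fintype.card_bool]
      omega)
  have heg : ∀ p c, block s(e (.inl (p, c, false)), e (.inl (p, c, true))) = i := fun p c => by
    rw [he, he]
    exact hg (p, c)
  have key := graph_reads (T := {ab : Fin (2 ^ ℓ) × Fin (2 ^ ℓ) //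
      block s(e (.inr (.inl (.inl ab.1))), e (.inr (.inl (.inr ab.2)))) ≠ i}) block i
    (fun G => ¬ G.CliqueFree (4 * ℓ + 2 + r))
    (fun z t => (H (fun a b => ∃ h, z ⟨(a, b), h⟩ = true) t.1).map e) ?_ ?_ ?_ μ C hC
  · refine le_trans (mul_le_mul_of_nonneg_left ?_ (by norm_num)) key
    have h := card_T block i hB (fun a => e (.inr (.inl (.inl a))))
      (fun b => e (.inr (.inl (.inr b)))) (fun a b h => by simpa using e.injective h)
    have h2 : ((2 ^ ℓ : ℕ) : ℝ) ^ 2 ≤ (Fintype.card {ab : Fin (2 ^ ℓ) × Fin (2 ^ ℓ) //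
      block s(e (.inr (.inl (.inl ab.1))), e (.inr (.inl (.inr ab.2)))) ≠ i} : ℝ) +
        ((2 ^ ℓ : ℕ) : ℝ) := by exact_mod_cast h
    push_cast at h2
    linarith
  · intro z t t' e' he'
    induction e' using Sym2.ind with
    | _ x y =>
      rw [SimpleGraph.mem_edgeSet, SimpleGraph.mem_edgeSet, SimpleGraph.map_adj,
        SimpleGraph.map_adj]
      refine exists_congr fun a => exists_congr fun b => ?_
      constructor <;>
      · rintro ⟨h1, h2, h3⟩
        refine ⟨?_, h2, h3⟩
        subst h2 h3
        unfold H at h1 ⊢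
        rw [SimpleGraph.fromRel_adj] at h1 ⊢
        refine ⟨h1.1, ?_⟩
        rcases a with ⟨p, c, s⟩ | (j | j) | j <;> rcases b with ⟨p', c', s'⟩ | (j' | j') | j' <;>
          simp only [rel] at h1 ⊢ <;> first | exact h1.2 | skip
        by_cases hp : p = p'
        · subst hp
          exfalso
          have h4 : s ≠ s' ∧ c = c' := by
            rcases h1.2 with h4 | h4
            · exact ⟨(h4 rfl).1, (h4 rfl).2.1⟩
            · exact ⟨(h4 rfl).1.symm, (h4 rfl).2.1.symm⟩
          obtain ⟨h4, rfl⟩ := h4
          apply he'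
          have h5 := heg p c
          cases s <;> cases s'
          · exact absurd rfl h4
          · exact h5
          · rw [Sym2.eq_swap]; exact h5
          · exact absurd rfl h4
        · exact Or.inl fun h => absurd h hp
  · intro z z' t e' he'
    induction e' using Sym2.ind with
    | _ x y =>
      rw [SimpleGraph.mem_edgeSet, SimpleGraph.mem_edgeSet, SimpleGraph.map_adj,
        SimpleGraph.map_adj]
      refine exists_congr fun a => exists_congr fun b => ?_
      constructor <;>
      · rintro ⟨h1, h2, h3⟩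
        refine ⟨?_, h2, h3⟩
        subst h2 h3
        unfold H at h1 ⊢
        rw [SimpleGraph.fromRel_adj] at h1 ⊢
        refine ⟨h1.1, ?_⟩
        rcases a with ⟨p, c, s⟩ | (j | j) | j <;> rcases b with ⟨p', c', s'⟩ | (j' | j') | j' <;>
          simp only [rel] at h1 ⊢ <;> first | exact h1.2 | skip
        · exfalso
          rcases h1.2 with ⟨h4, -⟩ | h4
          · exact h4 he'
          · exact h4
        · exfalso
          rcases h1.2 with h4 | ⟨h4, -⟩
          · exact h4
          · exact h4 (by rw [Sym2.eq_swap]; exact he')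
  · intro z t
    rw [SimpleGraph.cliqueFree_map_iff, cliqueFree_iff]
    constructor
    · rintro ⟨h, h2⟩
      exact h2
    · intro h
      exact ⟨t.2, h⟩

end Pool.Agent.TH272.Nec.Clq
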