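import Pool.Agent.TH272.Nec.CliqueBlock
import Pool.Agent.TH272.Nec.Asym

set_option autoImplicit false

/-! # The lower bounds for the clique problem -/

namespace Pool.Agent.TH272.Nec.Clq

open Finset

variable {n : ℕ} {Ω : Type} [Fintype Ω]

theorem blocks {s : ℕ} (hn : 2 ^ 11 ≤ n) (hs : 4 * Nat.log 2 n ≤ s) (hs2 : 2 * s ≤ n)
    {κ : Type} [DecidableEq κ] (block : Sym2 (Fin n) → κ) (B : Finset κ)
    (hB : ∀ i ∈ B, IsMatchingBlock block (4 * Nat.log 2 n) i) (μ : Ω → ℝ)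
    (C : Ω → Circuit κ (Item block))
    (hC : Computes μ C fun x => ¬ (graph block x).CliqueFree s) :
    (n : ℝ) ^ 2 / 25600 ≤ mean μ (fun ω => (C ω).refs) + mean μ (fun ω => (C ω).shared) ∨
      (n : ℝ) ^ 2 / 25600 * B.card ≤ mean μ (fun ω => (C ω).leaves) := by
  refine blocks_lower block B μ hC.nonneg C _ fun i hi => ?_
  obtain ⟨h1, h2, h3, h4, h5⟩ := log_bounds hn
  obtain ⟨ℓ, hℓ⟩ : ∃ ℓ, Nat.log 2 n = ℓ + 3 := ⟨Nat.log 2 n - 3, by omega⟩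
  have hB2 := hB i hi
  rw [hℓ] at h1 h2 h3 h4 h5 hs hB2
  rw [show ℓ + 3 - 3 = ℓ by omega] at h3 h4 h5
  obtain ⟨r, hr⟩ : ∃ r, s = 4 * ℓ + 2 + r := ⟨s - (4 * ℓ + 2), by omega⟩
  subst hr
  have h6 := block_lower (n := n) (w := 4 * (ℓ + 3)) (ℓ := ℓ) (r := r) (by omega) (by omega)
    block i hB2 μ C hC
  have h7 : (256 : ℝ) ≤ 2 ^ ℓ := by exact_mod_cast h5
  have h8 : (n : ℝ) ≤ 16 * 2 ^ ℓ := by exact_mod_cast h4.le
  have h9 : (0 : ℝ) ≤ n := Nat.cast_nonneg n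
  have h10 : (2048 : ℝ) ≤ n := by exact_mod_cast hn
  have h11 : (n : ℝ) ^ 2 ≤ 256 * (2 ^ ℓ) ^ 2 := by nlinarith
  have h12 : (2 ^ ℓ : ℝ) ≤ (2 ^ ℓ) ^ 2 / 256 := by nlinarith
  nlinarith

theorem single {s : ℕ} (hn : 2 ^ 11 ≤ n) (hs : 4 * Nat.log 2 n ≤ s) (hs2 : 2 * s ≤ n) (μ : Ω → ℝ)
    (C : Ω → Circuit (Sym2 (Fin n)) (fun _ => Bool))
    (hC : Computes μ C fun x => ¬ (SimpleGraph.fromEdgeSet {e | x e = true}).CliqueFree s) :
    (n : ℝ) ^ 2 / 25600 ≤ mean μ (fun ω => (C ω).refs) + mean μ (fun ω => (C ω).shared) ∨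
      (n : ℝ) ^ 4 / (10 ^ 6 * Nat.log 2 n) ≤ mean μ (fun ω => (C ω).leaves) := by
  obtain ⟨h1, h2, h3, h4, h5⟩ := log_bounds hn
  refine (single_lower hn (fun G => ¬ G.CliqueFree s) μ C hC ((n : ℝ) ^ 2 / 25600) (by positivity)
    (4 * Nat.log 2 n) (by omega) (by omega) fun κ _ block B hB C hC =>
      blocks hn hs hs2 block B hB μ C hC).imp id fun h6 => ?_
  have h7 : (11 : ℝ) ≤ Nat.log 2 n := by exact_mod_cast h1
  rw [div_le_iff₀ (by positivity)]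
  push_cast at h6
  have h8 : 0 ≤ mean μ (fun ω => (C ω).leaves) := by
    refine sum_nonneg fun ω _ => mul_nonneg (hC.nonneg ω) (Nat.cast_nonneg _)
  have h9 : 0 ≤ (Nat.log 2 n : ℝ) * mean μ (fun ω => (C ω).leaves) := by positivity
  linarith

end Pool.Agent.TH272.Nec.Clq
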