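import Pool.Agent.TH272.Nec.LocalDefs

set_option autoImplicit false

/-! # Shared gates that depend on many items -/

namespace Pool.Agent.TH272.Nec

variable {ι : Type} {D : ι → Type} [DecidableEq ι]

/-- The number of references to bits that depend on more than `d` items, if the bit `j` depends on
the items in `V j`. -/
def Fm.heavyRefs {k : ℕ} (V : Fin k → Finset ι) (d : ℕ) : Fm ι D k → ℕ
  | .leaf _ _ => 0
  | .ref j => if d < (V j).card then 1 else 0
  | .gate _ a b => a.heavyRefs V d + b.heavyRefs V d

/-- The number of references to formulas that depend on more than `d` items. -/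
def Prog.heavyRefs (d : ℕ) : {k : ℕ} → Prog ι D k → ℕ
  | _, .nil => 0
  | _, .snoc P φ => P.heavyRefs d + φ.heavyRefs P.items d

/-- The number of the heavy shared gates, that is, of those that depend on more than `d` items. -/
def Circuit.heavyGates (d : ℕ) (C : Circuit ι D) : ℕ :=
  (Finset.univ.filter fun j : Fin C.shared => d < (C.prog.items j.castSucc).card).card

/-- The number of references to heavy shared gates. -/
def Circuit.heavyRefs (d : ℕ) (C : Circuit ι D) : ℕ := C.prog.heavyRefs d

end Pool.Agent.TH272.Nec
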