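import Pool.Agent.TH272.Nec.Defs

set_option autoImplicit false

/-! # The items on which the gates of a circuit depend -/

namespace Pool.Agent.TH272.Nec

variable {ι : Type} {D : ι → Type} [DecidableEq ι]

/-- The items on which the formula depends, if the bit `j` depends on the items in `V j`. -/
def Fm.items {k : ℕ} (V : Fin k → Finset ι) : Fm ι D k → Finset ι
  | .leaf i _ => {i}
  | .ref j => V j
  | .gate _ a b => a.items V ∪ b.items V

/-- The items on which the formulas of a program depend, directly or by references. -/
def Prog.items : {k : ℕ} → Prog ι D k → Fin k → Finset ι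
  | _, .nil => Fin.elim0
  | _, .snoc P φ => Fin.snoc (α := fun _ => Finset ι) P.items (φ.items P.items)

/-- Each shared gate depends on at most `d` of the items in `B`. -/
def Circuit.IsLocalOn (B : Finset ι) (d : ℕ) (C : Circuit ι D) : Prop :=
  ∀ j : Fin C.shared, (B ∩ C.prog.items j.castSucc).card ≤ d

/-- Each shared gate depends on at most `d` items. -/
def Circuit.IsLocal (d : ℕ) (C : Circuit ι D) : Prop :=
  ∀ j : Fin C.shared, (C.prog.items j.castSucc).card ≤ d

end Pool.Agent.TH272.Nec
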