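import Pool.Agent.TH272.Nec.Core

set_option autoImplicit false

/-! # Circuits whose leaves read single bits, as circuits whose leaves read blocks of bits -/

namespace Pool.Agent.TH272.Nec

open Finset

variable {ι κ : Type}

/-- Item `i` consists of the bits in block `i`. -/
abbrev Blk (β : ι → κ) (i : κ) : Type := {e : ι // β e = i} → Bool

/-- A formula whose leaves read single bits, as a formula whose leaves read blocks. -/
def Fm.merge (β : ι → κ) {k : ℕ} : Fm ι (fun _ => Bool) k → Fm κ (Blk β) k
  | .leaf e p => .leaf (β e) (fun y => p (y ⟨e, rfl⟩))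
  | .ref j => .ref j
  | .gate g a b => .gate g (a.merge β) (b.merge β)

/-- A program whose leaves read single bits, as a program whose leaves read blocks. -/
def Prog.merge (β : ι → κ) : {k : ℕ} → Prog ι (fun _ => Bool) k → Prog κ (Blk β) k
  | _, .nil => .nil
  | _, .snoc P φ => .snoc (P.merge β) (φ.merge β)

/-- A circuit whose leaves read single bits, as a circuit whose leaves read blocks. -/
def Circuit.merge (β : ι → κ) (C : Circuit ι (fun _ => Bool)) : Circuit κ (Blk β) :=
  ⟨C.shared, C.prog.merge β⟩

theorem Fm.merge_eval (β : ι → κ) {k : ℕ} (φ : Fm ι (fun _ => Bool) k) (x : ∀ i, Blk β i)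
    (v : Fin k → Bool) : (φ.merge β).eval x v = φ.eval (fun e => x (β e) ⟨e, rfl⟩) v := by
  induction φ with
  | leaf e p => rfl
  | ref j => rfl
  | gate g a b iha ihb => simp only [merge, eval, iha, ihb]

theorem Fm.merge_leaves (β : ι → κ) {k : ℕ} (φ : Fm ι (fun _ => Bool) k) :
    (φ.merge β).leaves = φ.leaves := by
  induction φ with
  | leaf e p => rfl
  | ref j => rfl
  | gate g a b iha ihb => simp only [merge, leaves, iha, ihb]

theorem Fm.merge_refs (β : ι → κ) {k : ℕ} (φ : Fm ι (fun _ => Bool) k) :
    (φ.merge β).refs = φ.refs := by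
  induction φ with
  | leaf e p => rfl
  | ref j => rfl
  | gate g a b iha ihb => simp only [merge, refs, iha, ihb]

theorem Prog.merge_eval (β : ι → κ) (x : ∀ i, Blk β i) : ∀ {k : ℕ}
    (P : Prog ι (fun _ => Bool) k), (P.merge β).eval x = P.eval (fun e => x (β e) ⟨e, rfl⟩)
  | _, .nil => rfl
  | _, .snoc P φ => by
    simp only [merge, eval]
    rw [Prog.merge_eval β x P, Fm.merge_eval]

theorem Prog.merge_leaves (β : ι → κ) : ∀ {k : ℕ} (P : Prog ι (fun _ => Bool) k),
    (P.merge β).leaves = P.leaves
  | _, .nil => rfl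
  | _, .snoc P φ => by
    simp only [merge, leaves]
    rw [Prog.merge_leaves β P, Fm.merge_leaves]

theorem Prog.merge_refs (β : ι → κ) : ∀ {k : ℕ} (P : Prog ι (fun _ => Bool) k),
    (P.merge β).refs = P.refs
  | _, .nil => rfl
  | _, .snoc P φ => by
    simp only [merge, refs]
    rw [Prog.merge_refs β P, Fm.merge_refs]

variable {Ω : Type} [Fintype Ω]

theorem Computes.merge (β : ι → κ) (f : (ι → Bool) → Prop) (μ : Ω → ℝ)
    (C : Ω → Circuit ι (fun _ => Bool)) (hC : Computes μ C f) :
    Computes μ (fun ω => (C ω).merge β) fun x => f (fun e => x (β e) ⟨e, rfl⟩) where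
  nonneg := hC.nonneg
  sum_one := hC.sum_one
  error x E hE := by
    refine hC.error (fun e => x (β e) ⟨e, rfl⟩) E fun ω hω => ?_
    have h := hE ω hω
    unfold Circuit.eval Circuit.merge at h
    rw [Prog.merge_eval] at h
    exact h

theorem mean_nonneg' (μ : Ω → ℝ) (hμ : ∀ ω, 0 ≤ μ ω) (a : Ω → ℕ) : 0 ≤ mean μ a :=
  sum_nonneg fun ω _ => mul_nonneg (hμ ω) (Nat.cast_nonneg _)

/-- The lower bound for functions of bits which are divided into blocks: if each block in `B` can
query the bits of a string over `T`, then there is much sharing or there are many leaves. -/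
theorem merge_lower [DecidableEq κ] {T : Type} [Fintype T] (β : ι → κ) (f : (ι → Bool) → Prop)
    (B : Finset κ) (hT : 100 ≤ Fintype.card T)
    (q : ∀ i : κ, T → Blk β i) (R : κ → (T → Bool) → ∀ i, Blk β i)
    (hf : ∀ i ∈ B, ∀ t z, f (fun e => Function.update (R i z) i (q i t) (β e) ⟨e, rfl⟩) ↔
      z t = true)
    (μ : Ω → ℝ) (C : Ω → Circuit ι (fun _ => Bool)) (hC : Computes μ C f) :
    (Fintype.card T : ℝ) / 120 ≤ mean μ (fun ω => (C ω).refs) + mean μ (fun ω => (C ω).shared) ∨
      (Fintype.card T : ℝ) / 120 * B.card ≤ mean μ (fun ω => (C ω).leaves) := by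
  rw [or_iff_not_imp_left]
  intro hcon
  push Not at hcon
  have hC' := hC.merge β
  have e1 : mean μ (fun ω => ((C ω).merge β).refs) = mean μ (fun ω => (C ω).refs) := by
    unfold mean
    refine sum_congr rfl fun ω _ => ?_
    beta_reduce
    rw [show ((C ω).merge β).refs = (C ω).refs from Prog.merge_refs _ _]
  have e2 : mean μ (fun ω => ((C ω).merge β).leaves) = mean μ (fun ω => (C ω).leaves) := by
    unfold mean
    refine sum_congr rfl fun ω _ => ?_
    beta_reduce
    rw [show ((C ω).merge β).leaves = (C ω).leaves from Prog.merge_leaves _ _]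
  have e3 : mean μ (fun ω => ((C ω).merge β).shared) = mean μ (fun ω => (C ω).shared) := rfl
  have h0 : (100 : ℝ) ≤ Fintype.card T := by exact_mod_cast hT
  have h1 := leaves_lower μ hC.nonneg (fun ω => (C ω).merge β) B
    (4 * (Fintype.card T / 120)) fun i hi => by
      have h := reads_lower μ (fun ω => (C ω).merge β) _ hC' i (q i) (R i)
        (fun t z => hf i hi t z)
      rw [e1, e3] at h
      have a3 := mean_nonneg' μ hC.nonneg (fun ω => (C ω).shared)
      linarith
  rw [e2] at h1
  linarith

end Pool.Agent.TH272.Nec
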