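import Pool.Agent.TH272.Nec.Graph
import Pool.Agent.TH272.Nec.Merge
import Pool.Agent.TH272.Nec.LocalDefs

set_option autoImplicit false

/-! # A lower bound for random circuits with local sharing -/

namespace Pool.Agent.TH272.Nec

open Finset Pool.Agent.TH697.Form

variable {ι : Type} {D : ι → Type} [DecidableEq ι]

namespace Fm

variable {k : ℕ}

/-- The number of references to bits that depend on item `i`. -/
def refsTo (V : Fin k → Finset ι) (i : ι) : Fm ι D k → ℕ
  | leaf _ _ => 0
  | ref j => if i ∈ V j then 1 else 0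
  | gate _ a b => a.refsTo V i + b.refsTo V i

theorem mem_items_iff (V : Fin k → Finset ι) (i : ι) (φ : Fm ι D k) :
    i ∈ φ.items V ↔ φ.reads i + φ.refsTo V i ≠ 0 := by
  induction φ with
  | leaf j p =>
    simp only [items, reads, refsTo, mem_singleton, add_zero]
    by_cases h : j = i
    · simp [h]
    · simp [h, Ne.symm h]
  | ref j =>
    simp only [items, reads, refsTo]
    by_cases hj : i ∈ V j <;> simp [hj]
  | gate g a b iha ihb =>
    simp only [items, reads, refsTo, mem_union, iha, ihb]
    omega

theorem eval_const (V : Fin k → Finset ι) (i : ι) (φ : Fm ι D k)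
    (h : φ.reads i + φ.refsTo V i = 0) (x : ∀ i, D i) (d : D i) (v v' : Fin k → Bool)
    (hv : ∀ j, i ∉ V j → v j = v' j) :
    φ.eval (Function.update x i d) v = φ.eval x v' := by
  induction φ with
  | leaf j p =>
    have hj : j ≠ i := by
      intro hj
      simp [reads, hj] at h
    simp only [eval]
    rw [Function.update_of_ne hj]
  | ref j =>
    have hj : i ∉ V j := by
      intro hj
      simp [reads, refsTo, hj] at h
    exact hv j hj
  | gate g a b iha ihb =>
    simp only [reads, refsTo] at h
    simp only [eval]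
    rw [iha (by omega), ihb (by omega)]

theorem sum_refsTo_le (s : Finset ι) (V : Fin k → Finset ι) (d : ℕ)
    (hV : ∀ j, (s ∩ V j).card ≤ d) (φ : Fm ι D k) :
    ∑ i ∈ s, φ.refsTo V i ≤ d * φ.refs := by
  induction φ with
  | leaf j p => simp [refsTo]
  | ref j =>
    simp only [refsTo, refs]
    rw [← card_filter, mul_one, filter_mem_eq_inter]
    exact hV j
  | gate g a b iha ihb =>
    simp only [refsTo, refs, sum_add_distrib]
    rw [mul_add]
    omega

open Classical in
/-- Few subfunctions. -/
theorem subfunctions_pos (V : Fin k → Finset ι) (i : ι) (f : D i → Fin k → Bool)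
    (φ : Fm ι D k) (h : 1 ≤ φ.reads i + φ.refsTo V i) :
    ∃ S : Finset (D i → Bool),
      S.card ≤ 4 ^ (2 * (φ.reads i + φ.refsTo V i) - 1) ∧
      ∀ (x : ∀ i, D i) (v : Fin k → Bool) (u : Bool → Bool),
        (fun d => u (φ.eval (Function.update x i d)
          (fun j => if i ∈ V j then f d j else v j))) ∈ S := by
  induction φ with
  | leaf j p =>
    by_cases hj : j = i
    · subst hj
      refine ⟨(univ : Finset (Bool → Bool)).image (fun u => fun d => u (p d)), ?_, ?_⟩
      · refine card_image_le.trans ?_
        have e1 : (univ : Finset (Bool → Bool)).card = 4 := by simp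
        rw [e1]
        simp [reads, refsTo]
      · intro x v u
        rw [mem_image]
        refine ⟨u, mem_univ _, ?_⟩
        funext d
        simp [eval]
    · simp [reads, refsTo, hj] at h
  | ref j =>
    have hj : i ∈ V j := by
      by_contra hj
      simp [reads, refsTo, hj] at h
    refine ⟨(univ : Finset (Bool → Bool)).image (fun u => fun d => u (f d j)), ?_, ?_⟩
    · refine card_image_le.trans ?_
      have e1 : (univ : Finset (Bool → Bool)).card = 4 := by simp
      rw [e1]
      simp [reads, refsTo, hj]
    · intro x v u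
      rw [mem_image]
      refine ⟨u, mem_univ _, ?_⟩
      funext d
      simp [eval, hj]
  | gate g a b iha ihb =>
    simp only [reads, refsTo] at h
    by_cases ha : a.reads i + a.refsTo V i = 0
    · obtain ⟨S, h1, h2⟩ := ihb (by omega)
      have ha1 : a.reads i = 0 := by omega
      have ha2 : a.refsTo V i = 0 := by omega
      refine ⟨S, by simpa [reads, refsTo, ha1, ha2] using h1, fun x v u => ?_⟩
      have h3 := h2 x v (fun y => u (g (a.eval x v) y))
      have h4 : ∀ d, a.eval (Function.update x i d) (fun j => if i ∈ V j then f d j else v j) =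
          a.eval x v := fun d => eval_const V i a ha x d _ _ fun j hj => by simp [hj]
      simp only [eval, h4]
      exact h3
    by_cases hb : b.reads i + b.refsTo V i = 0
    · obtain ⟨S, h1, h2⟩ := iha (by omega)
      have hb1 : b.reads i = 0 := by omega
      have hb2 : b.refsTo V i = 0 := by omega
      refine ⟨S, by simpa [reads, refsTo, hb1, hb2] using h1, fun x v u => ?_⟩
      have h3 := h2 x v (fun y => u (g y (b.eval x v)))
      have h4 : ∀ d, b.eval (Function.update x i d) (fun j => if i ∈ V j then f d j else v j) =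
          b.eval x v := fun d => eval_const V i b hb x d _ _ fun j hj => by simp [hj]
      simp only [eval, h4]
      exact h3
    obtain ⟨S1, h1, h2⟩ := iha (by omega)
    obtain ⟨S2, h3, h4⟩ := ihb (by omega)
    refine ⟨((univ : Finset (Bool → Bool)) ×ˢ S1 ×ˢ S2).image
      (fun p => fun y => p.1 (g (p.2.1 y) (p.2.2 y))), ?_, fun x v u => ?_⟩
    · refine card_image_le.trans ?_
      rw [card_product, card_product]
      have e1 : (univ : Finset (Bool → Bool)).card = 4 := by simp
      rw [e1]
      calc 4 * (S1.card * S2.card)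
          ≤ 4 * (4 ^ (2 * (a.reads i + a.refsTo V i) - 1) *
              4 ^ (2 * (b.reads i + b.refsTo V i) - 1)) :=
            Nat.mul_le_mul_left _ (Nat.mul_le_mul h1 h3)
        _ = 4 ^ (2 * ((Fm.gate g a b).reads i + (Fm.gate g a b).refsTo V i) - 1) := by
            rw [← pow_add, ← pow_succ']
            congr 1
            simp only [reads, refsTo]
            omega
    · rw [mem_image]
      refine ⟨(u, fun d => a.eval (Function.update x i d) (fun j => if i ∈ V j then f d j else v j),
        fun d => b.eval (Function.update x i d) (fun j => if i ∈ V j then f d j else v j)), ?_, rfl⟩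
      rw [mem_product, mem_product]
      exact ⟨mem_univ _, h2 x v id, h4 x v id⟩

open Classical in
theorem subfunctions' (V : Fin k → Finset ι) (i : ι) (f : D i → Fin k → Bool) (φ : Fm ι D k) :
    ∃ S : Finset (D i → Bool), S.card ≤ 2 * 16 ^ (φ.reads i + φ.refsTo V i) ∧
      ∀ (x : ∀ i, D i) (v : Fin k → Bool),
        (fun d => φ.eval (Function.update x i d) (fun j => if i ∈ V j then f d j else v j)) ∈ S := by
  by_cases h : φ.reads i + φ.refsTo V i = 0
  · refine ⟨(univ : Finset Bool).image (fun c => fun _ => c), ?_, fun x v => ?_⟩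
    · refine card_image_le.trans ?_
      simp [h]
    · rw [mem_image]
      refine ⟨φ.eval x v, mem_univ _, ?_⟩
      funext d
      exact (eval_const V i φ h x d _ _ fun j hj => by simp [hj]).symm
  · obtain ⟨S, h1, h2⟩ := subfunctions_pos V i f φ (by omega)
    refine ⟨S, h1.trans ?_, fun x v => h2 x v id⟩
    calc 4 ^ (2 * (φ.reads i + φ.refsTo V i) - 1) ≤ 4 ^ (2 * (φ.reads i + φ.refsTo V i)) :=
          Nat.pow_le_pow_right (by norm_num) (by omega)
      _ = 16 ^ (φ.reads i + φ.refsTo V i) := by rw [pow_mul]; norm_num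
      _ ≤ 2 * 16 ^ (φ.reads i + φ.refsTo V i) := by omega

end Fm

namespace Prog

/-- The number of references to formulas that depend on item `i`. -/
def refsTo (i : ι) : {k : ℕ} → Prog ι D k → ℕ
  | _, nil => 0
  | _, snoc P φ => P.refsTo i + φ.refsTo P.items i

/-- The number of formulas that depend on item `i`. -/
def count (i : ι) : {k : ℕ} → Prog ι D k → ℕ
  | _, nil => 0
  | _, snoc P φ => P.count i + if i ∈ φ.items P.items then 1 else 0

theorem sum_refsTo_le (s : Finset ι) (d : ℕ) : ∀ {k : ℕ} (P : Prog ι D (k + 1)),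
    (∀ j : Fin k, (s ∩ P.items j.castSucc).card ≤ d) → ∑ i ∈ s, P.refsTo i ≤ d * P.refs
  | 0, snoc nil φ, _ => by
    simp only [refsTo, refs, zero_add]
    exact Fm.sum_refsTo_le s _ d (fun j => j.elim0) φ
  | k + 1, snoc P φ, h => by
    have h1 : ∀ j, (s ∩ P.items j).card ≤ d := by
      intro j
      have := h j
      simpa [items] using this
    have h2 := sum_refsTo_le s d P fun j => h1 j.castSucc
    have h3 := Fm.sum_refsTo_le s _ d h1 φ
    simp only [refsTo, refs, sum_add_distrib, mul_add] at h2 h3 ⊢
    exact Nat.add_le_add h2 h3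

theorem sum_count_le' (s : Finset ι) (d : ℕ) : ∀ {k : ℕ} (P : Prog ι D k),
    (∀ j : Fin k, (s ∩ P.items j).card ≤ d) → ∑ i ∈ s, P.count i ≤ d * k
  | _, nil, _ => by simp [count]
  | k + 1, snoc P φ, h => by
    have h1 : ∀ j, (s ∩ P.items j).card ≤ d := by
      intro j
      have := h j.castSucc
      simpa [items] using this
    have h2 : (s ∩ φ.items P.items).card ≤ d := by
      have := h (Fin.last k)
      simpa [items] using this
    have h3 : ∑ i ∈ s, (if i ∈ φ.items P.items then 1 else 0) ≤ d := by
      rw [← card_filter, filter_mem_eq_inter]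
      exact h2
    simp only [count, sum_add_distrib, mul_add, mul_one]
    exact Nat.add_le_add (sum_count_le' s d P h1) h3

theorem sum_count_le (s : Finset ι) (d : ℕ) {k : ℕ} (P : Prog ι D (k + 1))
    (h : ∀ j : Fin k, (s ∩ P.items j.castSucc).card ≤ d) :
    ∑ i ∈ s, P.count i ≤ d * k + s.card := by
  cases P with
  | snoc P φ =>
    have h1 : ∀ j, (s ∩ P.items j).card ≤ d := by
      intro j
      have := h j
      simpa [items] using this
    have h2 := sum_count_le' s d P h1
    have h3 : ∑ i ∈ s, (if i ∈ φ.items P.items then 1 else 0) ≤ s.card := by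
      rw [← card_filter]
      exact card_filter_le _ _
    simp only [count, sum_add_distrib]
    exact Nat.add_le_add h2 h3

theorem eval_const (i : ι) : ∀ {k : ℕ} (P : Prog ι D k) (j : Fin k) (_ : i ∉ P.items j)
    (x : ∀ i, D i) (d : D i), P.eval (Function.update x i d) j = P.eval x j
  | _, nil, j, _, _, _ => j.elim0
  | k + 1, snoc P φ, j, h, x, d => by
    revert h
    refine Fin.lastCases ?_ (fun j => ?_) j
    · intro h
      have h' : i ∉ φ.items P.items := by simpa [items] using h
      rw [Fm.mem_items_iff, not_not] at h'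
      simp only [eval, Fin.snoc_last]
      exact Fm.eval_const P.items i φ h' x d _ _ fun j hj => eval_const i P j hj x d
    · intro h
      have h' : i ∉ P.items j := by simpa [items] using h
      simp only [eval, Fin.snoc_castSucc]
      exact eval_const i P j h' x d

open Classical in
theorem subfunctions' (i : ι) : ∀ {k : ℕ} (P : Prog ι D k),
    ∃ S : Finset (D i → Fin k → Bool),
      S.card ≤ 2 ^ P.count i * 16 ^ (P.reads i + P.refsTo i) ∧
      ∀ x : ∀ i, D i,
        (fun d j => if i ∈ P.items j then P.eval (Function.update x i d) j else false) ∈ S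
  | _, nil => by
    refine ⟨{fun _ => Fin.elim0}, by simp [reads, refsTo, count], fun x => ?_⟩
    rw [mem_singleton]
    funext d j
    exact j.elim0
  | k + 1, snoc P φ => by
    obtain ⟨S, hS, hm⟩ := subfunctions' i P
    by_cases hb : i ∈ φ.items P.items
    · choose T hT hT2 using fun f : D i → Fin k → Bool => Fm.subfunctions' P.items i f φ
      refine ⟨S.biUnion fun f => (T f).image fun g => fun d => (Fin.snoc (f d) (g d) :
        Fin (k + 1) → Bool), ?_, fun x => ?_⟩
      · refine card_biUnion_le.trans ?_
        calc ∑ f ∈ S, ((T f).image fun g => fun d => (Fin.snoc (f d) (g d) :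
              Fin (k + 1) → Bool)).card
            ≤ ∑ f ∈ S, 2 * 16 ^ (φ.reads i + φ.refsTo P.items i) :=
              sum_le_sum fun f _ => card_image_le.trans (hT f)
          _ = S.card * (2 * 16 ^ (φ.reads i + φ.refsTo P.items i)) := by
              rw [sum_const, smul_eq_mul]
          _ ≤ (2 ^ P.count i * 16 ^ (P.reads i + P.refsTo i)) *
                (2 * 16 ^ (φ.reads i + φ.refsTo P.items i)) :=
              Nat.mul_le_mul_right _ hS
          _ = 2 ^ (snoc P φ).count i * 16 ^ ((snoc P φ).reads i + (snoc P φ).refsTo i) := by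
              simp only [reads, refsTo, count, if_pos hb]
              ring
      · rw [mem_biUnion]
        refine ⟨_, hm x, ?_⟩
        rw [mem_image]
        refine ⟨_, hT2 (fun d j => if i ∈ P.items j then
          P.eval (Function.update x i d) j else false) x (P.eval x), ?_⟩
        funext d j
        have h1 : (fun j => if i ∈ P.items j then
            (if i ∈ P.items j then P.eval (Function.update x i d) j else false) else
              P.eval x j) = P.eval (Function.update x i d) := by
          funext j
          by_cases hj : i ∈ P.items j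
          · simp [hj]
          · simp only [hj, if_false]
            exact (eval_const i P j hj x d).symm
        refine Fin.lastCases ?_ (fun j => ?_) j
        · simp only [Fin.snoc_last, items, eval, hb, if_true]
          rw [h1]
        · simp only [Fin.snoc_castSucc, items, eval]
    · refine ⟨S.image fun f => fun d => (Fin.snoc (f d) false : Fin (k + 1) → Bool), ?_,
        fun x => ?_⟩
      · refine card_image_le.trans (hS.trans (le_of_eq ?_))
        have h1 := (Fm.mem_items_iff P.items i φ).not.1 hb
        rw [not_not] at h1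
        have h2 : φ.reads i = 0 := by omega
        have h3 : φ.refsTo P.items i = 0 := by omega
        simp only [reads, refsTo, count, if_neg hb, h2, h3, add_zero]
      · rw [mem_image]
        refine ⟨_, hm x, ?_⟩
        funext d j
        refine Fin.lastCases ?_ (fun j => ?_) j
        · simp only [Fin.snoc_last, items, hb, if_false]
        · simp only [Fin.snoc_castSucc, items, eval]

end Prog

open Classical in
theorem Circuit.subfunctions (i : ι) (C : Circuit ι D) :
    ∃ S : Finset (D i → Bool),
      S.card ≤ 2 ^ (C.prog.count i + 1) * 16 ^ (C.prog.reads i + C.prog.refsTo i) ∧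
      ∀ x : ∀ i, D i, (fun d => C.eval (Function.update x i d)) ∈ S := by
  obtain ⟨S, hS, hm⟩ := Prog.subfunctions' i C.prog
  by_cases hi : i ∈ C.prog.items (Fin.last _)
  · refine ⟨S.image fun h d => h d (Fin.last _), ?_, fun x => ?_⟩
    · refine card_image_le.trans (hS.trans (Nat.mul_le_mul_right _ ?_))
      exact Nat.pow_le_pow_right (by norm_num) (by omega)
    · rw [mem_image]
      refine ⟨_, hm x, ?_⟩
      funext d
      simp only [hi, if_true]
      rfl
  · refine ⟨(univ : Finset Bool).image (fun c => fun _ => c), ?_, fun x => ?_⟩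
    · refine card_image_le.trans ?_
      rw [card_univ, Fintype.card_bool, pow_succ]
      have h1 : 1 ≤ 2 ^ C.prog.count i := Nat.one_le_two_pow
      have h2 : 1 ≤ 16 ^ (C.prog.reads i + C.prog.refsTo i) := Nat.one_le_pow _ _ (by norm_num)
      nlinarith
    · rw [mem_image]
      refine ⟨C.eval x, mem_univ _, ?_⟩
      funext d
      exact (Prog.eval_const i C.prog _ hi x d).symm

section

variable {T : Type} [Fintype T] {Ω : Type} [Fintype Ω]

open Classical in
/-- If the bits of a string `z` which is encoded in the other items can be queried by item `i`,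
then a random circuit reads item `i` in many leaves, or there are many references to gates that
depend on item `i`. -/
theorem reads_lower' (μ : Ω → ℝ) (C : Ω → Circuit ι D)
    (f : (∀ i, D i) → Prop) (hF : Computes μ C f) (i : ι)
    (q : T → D i) (R : (T → Bool) → ∀ i, D i)
    (hf : ∀ t z, f (Function.update (R z) i (q t)) ↔ z t = true) :
    (49 / 600 : ℝ) * Fintype.card T ≤
      4 * mean μ (fun ω => (C ω).prog.reads i) + 4 * mean μ (fun ω => (C ω).prog.refsTo i) +
        mean μ (fun ω => (C ω).prog.count i) + 1 := by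
  obtain ⟨N, hN⟩ : ∃ N, N = Fintype.card T := ⟨_, rfl⟩
  obtain ⟨E, hE⟩ : ∃ E : Ω → ℝ, E = fun ω => (∑ z : T → Bool,
      ((univ.filter (fun t => (C ω).eval (Function.update (R z) i (q t)) ≠ z t)).card : ℝ)) /
        2 ^ Fintype.card T := ⟨_, rfl⟩
  have h1 : ∀ ω, (415 / 1000 : ℝ) * N - E ω ≤
      4 * (((C ω).prog.reads i : ℝ) + ((C ω).prog.refsTo i : ℝ)) +
        ((C ω).prog.count i + 1) := by
    intro ω
    obtain ⟨S, hS1, hS2⟩ := Circuit.subfunctions i (C ω)
    have hne : 1 ≤ S.card := card_pos.2 ⟨_, hS2 (R (fun _ => false))⟩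
    have hc := coding (fun _ => 0) (fun t _ => q t) (fun _ _ _ _ => rfl) S hne
      (fun z => fun d => (C ω).eval (Function.update (R z) i d)) (fun z => hS2 (R z))
    have h2 : Real.log S.card ≤ Real.log 2 *
        (4 * (((C ω).prog.reads i : ℝ) + ((C ω).prog.refsTo i : ℝ)) +
          ((C ω).prog.count i + 1)) := by
      have h3 : (S.card : ℝ) ≤
          2 ^ ((C ω).prog.count i + 1) * 16 ^ ((C ω).prog.reads i + (C ω).prog.refsTo i) := by
        exact_mod_cast hS1
      have h4 := Real.log_le_log (by exact_mod_cast hne) h3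
      rw [Real.log_mul (by positivity) (by positivity), Real.log_pow, Real.log_pow,
        show (16 : ℝ) = 2 ^ 4 by norm_num, Real.log_pow] at h4
      push_cast at h4
      linarith
    have h5 := log_43
    have h6 : (0 : ℝ) < Real.log 2 := Real.log_pos (by norm_num)
    have h7 : (0 : ℝ) ≤ N := Nat.cast_nonneg N
    have h8 : (N : ℝ) * Real.log (4 / 3) - Real.log 2 * E ω ≤ Real.log S.card := by
      rw [hN]
      simp only [hE]
      exact hc
    have h9 := mul_le_mul_of_nonneg_left h5 h7
    have h10 : Real.log 2 * ((415 / 1000 : ℝ) * N - E ω) ≤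
        Real.log 2 * (4 * (((C ω).prog.reads i : ℝ) + ((C ω).prog.refsTo i : ℝ)) +
          ((C ω).prog.count i + 1)) := by
      linarith
    exact le_of_mul_le_mul_left h10 h6
  have h2 : ∑ ω, μ ω * E ω ≤ N / 3 := by
    have e1 : ∑ ω, μ ω * E ω = (∑ z : T → Bool, ∑ t : T,
        ∑ ω ∈ univ.filter (fun ω => (C ω).eval (Function.update (R z) i (q t)) ≠ z t),
          μ ω) / 2 ^ N := by
      have e5 : ∀ ω, μ ω * E ω = ∑ z : T → Bool, μ ω * (((univ.filter (fun t =>
          (C ω).eval (Function.update (R z) i (q t)) ≠ z t)).card : ℝ) /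
            2 ^ Fintype.card T) := by
        intro ω
        simp only [hE]
        rw [sum_div, mul_sum]
      rw [sum_congr rfl (fun ω _ => e5 ω), sum_comm, sum_div]
      refine sum_congr rfl fun z _ => ?_
      have e4 : ∀ ω, μ ω * (((univ.filter (fun t => (C ω).eval (Function.update (R z) i (q t)) ≠
          z t)).card : ℝ) / 2 ^ Fintype.card T) = (∑ t : T,
          if (C ω).eval (Function.update (R z) i (q t)) ≠ z t then μ ω else 0) /
            2 ^ Fintype.card T := by
        intro ω
        rw [card_filter, Nat.cast_sum, ← mul_div_assoc, mul_sum]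
        congr 1
        refine sum_congr rfl fun t _ => ?_
        split_ifs <;> simp
      rw [sum_congr rfl (fun ω _ => e4 ω), ← sum_div, sum_comm, hN]
      congr 1
      refine sum_congr rfl fun t _ => ?_
      rw [sum_filter]
    rw [e1, div_le_iff₀ (by positivity)]
    calc _ ≤ ∑ _z : T → Bool, ∑ _t : T, (1 / 3 : ℝ) := by
          refine sum_le_sum fun z _ => sum_le_sum fun t _ =>
            hF.error (Function.update (R z) i (q t)) _ fun ω hω => ?_
          rw [mem_filter] at hω
          intro hcon
          apply hω.2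
          rw [hf] at hcon
          exact Bool.eq_iff_iff.2 hcon
      _ = N / 3 * 2 ^ N := by
          simp only [sum_const, card_univ, nsmul_eq_mul, Fintype.card_fun, Fintype.card_bool,
            ← hN]
          push_cast
          ring
  have h3 := sum_le_sum fun ω (_ : ω ∈ (univ : Finset Ω)) =>
    mul_le_mul_of_nonneg_left (h1 ω) (hF.nonneg ω)
  have e2 : ∑ ω, μ ω * ((415 / 1000 : ℝ) * N - E ω) = (415 / 1000 : ℝ) * N - ∑ ω, μ ω * E ω := by
    simp_rw [mul_sub]
    rw [sum_sub_distrib, ← sum_mul, hF.sum_one, one_mul]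
  have e3 : ∑ ω, μ ω * (4 * (((C ω).prog.reads i : ℝ) + ((C ω).prog.refsTo i : ℝ)) +
      ((C ω).prog.count i + 1)) =
      4 * mean μ (fun ω => (C ω).prog.reads i) + 4 * mean μ (fun ω => (C ω).prog.refsTo i) +
        mean μ (fun ω => (C ω).prog.count i) + 1 := by
    have e6 : ∀ ω, μ ω * (4 * (((C ω).prog.reads i : ℝ) + ((C ω).prog.refsTo i : ℝ)) +
      ((C ω).prog.count i + 1)) = 4 * (μ ω * ((C ω).prog.reads i : ℝ)) +
        4 * (μ ω * ((C ω).prog.refsTo i : ℝ)) + μ ω * ((C ω).prog.count i : ℝ) + μ ω :=
      fun ω => by ring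
    rw [sum_congr rfl (fun ω _ => e6 ω), sum_add_distrib, sum_add_distrib, sum_add_distrib,
      hF.sum_one, ← mul_sum, ← mul_sum]
    rfl
  rw [e2, e3] at h3
  rw [← hN]
  linarith

/-- The lower bound for circuits with local sharing. -/
theorem local_lower (μ : Ω → ℝ) (hμ : ∀ ω, 0 ≤ μ ω) (hμ1 : ∑ ω, μ ω = 1) (C : Ω → Circuit ι D)
    (s : Finset ι) (d : ℕ)
    (hC : ∀ ω, (C ω).IsLocalOn s d) (c : ℝ)
    (h : ∀ i ∈ s, c + 2 ≤ 4 * mean μ (fun ω => (C ω).prog.reads i) +
      4 * mean μ (fun ω => (C ω).prog.refsTo i) + mean μ (fun ω => (C ω).prog.count i) + 1) :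
    s.card * c ≤ 4 * (mean μ (fun ω => (C ω).leaves) +
      d * (mean μ (fun ω => (C ω).refs) + mean μ (fun ω => (C ω).shared))) := by
  have h1 : ∑ _i ∈ s, (c + 1) ≤ ∑ i ∈ s, (4 * mean μ (fun ω => (C ω).prog.reads i) +
      4 * mean μ (fun ω => (C ω).prog.refsTo i) + mean μ (fun ω => (C ω).prog.count i)) :=
    sum_le_sum fun i hi => by linarith [h i hi]
  rw [sum_const, nsmul_eq_mul, sum_add_distrib, sum_add_distrib, ← mul_sum, ← mul_sum] at h1
  have h2 : ∑ i ∈ s, mean μ (fun ω => (C ω).prog.reads i) ≤ mean μ (fun ω => (C ω).leaves) := by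
    unfold mean
    rw [sum_comm]
    refine sum_le_sum fun ω _ => ?_
    rw [← mul_sum]
    refine mul_le_mul_of_nonneg_left ?_ (hμ ω)
    exact_mod_cast Prog.sum_reads_le s (C ω).prog
  have h3 : ∑ i ∈ s, mean μ (fun ω => (C ω).prog.refsTo i) ≤
      d * mean μ (fun ω => (C ω).refs) := by
    unfold mean
    rw [sum_comm, mul_sum]
    refine sum_le_sum fun ω _ => ?_
    rw [← mul_sum, ← mul_assoc, mul_comm (d : ℝ), mul_assoc]
    refine mul_le_mul_of_nonneg_left ?_ (hμ ω)
    exact_mod_cast Prog.sum_refsTo_le s d (C ω).prog (hC ω)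
  have h4 : ∑ i ∈ s, mean μ (fun ω => (C ω).prog.count i) ≤
      d * mean μ (fun ω => (C ω).shared) + s.card := by
    have e1 : d * mean μ (fun ω => (C ω).shared) + s.card =
        ∑ ω, μ ω * (d * ((C ω).shared : ℝ) + s.card) := by
      unfold mean
      simp_rw [mul_add]
      rw [sum_add_distrib, ← sum_mul, hμ1, one_mul, mul_sum]
      congr 1
      exact sum_congr rfl fun ω _ => by ring
    rw [e1]
    unfold mean
    rw [sum_comm]
    refine sum_le_sum fun ω _ => ?_
    rw [← mul_sum]
    refine mul_le_mul_of_nonneg_left ?_ (hμ ω)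
    exact_mod_cast Prog.sum_count_le s d (C ω).prog (hC ω)
  have h5 : 0 ≤ (d : ℝ) * mean μ (fun ω => (C ω).shared) :=
    mul_nonneg (Nat.cast_nonneg d) (mean_nonneg μ hμ _)
  linarith

end

end Pool.Agent.TH272.Nec
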