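import Pool.Agent.TH272.Nec.Isa
import Pool.Agent.TH272.Nec.Local

set_option autoImplicit false

/-! # Circuits with local sharing for indirect storage access -/

namespace Pool.Agent.TH272.Nec

open Finset

section

variable {ι κ : Type} [DecidableEq ι] [DecidableEq κ]

theorem Fm.merge_items (β : ι → κ) {k : ℕ} (V : Fin k → Finset ι)
    (φ : Fm ι (fun _ => Bool) k) :
    (φ.merge β).items (fun j => (V j).image β) = (φ.items V).image β := by
  induction φ with
  | leaf e p => simp [merge, items]
  | ref j => rfl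
  | gate g a b iha ihb => simp only [merge, items, iha, ihb, image_union]

theorem Prog.merge_items (β : ι → κ) : ∀ {k : ℕ} (P : Prog ι (fun _ => Bool) k),
    (P.merge β).items = fun j => (P.items j).image β
  | _, .nil => by
    funext j
    exact j.elim0
  | k + 1, .snoc P φ => by
    funext j
    simp only [merge, items]
    rw [Prog.merge_items β P, Fm.merge_items]
    refine Fin.lastCases ?_ (fun j => ?_) j
    · simp only [Fin.snoc_last]
    · simp only [Fin.snoc_castSucc]

variable {Ω : Type} [Fintype Ω]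

/-- The lower bound for functions of bits which are divided into blocks. -/
theorem merge_local {T : Type} [Fintype T] (β : ι → κ) (f : (ι → Bool) → Prop)
    (B : Finset κ) (hT : 105 ≤ Fintype.card T)
    (q : ∀ i : κ, T → Blk β i) (R : κ → (T → Bool) → ∀ i, Blk β i)
    (hf : ∀ i ∈ B, ∀ t z, f (fun e => Function.update (R i z) i (q i t) (β e) ⟨e, rfl⟩) ↔
      z t = true)
    (μ : Ω → ℝ) (C : Ω → Circuit ι (fun _ => Bool)) (hC : Computes μ C f) (d : ℕ)
    (hd : ∀ ω, (C ω).IsLocal d) :
    (Fintype.card T : ℝ) / 64 * B.card ≤ mean μ (fun ω => (C ω).leaves) +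
      (min d B.card : ℕ) * (mean μ (fun ω => (C ω).refs) + mean μ (fun ω => (C ω).shared)) := by
  have hC' := hC.merge β
  have e1 : mean μ (fun ω => ((C ω).merge β).refs) = mean μ (fun ω => (C ω).refs) := by
    unfold mean
    refine sum_congr rfl fun ω _ => ?_
    beta_reduce
    rw [show ((C ω).merge β).refs = (C ω).refs from Prog.merge_refs _ _]
  have e2 : mean μ (fun ω => ((C ω).merge β).leaves) = mean μ (fun ω => (C ω).leaves) := by
    unfold mean
    refine sum_congr rfl fun ω _ => ?_
    beta_reduce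
    rw [show ((C ω).merge β).leaves = (C ω).leaves from Prog.merge_leaves _ _]
  have e3 : mean μ (fun ω => ((C ω).merge β).shared) = mean μ (fun ω => (C ω).shared) := rfl
  have h0 : (105 : ℝ) ≤ Fintype.card T := by exact_mod_cast hT
  have h1 := local_lower μ hC.nonneg hC.sum_one (fun ω => (C ω).merge β) B (min d B.card)
    (fun ω j => by
      have e4 : ((C ω).merge β).prog.items =
          fun j => ((C ω).prog.items j).image β := Prog.merge_items _ _
      rw [e4]
      exact le_min ((card_le_card inter_subset_right).trans (card_image_le.trans (hd ω j)))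
        (card_le_card inter_subset_left)) (Fintype.card T / 16) fun i hi => by
      have h := reads_lower' μ (fun ω => (C ω).merge β) _ hC' i (q i) (R i)
        (fun t z => hf i hi t z)
      linarith
  rw [e1, e2, e3] at h1
  linarith

end

namespace Isa

variable {q ℓ : ℕ}

theorem lower_local {Ω : Type} [Fintype Ω] (hℓ : 7 ≤ ℓ) (μ : Ω → ℝ)
    (C : Ω → Circuit (Bit q ℓ) (fun _ => Bool)) (hC : Computes μ C fun x => isa x = true)
    (d : ℕ) (hd : ∀ ω, (C ω).IsLocal d) :
    (2 : ℝ) ^ (q + ℓ) / 64 ≤ mean μ (fun ω => (C ω).leaves) +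
      min (d : ℝ) (2 ^ q) *
        (mean μ (fun ω => (C ω).refs) + mean μ (fun ω => (C ω).shared)) := by
  have hcard : Fintype.card (Fin ℓ → Bool) = 2 ^ ℓ := by simp
  have h105 : 105 ≤ Fintype.card (Fin ℓ → Bool) := by
    rw [hcard]
    calc 105 ≤ 2 ^ 7 := by norm_num
      _ ≤ 2 ^ ℓ := Nat.pow_le_pow_right (by norm_num) hℓ
  have h := merge_local (part (q := q) (ℓ := ℓ)) (fun x => isa x = true)
    (univ.map Function.Embedding.some) h105 query rest ?_ μ C hC d hd
  · rw [hcard, card_map, card_univ] at h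
    have h2 : Fintype.card (Fin q → Bool) = 2 ^ q := by simp
    rw [h2] at h
    push_cast at h
    rw [pow_add]
    linarith
  · intro i hi t z
    rw [mem_map] at hi
    obtain ⟨b, -, rfl⟩ := hi
    obtain ⟨X, hX⟩ : ∃ X : Bit q ℓ → Bool, X = fun e => Function.update (rest (some b) z) (some b)
      (query (some b) t) (part e) ⟨e, rfl⟩ := ⟨_, rfl⟩
    have h1 : ∀ (k : Option (Fin q → Bool)) (_ : k ≠ some b) (e : {e : Bit q ℓ // part e = k}),
        Function.update (rest (some b) z) (some b) (query (some b) t) k e =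
          rest (some b) z k e := by
      intro k hk e
      rw [Function.update_of_ne hk]
    have h2 : ∀ e : {e : Bit q ℓ // part e = some b},
        Function.update (rest (some b) z) (some b) (query (some b) t) (some b) e =
          query (some b) t e := by
      intro e
      rw [Function.update_self]
    have e1 : (fun i : Fin q => X (.addr i)) = b := by
      funext i
      rw [hX]
      exact h1 none (by simp) ⟨.addr i, rfl⟩
    have e2 : (fun j : Fin ℓ => X (.blk b j)) = t := by
      funext j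
      rw [hX]
      exact h2 ⟨.blk b j, rfl⟩
    have e3 : X (.cell t) = z t := by
      rw [hX]
      exact h1 none (by simp) ⟨.cell t, rfl⟩
    have key : isa X = true ↔ z t = true := by
      unfold isa
      rw [e1, e2, e3]
    rw [hX] at key
    exact key

end Isa

/-! ## programs of formulas without references -/

section

variable {ι : Type} {D : ι → Type}

theorem Fm.items_card_le [DecidableEq ι] {k : ℕ} (V : Fin k → Finset ι) (φ : Fm ι D k) (h : φ.refs = 0) :
    (φ.items V).card ≤ φ.leaves := by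
  induction φ with
  | leaf i p => simp [items, leaves]
  | ref j => simp [refs] at h
  | gate g a b iha ihb =>
    simp only [refs] at h
    simp only [items, leaves]
    exact (card_union_le _ _).trans (Nat.add_le_add (iha (by omega)) (ihb (by omega)))

/-- The program that consists of given formulas. -/
def Prog.ofFn : (K : ℕ) → (Fin K → ∀ k, Fm ι D k) → Prog ι D K
  | 0, _ => .nil
  | K + 1, F => .snoc (Prog.ofFn K fun j => F j.castSucc) (F (Fin.last K) K)

theorem Prog.ofFn_eval (x : ∀ i, D i) : ∀ (K : ℕ) (F : Fin K → ∀ k, Fm ι D k) (val : Fin K → Bool)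
    (_ : ∀ j k v, (F j k).eval x v = val j), (Prog.ofFn K F).eval x = val
  | 0, _, _, _ => by
    funext j
    exact j.elim0
  | K + 1, F, val, h => by
    funext j
    simp only [ofFn, eval]
    refine Fin.lastCases ?_ (fun j => ?_) j
    · rw [Fin.snoc_last, h]
    · rw [Fin.snoc_castSucc, Prog.ofFn_eval x K (fun j => F j.castSucc) (fun j => val j.castSucc)
        fun j k v => h _ _ _]

theorem Prog.ofFn_refs : ∀ (K : ℕ) (F : Fin K → ∀ k, Fm ι D k)
    (_ : ∀ j k, (F j k).refs = 0), (Prog.ofFn K F).refs = 0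
  | 0, _, _ => rfl
  | K + 1, F, h => by
    simp only [ofFn, refs]
    rw [Prog.ofFn_refs K _ fun j k => h _ _, h]

theorem Prog.ofFn_leaves (l : ℕ) : ∀ (K : ℕ) (F : Fin K → ∀ k, Fm ι D k)
    (_ : ∀ j k, (F j k).leaves ≤ l), (Prog.ofFn K F).leaves ≤ K * l
  | 0, _, _ => by simp [ofFn, leaves]
  | K + 1, F, h => by
    simp only [ofFn, leaves]
    have h1 := Prog.ofFn_leaves l K _ fun j k => h j.castSucc k
    have h2 := h (Fin.last K) K
    have h3 : (K + 1) * l = K * l + l := by ring
    omega

theorem Prog.ofFn_items [DecidableEq ι] (d : ℕ) : ∀ (K : ℕ) (F : Fin K → ∀ k, Fm ι D k)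
    (_ : ∀ j k V, ((F j k).items V).card ≤ d) (j : Fin K), ((Prog.ofFn K F).items j).card ≤ d
  | 0, _, _, j => j.elim0
  | K + 1, F, h, j => by
    simp only [ofFn, items]
    refine Fin.lastCases ?_ (fun j => ?_) j
    · rw [Fin.snoc_last]
      exact h _ _ _
    · rw [Fin.snoc_castSucc]
      exact Prog.ofFn_items d K (fun j => F j.castSucc) (fun j k V => h _ _ _) j

end

/-! ## the upper bound -/

namespace Isa

variable {p r ℓ k : ℕ}

/-- The formula for a bit of the block which is selected, by the last `p` bits of the address, among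
the blocks whose numbers begin with `g`. -/
def selBit (p r ℓ k : ℕ) (g : Fin r → Bool) (j : Fin ℓ) : Fm (Bit (r + p) ℓ) (fun _ => Bool) k :=
  mux p (fun i => .leaf (.addr (Fin.natAdd r i)) id) fun t => .leaf (.blk (Fin.append g t) j) id

theorem selBit_eval (g : Fin r → Bool) (j : Fin ℓ) (x : Bit (r + p) ℓ → Bool)
    (v : Fin k → Bool) : (selBit p r ℓ k g j).eval x v =
      x (.blk (Fin.append g fun i => x (.addr (Fin.natAdd r i))) j) := by
  unfold selBit
  rw [mux_eval]
  rfl

theorem selBit_leaves (g : Fin r → Bool) (j : Fin ℓ) :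
    (selBit p r ℓ k g j).leaves + 2 = 3 * 2 ^ p := by
  unfold selBit
  have := mux_leaves (D := fun _ => Bool) (k := k) p
    (fun i => .leaf (Bit.addr (ℓ := ℓ) (Fin.natAdd r i)) id)
    (fun t => .leaf (.blk (Fin.append g t) j) id) 1 1 (fun _ => rfl) (fun _ => rfl)
  omega

theorem selBit_refs (g : Fin r → Bool) (j : Fin ℓ) : (selBit p r ℓ k g j).refs = 0 := by
  unfold selBit
  have := mux_refs (D := fun _ => Bool) (k := k) p
    (fun i => .leaf (Bit.addr (ℓ := ℓ) (Fin.natAdd r i)) id)
    (fun t => .leaf (.blk (Fin.append g t) j) id) 0 0 (fun _ => rfl) (fun _ => rfl)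
  omega

/-- Circuits in which each shared gate depends on at most `3 * 2 ^ p - 2` bits. -/
theorem circuit_local (p r ℓ : ℕ) : ∃ C : Circuit (Bit (r + p) ℓ) (fun _ => Bool),
    (∀ x, C.eval x = isa x) ∧ C.IsLocal (3 * 2 ^ p - 2) ∧ C.shared = 2 ^ r * ℓ ∧
      C.refs ≤ 2 * 2 ^ (r + ℓ) ∧ C.leaves ≤ 3 * (ℓ * 2 ^ (r + p)) + 2 ^ (r + ℓ) + 2 * 2 ^ r := by
  obtain ⟨K, hK⟩ : ∃ K, K = 2 ^ r * ℓ := ⟨_, rfl⟩
  have hcard : Fintype.card ((Fin r → Bool) × Fin ℓ) = K := by
    rw [hK]
    simp
  obtain ⟨e⟩ : Nonempty ((Fin r → Bool) × Fin ℓ ≃ Fin K) :=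
    ⟨Fintype.equivFinOfCardEq hcard⟩
  obtain ⟨F, hF⟩ : ∃ F : Fin K → ∀ k, Fm (Bit (r + p) ℓ) (fun _ => Bool) k,
      F = fun m k => selBit p r ℓ k (e.symm m).1 (e.symm m).2 := ⟨_, rfl⟩
  obtain ⟨out, hout⟩ : ∃ out : Fm (Bit (r + p) ℓ) (fun _ => Bool) K,
      out = mux r (fun i => .leaf (.addr (Fin.castAdd p i)) id)
        (fun g => mux ℓ (fun j => .ref (e (g, j))) fun t => .leaf (.cell t) id) := ⟨_, rfl⟩
  refine ⟨⟨K, .snoc (Prog.ofFn K F) out⟩, fun x => ?_, fun j => ?_, hK, ?_, ?_⟩
  · unfold Circuit.eval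
    simp only [Prog.eval]
    rw [Fin.snoc_last]
    have h1 : (Prog.ofFn K F).eval x = fun m =>
        x (.blk (Fin.append (e.symm m).1 fun i => x (.addr (Fin.natAdd r i))) (e.symm m).2) :=
      Prog.ofFn_eval x K F _ fun m k v => by
        rw [hF]
        exact selBit_eval _ _ x v
    rw [h1, hout, mux_eval, mux_eval]
    unfold isa
    simp only [Fm.eval, id, Equiv.symm_apply_apply]
    congr 2
    funext j
    congr 2
    exact Fin.append_castAdd_natAdd (f := fun i => x (.addr i))
  · show ((Prog.items (.snoc (Prog.ofFn K F) out)) (Fin.castSucc j)).card ≤ _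
    simp only [Prog.items]
    rw [Fin.snoc_castSucc]
    refine Prog.ofFn_items _ K F (fun m k V => ?_) j
    rw [hF]
    exact (Fm.items_card_le V _ (selBit_refs _ _)).trans
      (Nat.le_sub_of_add_le (le_of_eq (selBit_leaves _ _)))
  · show (Prog.ofFn K F).refs + out.refs ≤ _
    rw [Prog.ofFn_refs K F fun m k => by rw [hF]; exact selBit_refs _ _, hout, zero_add]
    have h1 : ∀ g : Fin r → Bool, (mux ℓ (fun j => Fm.ref (e (g, j)))
        (fun t => .leaf (Bit.cell (q := r + p) t) id) : Fm (Bit (r + p) ℓ) (fun _ => Bool)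
          K).refs = 2 * 2 ^ ℓ - 2 := by
      intro g
      have := mux_refs (D := fun _ => Bool) (k := K) ℓ (fun j => .ref (e (g, j)))
        (fun t => .leaf (Bit.cell (q := r + p) t) id) 1 0 (fun _ => rfl) (fun _ => rfl)
      omega
    have h2 := mux_refs (D := fun _ => Bool) (k := K) r
      (fun i => .leaf (Bit.addr (ℓ := ℓ) (Fin.castAdd p i)) id)
      (fun g => mux ℓ (fun j => .ref (e (g, j))) fun t => .leaf (.cell t) id) 0
      (2 * 2 ^ ℓ - 2) (fun _ => rfl) h1
    rw [mul_zero, add_zero] at h2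
    rw [h2, pow_add]
    calc 2 ^ r * (2 * 2 ^ ℓ - 2 + 0) ≤ 2 ^ r * (2 * 2 ^ ℓ) := Nat.mul_le_mul_left _ (by omega)
      _ = _ := by ring
  · show (Prog.ofFn K F).leaves + out.leaves ≤ _
    have h0 := Prog.ofFn_leaves (3 * 2 ^ p) K F fun m k => by
      rw [hF]
      exact (Nat.le_add_right _ 2).trans (le_of_eq (selBit_leaves _ _))
    have h1 : ∀ g : Fin r → Bool, (mux ℓ (fun j => Fm.ref (e (g, j)))
        (fun t => .leaf (Bit.cell (q := r + p) t) id) : Fm (Bit (r + p) ℓ) (fun _ => Bool)
          K).leaves = 2 ^ ℓ := by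
      intro g
      have := mux_leaves (D := fun _ => Bool) (k := K) ℓ (fun j => .ref (e (g, j)))
        (fun t => .leaf (Bit.cell (q := r + p) t) id) 0 1 (fun _ => rfl) (fun _ => rfl)
      omega
    have h2 := mux_leaves (D := fun _ => Bool) (k := K) r
      (fun i => .leaf (Bit.addr (ℓ := ℓ) (Fin.castAdd p i)) id)
      (fun g => mux ℓ (fun j => .ref (e (g, j))) fun t => .leaf (.cell t) id) 1
      (2 ^ ℓ) (fun _ => rfl) h1
    rw [← hout] at h2
    have h3 : 2 ^ r * (2 ^ ℓ + 2 * 1) = 2 ^ (r + ℓ) + 2 * 2 ^ r := by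
      rw [pow_add]
      ring
    have h4 : K * (3 * 2 ^ p) = 3 * (ℓ * 2 ^ (r + p)) := by
      rw [hK, pow_add]
      ring
    omega

end Isa

end Pool.Agent.TH272.Nec
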