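import Pool.Agent.TH272.Nec.GraphLocal
import Pool.Agent.TH272.Nec.IsaLocal
import Pool.Agent.TH272.Nec.HeavyDefs

set_option autoImplicit false

/-! # A lower bound in terms of the shared gates that depend on many items -/

namespace Pool.Agent.TH272.Nec

open Finset

variable {ι κ : Type} [DecidableEq ι] [DecidableEq κ]

/-- The number of formulas that depend on more than `d` items. -/
def Prog.heavyCount {D : ι → Type} (d : ℕ) : {k : ℕ} → Prog ι D k → ℕ
  | _, .nil => 0
  | _, .snoc P φ => P.heavyCount d + if d < (φ.items P.items).card then 1 else 0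

theorem Prog.heavyCount_eq {D : ι → Type} (d : ℕ) : ∀ {k : ℕ} (P : Prog ι D k),
    P.heavyCount d = (univ.filter fun j : Fin k => d < (P.items j).card).card
  | _, .nil => rfl
  | k + 1, .snoc P φ => by
    rw [heavyCount, Prog.heavyCount_eq d P, card_filter, card_filter, Fin.sum_univ_castSucc]
    simp only [items, Fin.snoc_castSucc, Fin.snoc_last]

/-! ## circuits whose leaves read blocks -/

section

variable {D : ι → Type}

theorem Fm.sum_refsTo_heavy (s : Finset ι) {k : ℕ} (V : Fin k → Finset ι) (d : ℕ)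
    (φ : Fm ι D k) : ∑ i ∈ s, φ.refsTo V i ≤ d * φ.refs + s.card * φ.heavyRefs V d := by
  induction φ with
  | leaf j p => simp [refsTo]
  | ref j =>
    simp only [refsTo, refs, heavyRefs]
    rw [← card_filter, mul_one, filter_mem_eq_inter]
    split_ifs with h
    · have := card_le_card (inter_subset_left (s₁ := s) (s₂ := V j))
      omega
    · have := card_le_card (inter_subset_right (s₁ := s) (s₂ := V j))
      omega
  | gate g a b iha ihb =>
    simp only [refsTo, refs, heavyRefs, sum_add_distrib]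
    rw [mul_add, mul_add]
    omega

theorem Prog.sum_refsTo_heavy (s : Finset ι) (d : ℕ) : ∀ {k : ℕ} (P : Prog ι D k),
    ∑ i ∈ s, P.refsTo i ≤ d * P.refs + s.card * P.heavyRefs d
  | _, .nil => by simp [refsTo]
  | _, .snoc P φ => by
    have h1 := Prog.sum_refsTo_heavy s d P
    have h2 := Fm.sum_refsTo_heavy s P.items d φ
    simp only [refsTo, refs, heavyRefs, sum_add_distrib, mul_add] at h1 h2 ⊢
    omega

theorem Prog.sum_count_heavy (s : Finset ι) (d : ℕ) : ∀ {k : ℕ} (P : Prog ι D k),
    ∑ i ∈ s, P.count i ≤ d * k + s.card * P.heavyCount d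
  | _, .nil => by simp [count]
  | k + 1, .snoc P φ => by
    have h1 := Prog.sum_count_heavy s d P
    have h3 : ∑ i ∈ s, (if i ∈ φ.items P.items then 1 else 0) ≤
        d + s.card * (if d < (φ.items P.items).card then 1 else 0) := by
      rw [← card_filter, filter_mem_eq_inter]
      split_ifs with h
      · have := card_le_card (inter_subset_left (s₁ := s) (s₂ := φ.items P.items))
        omega
      · have := card_le_card (inter_subset_right (s₁ := s) (s₂ := φ.items P.items))
        omega
    simp only [count, heavyCount, sum_add_distrib, mul_add, mul_one]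
    omega

end

/-! ## circuits whose leaves read single bits -/

section

omit [DecidableEq ι] in
theorem Fm.sum_refsTo_merge (β : ι → κ) (s : Finset κ) {k : ℕ} (V : Fin k → Finset ι) (d : ℕ)
    (φ : Fm ι (fun _ => Bool) k) :
    ∑ i ∈ s, (φ.merge β).refsTo (fun j => (V j).image β) i ≤
      d * φ.refs + s.card * φ.heavyRefs V d := by
  induction φ with
  | leaf j p => simp [merge, refsTo]
  | ref j =>
    simp only [merge, refsTo, refs, heavyRefs]
    rw [← card_filter, mul_one, filter_mem_eq_inter]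
    split_ifs with h
    · have := card_le_card (inter_subset_left (s₁ := s) (s₂ := (V j).image β))
      omega
    · have h1 := card_le_card (inter_subset_right (s₁ := s) (s₂ := (V j).image β))
      have h2 := card_image_le (s := V j) (f := β)
      omega
  | gate g a b iha ihb =>
    simp only [merge, refsTo, refs, heavyRefs, sum_add_distrib]
    rw [mul_add, mul_add]
    omega

theorem Prog.sum_refsTo_merge (β : ι → κ) (s : Finset κ) (d : ℕ) : ∀ {k : ℕ}
    (P : Prog ι (fun _ => Bool) k),
    ∑ i ∈ s, (P.merge β).refsTo i ≤ d * P.refs + s.card * P.heavyRefs d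
  | _, .nil => by simp [merge, refsTo]
  | _, .snoc P φ => by
    have h1 := Prog.sum_refsTo_merge β s d P
    have h2 := Fm.sum_refsTo_merge β s P.items d φ
    simp only [merge, refsTo, refs, heavyRefs, sum_add_distrib, mul_add] at h1 h2 ⊢
    rw [Prog.merge_items]
    omega

theorem Prog.sum_count_merge (β : ι → κ) (s : Finset κ) (d : ℕ) : ∀ {k : ℕ}
    (P : Prog ι (fun _ => Bool) k),
    ∑ i ∈ s, (P.merge β).count i ≤ d * k + s.card * P.heavyCount d
  | _, .nil => by simp [merge, count]
  | k + 1, .snoc P φ => by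
    have h1 := Prog.sum_count_merge β s d P
    have h3 : ∑ i ∈ s, (if i ∈ (φ.merge β).items (P.merge β).items then 1 else 0) ≤
        d + s.card * (if d < (φ.items P.items).card then 1 else 0) := by
      rw [Prog.merge_items, Fm.merge_items, ← card_filter, filter_mem_eq_inter]
      split_ifs with h
      · have := card_le_card (inter_subset_left (s₁ := s) (s₂ := (φ.items P.items).image β))
        omega
      · have h4 := card_le_card (inter_subset_right (s₁ := s) (s₂ := (φ.items P.items).image β))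
        have h5 := card_image_le (s := φ.items P.items) (f := β)
        omega
    simp only [merge, count, heavyCount, sum_add_distrib, mul_add, mul_one]
    omega

end

theorem Prog.sum_count_last {D : ι → Type} (s : Finset ι) : ∀ {k : ℕ} (P : Prog ι D (k + 1))
    (Q : Prog ι D k) (_ : ∃ φ, P = .snoc Q φ), ∑ i ∈ s, P.count i ≤ ∑ i ∈ s, Q.count i + s.card
  | k, P, Q, ⟨φ, h⟩ => by
    subst h
    have h3 : ∑ i ∈ s, (if i ∈ φ.items Q.items then 1 else 0) ≤ s.card := by
      rw [← card_filter]
      exact card_filter_le _ _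
    simp only [count, sum_add_distrib]
    omega

theorem Circuit.heavyGates_eq {D : ι → Type} (d : ℕ) (k : ℕ) (Q : Prog ι D k) (φ : Fm ι D k) :
    Circuit.heavyGates d ⟨k, .snoc Q φ⟩ = Q.heavyCount d := by
  rw [Prog.heavyCount_eq]
  unfold Circuit.heavyGates
  congr 1
  ext j
  simp only [mem_filter, mem_univ, true_and, Prog.items, Fin.snoc_castSucc]

theorem Circuit.sum_count_heavy {D : ι → Type} (s : Finset ι) (d : ℕ) (C : Circuit ι D) :
    ∑ i ∈ s, C.prog.count i ≤ d * C.shared + s.card * C.heavyGates d + s.card := by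
  obtain ⟨k, P⟩ := C
  cases P with
  | snoc Q φ =>
    rw [Circuit.heavyGates_eq]
    have h1 := Prog.sum_count_last s (.snoc Q φ) Q ⟨φ, rfl⟩
    have h2 := Prog.sum_count_heavy s d Q
    simp only
    omega

theorem Circuit.sum_count_merge (β : ι → κ) (s : Finset κ) (d : ℕ)
    (C : Circuit ι (fun _ => Bool)) :
    ∑ i ∈ s, (C.merge β).prog.count i ≤ d * C.shared + s.card * C.heavyGates d + s.card := by
  obtain ⟨k, P⟩ := C
  cases P with
  | snoc Q φ =>
    rw [Circuit.heavyGates_eq]
    have h1 := Prog.sum_count_last s (.snoc (Q.merge β) (φ.merge β)) (Q.merge β) ⟨_, rfl⟩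
    have h2 := Prog.sum_count_merge β s d Q
    show ∑ i ∈ s, (Prog.snoc (Q.merge β) (φ.merge β)).count i ≤
      d * k + s.card * Q.heavyCount d + s.card
    omega

variable {Ω : Type} [Fintype Ω]

/-- The lower bound, with abstract bounds for the sums. -/
theorem sum_lower {D : κ → Type} (μ : Ω → ℝ) (hμ : ∀ ω, 0 ≤ μ ω) (hμ1 : ∑ ω, μ ω = 1)
    (C : Ω → Circuit κ D) (s : Finset κ) (d : ℕ) (hr hg : Ω → ℕ)
    (h2 : ∀ ω, ∑ i ∈ s, (C ω).prog.refsTo i ≤ d * (C ω).refs + s.card * hr ω)
    (h3 : ∀ ω, ∑ i ∈ s, (C ω).prog.count i ≤ d * (C ω).shared + s.card * hg ω + s.card) (c : ℝ)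
    (h : ∀ i ∈ s, c + 2 ≤ 4 * mean μ (fun ω => (C ω).prog.reads i) +
      4 * mean μ (fun ω => (C ω).prog.refsTo i) + mean μ (fun ω => (C ω).prog.count i) + 1) :
    s.card * c ≤ 4 * (mean μ (fun ω => (C ω).leaves) +
      d * (mean μ (fun ω => (C ω).refs) + mean μ (fun ω => (C ω).shared)) +
      s.card * (mean μ hr + mean μ hg)) := by
  have h1 : ∑ _i ∈ s, (c + 1) ≤ ∑ i ∈ s, (4 * mean μ (fun ω => (C ω).prog.reads i) +
      4 * mean μ (fun ω => (C ω).prog.refsTo i) + mean μ (fun ω => (C ω).prog.count i)) :=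
    sum_le_sum fun i hi => by linarith [h i hi]
  rw [sum_const, nsmul_eq_mul, sum_add_distrib, sum_add_distrib, ← mul_sum, ← mul_sum] at h1
  have k2 : ∑ i ∈ s, mean μ (fun ω => (C ω).prog.reads i) ≤ mean μ (fun ω => (C ω).leaves) := by
    unfold mean
    rw [sum_comm]
    refine sum_le_sum fun ω _ => ?_
    rw [← mul_sum]
    refine mul_le_mul_of_nonneg_left ?_ (hμ ω)
    exact_mod_cast Prog.sum_reads_le s (C ω).prog
  have k3 : ∑ i ∈ s, mean μ (fun ω => (C ω).prog.refsTo i) ≤
      d * mean μ (fun ω => (C ω).refs) + s.card * mean μ hr := by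
    have e1 : d * mean μ (fun ω => (C ω).refs) + s.card * mean μ hr =
        ∑ ω, μ ω * (d * ((C ω).refs : ℝ) + s.card * hr ω) := by
      unfold mean
      rw [mul_sum, mul_sum, ← sum_add_distrib]
      exact sum_congr rfl fun ω _ => by ring
    rw [e1]
    unfold mean
    rw [sum_comm]
    refine sum_le_sum fun ω _ => ?_
    rw [← mul_sum]
    refine mul_le_mul_of_nonneg_left ?_ (hμ ω)
    exact_mod_cast h2 ω
  have k4 : ∑ i ∈ s, mean μ (fun ω => (C ω).prog.count i) ≤
      d * mean μ (fun ω => (C ω).shared) + s.card * mean μ hg + s.card := by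
    have e1 : d * mean μ (fun ω => (C ω).shared) + s.card * mean μ hg + s.card =
        ∑ ω, μ ω * (d * ((C ω).shared : ℝ) + s.card * hg ω + s.card) := by
      unfold mean
      simp_rw [mul_add]
      rw [sum_add_distrib, sum_add_distrib, ← sum_mul, hμ1, one_mul, mul_sum, mul_sum]
      congr 1
      congr 1
      · exact sum_congr rfl fun ω _ => by ring
      · exact sum_congr rfl fun ω _ => by ring
    rw [e1]
    unfold mean
    rw [sum_comm]
    refine sum_le_sum fun ω _ => ?_
    rw [← mul_sum]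
    refine mul_le_mul_of_nonneg_left ?_ (hμ ω)
    exact_mod_cast h3 ω
  have h5 : 0 ≤ (d : ℝ) * mean μ (fun ω => (C ω).shared) :=
    mul_nonneg (Nat.cast_nonneg d) (mean_nonneg μ hμ _)
  have h6 : 0 ≤ (s.card : ℝ) * mean μ hg :=
    mul_nonneg (Nat.cast_nonneg _) (mean_nonneg μ hμ _)
  linarith

/-- The lower bound for functions of bits which are divided into blocks. -/
theorem merge_heavy {T : Type} [Fintype T] (β : ι → κ) (f : (ι → Bool) → Prop)
    (B : Finset κ) (hT : 105 ≤ Fintype.card T)
    (q : ∀ i : κ, T → Blk β i) (R : κ → (T → Bool) → ∀ i, Blk β i)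
    (hf : ∀ i ∈ B, ∀ t z, f (fun e => Function.update (R i z) i (q i t) (β e) ⟨e, rfl⟩) ↔
      z t = true)
    (μ : Ω → ℝ) (C : Ω → Circuit ι (fun _ => Bool)) (hC : Computes μ C f) (d : ℕ) :
    (Fintype.card T : ℝ) / 64 * B.card ≤ mean μ (fun ω => (C ω).leaves) +
      d * (mean μ (fun ω => (C ω).refs) + mean μ (fun ω => (C ω).shared)) +
      B.card * (mean μ (fun ω => (C ω).heavyRefs d) + mean μ (fun ω => (C ω).heavyGates d)) := by
  have hC' := hC.merge β
  have e1 : mean μ (fun ω => ((C ω).merge β).refs) = mean μ (fun ω => (C ω).refs) := by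
    unfold mean
    refine sum_congr rfl fun ω _ => ?_
    beta_reduce
    rw [show ((C ω).merge β).refs = (C ω).refs from Prog.merge_refs _ _]
  have e2 : mean μ (fun ω => ((C ω).merge β).leaves) = mean μ (fun ω => (C ω).leaves) := by
    unfold mean
    refine sum_congr rfl fun ω _ => ?_
    beta_reduce
    rw [show ((C ω).merge β).leaves = (C ω).leaves from Prog.merge_leaves _ _]
  have e3 : mean μ (fun ω => ((C ω).merge β).shared) = mean μ (fun ω => (C ω).shared) := rfl
  have h0 : (105 : ℝ) ≤ Fintype.card T := by exact_mod_cast hT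
  have h1 := sum_lower μ hC.nonneg hC.sum_one (fun ω => (C ω).merge β) B d
    (fun ω => (C ω).heavyRefs d) (fun ω => (C ω).heavyGates d)
    (fun ω => by
      have e4 : ((C ω).merge β).refs = (C ω).refs := Prog.merge_refs _ _
      rw [e4]
      exact Prog.sum_refsTo_merge β B d (C ω).prog)
    (fun ω => Circuit.sum_count_merge β B d (C ω)) (Fintype.card T / 16) fun i hi => by
      have h := reads_lower' μ (fun ω => (C ω).merge β) _ hC' i (q i) (R i)
        (fun t z => hf i hi t z)
      linarith
  rw [e1, e2, e3] at h1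
  linarith

/-! ## graphs -/

section

variable {n : ℕ}

omit [DecidableEq κ] in
theorem Fm.toBlocks_eq (block : Sym2 (Fin n) → κ) {k : ℕ}
    (φ : Fm (Sym2 (Fin n)) (fun _ => Bool) k) : φ.toBlocks block = φ.merge block := by
  induction φ with
  | leaf e p => rfl
  | ref j => rfl
  | gate g a b iha ihb => simp only [toBlocks, merge, iha, ihb]

omit [DecidableEq κ] in
theorem Prog.toBlocks_eq (block : Sym2 (Fin n) → κ) : ∀ {k : ℕ}
    (P : Prog (Sym2 (Fin n)) (fun _ => Bool) k), P.toBlocks block = P.merge block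
  | _, .nil => rfl
  | _, .snoc P φ => by
    simp only [toBlocks, merge]
    rw [Prog.toBlocks_eq block P, Fm.toBlocks_eq]

/-- The lower bound for circuits whose leaves read single pairs. -/
theorem single_heavy (hn : 2 ^ 11 ≤ n) (Q : SimpleGraph (Fin n) → Prop)
    (μ : Ω → ℝ) (C : Ω → Circuit (Sym2 (Fin n)) (fun _ => Bool))
    (hC : Computes μ C fun x => Q (SimpleGraph.fromEdgeSet {e | x e = true})) (d : ℕ)
    (c : ℝ) (hc : 0 ≤ c) (w : ℕ) (hw : 1 ≤ w) (hw2 : 8 * w ≤ n)
    (h : ∀ (κ : Type) [DecidableEq κ] (block : Sym2 (Fin n) → κ) (B : Finset κ),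
      (∀ i ∈ B, IsMatchingBlock block w i) → ∀ (C : Ω → Circuit κ (Item block)),
      (Computes μ C fun x => Q (graph block x)) → ∀ (d : ℕ) (hr hg : Ω → ℕ),
      (∀ ω, ∑ i ∈ B, (C ω).prog.refsTo i ≤ d * (C ω).refs + B.card * hr ω) →
      (∀ ω, ∑ i ∈ B, (C ω).prog.count i ≤ d * (C ω).shared + B.card * hg ω + B.card) →
      c * B.card ≤ mean μ (fun ω => (C ω).leaves) +
        d * (mean μ (fun ω => (C ω).refs) + mean μ (fun ω => (C ω).shared)) +
        B.card * (mean μ hr + mean μ hg)) :
    c * n ^ 2 ≤ 9 * w * (mean μ (fun ω => (C ω).leaves) +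
      d * (mean μ (fun ω => (C ω).refs) + mean μ (fun ω => (C ω).shared)) +
      n ^ 2 / (4 * w) *
        (mean μ (fun ω => (C ω).heavyRefs d) + mean μ (fun ω => (C ω).heavyGates d))) := by
  obtain ⟨hh, hhh⟩ : ∃ hh, hh = n / 2 := ⟨_, rfl⟩
  obtain ⟨q, hq⟩ : ∃ q, q = hh / w := ⟨_, rfl⟩
  have hqw : q * w ≤ hh := by rw [hq]; exact Nat.div_mul_le_self _ _
  have h1 := h (Option (Fin hh × Fin q)) (diag n hh w q) (univ.map Function.Embedding.some)
    (fun i hi => by
      rw [mem_map] at hi
      obtain ⟨⟨d, c⟩, -, rfl⟩ := hi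
      exact diag_matching (by omega) hqw d c) (fun ω => (C ω).toBlocks _)
    (hC.toBlocks _) d (fun ω => (C ω).heavyRefs d) (fun ω => (C ω).heavyGates d)
    (fun ω => by
      have e4 : ((C ω).toBlocks (diag n hh w q)).refs = (C ω).refs := Prog.toBlocks_refs _ _
      rw [e4]
      have e5 : ((C ω).toBlocks (diag n hh w q)).prog = (C ω).prog.merge (diag n hh w q) :=
        Prog.toBlocks_eq _ _
      rw [e5]
      exact Prog.sum_refsTo_merge (diag n hh w q) _ d (C ω).prog)
    (fun ω => by
      have e5 : (C ω).toBlocks (diag n hh w q) = (C ω).merge (diag n hh w q) := by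
        unfold Circuit.toBlocks Circuit.merge
        rw [Prog.toBlocks_eq]
      rw [e5]
      exact Circuit.sum_count_merge (diag n hh w q) _ d (C ω))
  have e1 : mean μ (fun ω => ((C ω).toBlocks (diag n hh w q)).refs) =
      mean μ (fun ω => (C ω).refs) := by
    unfold mean
    refine sum_congr rfl fun ω _ => ?_
    beta_reduce
    rw [show ((C ω).toBlocks (diag n hh w q)).refs = (C ω).refs from Prog.toBlocks_refs _ _]
  have e2 : mean μ (fun ω => ((C ω).toBlocks (diag n hh w q)).leaves) =
      mean μ (fun ω => (C ω).leaves) := by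
    unfold mean
    refine sum_congr rfl fun ω _ => ?_
    beta_reduce
    rw [show ((C ω).toBlocks (diag n hh w q)).leaves = (C ω).leaves from Prog.toBlocks_leaves _ _]
  have e3 : mean μ (fun ω => ((C ω).toBlocks (diag n hh w q)).shared) =
      mean μ (fun ω => (C ω).shared) := rfl
  rw [e1, e2, e3] at h1
  rw [card_map, card_univ, Fintype.card_prod, Fintype.card_fin, Fintype.card_fin] at h1
  -- the number of the blocks
  have h3 : hh < (q + 1) * w := by
    rw [hq]
    have := Nat.lt_div_mul_add (a := hh) (b := w) (by omega)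
    linarith
  have h4 : (n : ℝ) ≤ 2 * hh + 1 := by
    have : n ≤ 2 * hh + 1 := by omega
    exact_mod_cast this
  have h5 : (hh : ℝ) ≤ (q + 1) * w := by exact_mod_cast h3.le
  have h6 : (8 : ℝ) * w ≤ n := by exact_mod_cast hw2
  have h7 : (2048 : ℝ) ≤ n := by exact_mod_cast hn
  have h8 : (n : ℝ) ^ 2 ≤ 9 * w * (hh * q) := by
    have a1 : (2 * hh : ℝ) ≤ n := by
      have : 2 * hh ≤ n := by omega
      exact_mod_cast this
    have a2 : (n : ℝ) / 4 + n / 8 - 1 ≤ w * q := by nlinarith
    have a3 : (n : ℝ) / 2 - 1 / 2 ≤ hh := by linarith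
    nlinarith [mul_le_mul a3 a2 (by linarith) (by linarith)]
  have h9 : (hh : ℝ) * q ≤ n ^ 2 / (4 * w) := by
    rw [le_div_iff₀ (by positivity)]
    have a1 : (2 * hh : ℝ) ≤ n := by
      have : 2 * hh ≤ n := by omega
      exact_mod_cast this
    have a2 : (q * w : ℝ) ≤ hh := by exact_mod_cast hqw
    have a3 : (0 : ℝ) ≤ hh := Nat.cast_nonneg _
    have a4 : (0 : ℝ) ≤ q * w := by positivity
    nlinarith
  have h10 : 0 ≤ mean μ (fun ω => (C ω).heavyRefs d) + mean μ (fun ω => (C ω).heavyGates d) := by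
    have a2 := mean_nonneg μ hC.nonneg (fun ω => (C ω).heavyRefs d)
    have a3 := mean_nonneg μ hC.nonneg (fun ω => (C ω).heavyGates d)
    linarith
  push_cast at h1
  have h11 := mul_le_mul_of_nonneg_right h9 h10
  calc c * n ^ 2 ≤ c * (9 * w * (hh * q)) := mul_le_mul_of_nonneg_left h8 hc
    _ = 9 * w * (c * (hh * q)) := by ring
    _ ≤ _ := mul_le_mul_of_nonneg_left (h1.trans (by linarith)) (by positivity)

end

end Pool.Agent.TH272.Nec
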