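import Pool.Agent.TH272.Nec.CliqueLocal
import Pool.Agent.TH272.Nec.Heavy

set_option autoImplicit false

/-! # The clique problem: references to gates that depend on many pairs -/

namespace Pool.Agent.TH272.Nec.Clq

open Finset

variable {n : ℕ} {κ : Type} [DecidableEq κ] {Ω : Type} [Fintype Ω]

theorem blocks_sum {s : ℕ} (hn : 2 ^ 11 ≤ n) (hs : 4 * Nat.log 2 n ≤ s) (hs2 : 2 * s ≤ n)
    (block : Sym2 (Fin n) → κ) (B : Finset κ)
    (hB : ∀ i ∈ B, IsMatchingBlock block (4 * Nat.log 2 n) i) (μ : Ω → ℝ)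
    (C : Ω → Circuit κ (Item block))
    (hC : Computes μ C fun x => ¬ (graph block x).CliqueFree s) (d : ℕ) (hr hg : Ω → ℕ)
    (k2 : ∀ ω, ∑ i ∈ B, (C ω).prog.refsTo i ≤ d * (C ω).refs + B.card * hr ω)
    (k3 : ∀ ω, ∑ i ∈ B, (C ω).prog.count i ≤ d * (C ω).shared + B.card * hg ω + B.card) :
    (n : ℝ) ^ 2 / 12800 * B.card ≤ mean μ (fun ω => (C ω).leaves) +
      d * (mean μ (fun ω => (C ω).refs) + mean μ (fun ω => (C ω).shared)) +
      B.card * (mean μ hr + mean μ hg) := by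
  have key := sum_lower μ hC.nonneg hC.sum_one C B d hr hg k2 k3 ((n : ℝ) ^ 2 / 3200)
    fun i hi => ?_
  · linarith
  obtain ⟨h1, h2, h3, h4, h5⟩ := log_bounds hn
  obtain ⟨ℓ, hℓ⟩ : ∃ ℓ, Nat.log 2 n = ℓ + 3 := ⟨Nat.log 2 n - 3, by omega⟩
  have hB2 := hB i hi
  rw [hℓ] at h1 h2 h3 h4 h5 hs hB2
  rw [show ℓ + 3 - 3 = ℓ by omega] at h3 h4 h5
  obtain ⟨r, hr⟩ : ∃ r, s = 4 * ℓ + 2 + r := ⟨s - (4 * ℓ + 2), by omega⟩
  subst hr
  have h6 := block_lower' (n := n) (w := 4 * (ℓ + 3)) (ℓ := ℓ) (r := r) (by omega) (by omega)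
    block i hB2 μ C hC
  have h7 : (256 : ℝ) ≤ 2 ^ ℓ := by exact_mod_cast h5
  have h8 : (n : ℝ) ≤ 16 * 2 ^ ℓ := by exact_mod_cast h4.le
  have h9 : (0 : ℝ) ≤ n := Nat.cast_nonneg n
  have h10 : (2048 : ℝ) ≤ n := by exact_mod_cast hn
  have h11 : (n : ℝ) ^ 2 ≤ 256 * (2 ^ ℓ) ^ 2 := by nlinarith
  have h12 : (2 ^ ℓ : ℝ) ≤ (2 ^ ℓ) ^ 2 / 256 := by nlinarith
  have h13 : (65536 : ℝ) ≤ (2 ^ ℓ) ^ 2 := by nlinarith
  linarith

theorem blocks_heavy {s : ℕ} (hn : 2 ^ 11 ≤ n) (hs : 4 * Nat.log 2 n ≤ s) (hs2 : 2 * s ≤ n)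
    (block : Sym2 (Fin n) → κ) (B : Finset κ)
    (hB : ∀ i ∈ B, IsMatchingBlock block (4 * Nat.log 2 n) i) (μ : Ω → ℝ)
    (C : Ω → Circuit κ (Item block))
    (hC : Computes μ C fun x => ¬ (graph block x).CliqueFree s) (d : ℕ) :
    (n : ℝ) ^ 2 / 12800 * B.card ≤ mean μ (fun ω => (C ω).leaves) +
      d * (mean μ (fun ω => (C ω).refs) + mean μ (fun ω => (C ω).shared)) +
      B.card * (mean μ (fun ω => (C ω).heavyRefs d) + mean μ (fun ω => (C ω).heavyGates d)) :=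
  blocks_sum hn hs hs2 block B hB μ C hC d _ _ (fun ω => Prog.sum_refsTo_heavy B d (C ω).prog)
    fun ω => Circuit.sum_count_heavy B d (C ω)

theorem single_heavy {s : ℕ} (hn : 2 ^ 11 ≤ n) (hs : 4 * Nat.log 2 n ≤ s) (hs2 : 2 * s ≤ n)
    (μ : Ω → ℝ) (C : Ω → Circuit (Sym2 (Fin n)) (fun _ => Bool))
    (hC : Computes μ C fun x => ¬ (SimpleGraph.fromEdgeSet {e | x e = true}).CliqueFree s)
    (d : ℕ) :
    (n : ℝ) ^ 4 / (5 * 10 ^ 5 * Nat.log 2 n) ≤ mean μ (fun ω => (C ω).leaves) +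
      d * (mean μ (fun ω => (C ω).refs) + mean μ (fun ω => (C ω).shared)) +
      n ^ 2 / (16 * Nat.log 2 n) *
        (mean μ (fun ω => (C ω).heavyRefs d) + mean μ (fun ω => (C ω).heavyGates d)) := by
  obtain ⟨h1, h2, h3, h4, h5⟩ := log_bounds hn
  have h6 := Nec.single_heavy hn (fun G => ¬ G.CliqueFree s) μ C hC d
    ((n : ℝ) ^ 2 / 12800) (by positivity)
    (4 * Nat.log 2 n) (by omega) (by omega) fun κ _ block B hB C hC d hr hg k2 k3 =>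
      blocks_sum hn hs hs2 block B hB μ C hC d hr hg k2 k3
  have h7 : (11 : ℝ) ≤ Nat.log 2 n := by exact_mod_cast h1
  rw [div_le_iff₀ (by positivity)]
  push_cast at h6
  have e0 : (4 : ℝ) * (4 * (Nat.log 2 n : ℝ)) = 16 * Nat.log 2 n := by ring
  rw [e0] at h6
  have h8 : 0 ≤ mean μ (fun ω => (C ω).leaves) +
      d * (mean μ (fun ω => (C ω).refs) + mean μ (fun ω => (C ω).shared)) +
      n ^ 2 / (16 * Nat.log 2 n) *
        (mean μ (fun ω => (C ω).heavyRefs d) + mean μ (fun ω => (C ω).heavyGates d)) := by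
    have a1 := mean_nonneg μ hC.nonneg (fun ω => (C ω).leaves)
    have a2 := mean_nonneg μ hC.nonneg (fun ω => (C ω).refs)
    have a3 := mean_nonneg μ hC.nonneg (fun ω => (C ω).shared)
    have a4 := mean_nonneg μ hC.nonneg (fun ω => (C ω).heavyRefs d)
    have a5 := mean_nonneg μ hC.nonneg (fun ω => (C ω).heavyGates d)
    positivity
  have h9 := mul_nonneg (Nat.cast_nonneg (α := ℝ) (Nat.log 2 n)) h8
  linarith

end Pool.Agent.TH272.Nec.Clq
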