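import Pool.Agent.TH272.Nec.CliqueFin

set_option autoImplicit false

/-! # The function of the problem -/

namespace Pool.Agent.TH272.Nec.Clq

open Finset

theorem not_cliqueFree_iff {n s : ℕ} (G : SimpleGraph (Fin n)) :
    (¬ G.CliqueFree s) ↔ ∃ K : Finset (Fin n), G.IsClique (K : Set (Fin n)) ∧ K.card = s := by
  unfold SimpleGraph.CliqueFree
  push Not
  refine exists_congr fun K => ?_
  rw [SimpleGraph.isNClique_iff]

theorem big_iff {n : ℕ} (G : SimpleGraph (Fin n)) :
    (∃ K : Finset (Fin n), G.IsClique (K : Set (Fin n)) ∧ Real.sqrt n < K.card) ↔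
      ¬ G.CliqueFree (Nat.sqrt n + 1) := by
  rw [not_cliqueFree_iff]
  constructor
  · rintro ⟨K, h1, h2⟩
    have h3 : Nat.sqrt n + 1 ≤ K.card := by
      rw [Nat.succ_le_iff, Nat.sqrt_lt']
      have h4 := (Real.sqrt_lt' (lt_of_le_of_lt (Real.sqrt_nonneg _) h2)).1 h2
      exact_mod_cast h4
    obtain ⟨K', h5, h6⟩ := exists_subset_card_eq h3
    exact ⟨K', h1.subset (by exact_mod_cast h5), h6⟩
  · rintro ⟨K, h1, h2⟩
    refine ⟨K, h1, ?_⟩
    rw [h2]
    have h3 : n < (Nat.sqrt n + 1) ^ 2 := by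
      rw [sq]
      exact Nat.lt_succ_sqrt n
    have h4 : ((n : ℕ) : ℝ) < ((Nat.sqrt n + 1 : ℕ) : ℝ) ^ 2 := by exact_mod_cast h3
    exact (Real.sqrt_lt' (by positivity)).2 h4

theorem sqrt_bounds {n : ℕ} (hn : 2 ^ 11 ≤ n) :
    4 * Nat.log 2 n ≤ Nat.sqrt n + 1 ∧ 2 * (Nat.sqrt n + 1) ≤ n := by
  have h1 : 11 ≤ Nat.log 2 n := by
    have := Nat.log_mono_right (b := 2) hn
    rwa [Nat.log_pow (by norm_num)] at this
  have h2 : 2 ^ Nat.log 2 n ≤ n := Nat.pow_log_le_self 2 (by omega)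
  constructor
  · refine le_trans ?_ (Nat.le_succ _)
    rw [Nat.le_sqrt]
    refine le_trans ?_ h2
    have h3 : ∀ k : ℕ, 16 * ((k + 11) * (k + 11)) ≤ 2 ^ (k + 11) := by
      intro k
      induction k with
      | zero => norm_num
      | succ k ih =>
        have : 2 ^ (k + 1 + 11) = 2 * 2 ^ (k + 11) := by ring
        rw [this]
        nlinarith
    have h4 := h3 (Nat.log 2 n - 11)
    rw [show Nat.log 2 n - 11 + 11 = Nat.log 2 n by omega] at h4
    calc _ = 16 * (Nat.log 2 n * Nat.log 2 n) := by ring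
      _ ≤ _ := h4
  · have h5 := Nat.sqrt_le n
    have h6 : 45 ≤ Nat.sqrt n := by
      rw [Nat.le_sqrt]
      omega
    nlinarith

/-- Formulas. -/
theorem formula {n s : ℕ} (hn : 2 ^ 11 ≤ n) (hs : 4 * Nat.log 2 n ≤ s) (hs2 : 2 * s ≤ n)
    (F : Fm (Sym2 (Fin n)) (fun _ => Bool) 0)
    (hF : ∀ x, F.eval x Fin.elim0 = true ↔
      ¬ (SimpleGraph.fromEdgeSet {e | x e = true}).CliqueFree s) :
    (n : ℝ) ^ 4 / (10 ^ 6 * Nat.log 2 n) ≤ F.leaves := by
  have hC : Computes (Ω := Unit) (fun _ => 1) (fun _ => ⟨0, .snoc .nil F⟩)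
      (fun x => ¬ (SimpleGraph.fromEdgeSet {e : Sym2 (Fin n) | x e = true}).CliqueFree s) := by
    refine ⟨fun _ => by norm_num, by simp, fun x E hE => ?_⟩
    have e3 : (⟨0, .snoc .nil F⟩ : Circuit (Sym2 (Fin n)) (fun _ => Bool)).eval x =
        F.eval x Fin.elim0 := by
      show Fin.snoc (α := fun _ => Bool) (Fin.elim0 : Fin 0 → Bool) (F.eval x Fin.elim0)
        (Fin.last 0) = _
      rw [Fin.snoc_last]
    have h4 : E = ∅ := by
      rw [Finset.eq_empty_iff_forall_notMem]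
      intro ω hω
      have h5 := hE ω hω
      rw [e3] at h5
      exact h5 (hF x)
    rw [h4]
    norm_num
  rcases single hn hs hs2 _ _ hC with h | h
  · exfalso
    have e : ∀ F : Fm (Sym2 (Fin n)) (fun _ => Bool) 0, F.refs = 0 := by
      intro F
      induction F with
      | leaf i p => rfl
      | ref j => exact j.elim0
      | gate g a b iha ihb => simp only [Fm.refs, iha, ihb]
    have e2 : (⟨0, .snoc .nil F⟩ : Circuit (Sym2 (Fin n)) (fun _ => Bool)).refs = 0 := by
      show 0 + F.refs = 0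
      rw [e F]
    simp only [mean, univ_unique, PUnit.default_eq_unit, one_mul, sum_singleton, e2] at h
    have h2 : (2048 : ℝ) ≤ n := by exact_mod_cast hn
    push_cast at h
    nlinarith
  · have e2 : (⟨0, .snoc .nil F⟩ : Circuit (Sym2 (Fin n)) (fun _ => Bool)).leaves =
        F.leaves := by
      show 0 + F.leaves = F.leaves
      rw [zero_add]
    simpa only [mean, univ_unique, PUnit.default_eq_unit, one_mul, sum_singleton, e2] using h

end Pool.Agent.TH272.Nec.Clq
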