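import Pool.Agent.TH272.Nec.Graph

set_option autoImplicit false

/-! # A division of the pairs into matchings -/

namespace Pool.Agent.TH272.Nec

open Finset

variable {n h w q : ℕ}

/-- The pairs `{x, h + (x + d) mod h}` with `x / w = c` form block `(d, c)`. -/
def diag (n h w q : ℕ) (e : Sym2 (Fin n)) : Option (Fin h × Fin q) :=
  if H : e.inf.val < h ∧ h ≤ e.sup.val ∧ e.sup.val < 2 * h ∧ e.inf.val / w < q then
    some (⟨(e.sup.val - e.inf.val) % h, Nat.mod_lt _ (by omega)⟩, ⟨e.inf.val / w, H.2.2.2⟩)
  else none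

theorem diag_eq {e : Sym2 (Fin n)} {d : Fin h} {c : Fin q} (H : diag n h w q e = some (d, c)) :
    e.inf.val < h ∧ h ≤ e.sup.val ∧ e.sup.val < 2 * h ∧ (e.sup.val - e.inf.val) % h = d := by
  unfold diag at H
  split_ifs at H with H2
  rw [Option.some.injEq, Prod.mk.injEq] at H
  exact ⟨H2.1, H2.2.1, H2.2.2.1, congrArg Fin.val H.1⟩

theorem diag_of {e : Sym2 (Fin n)} {d : Fin h} {c : Fin q} (h1 : e.inf.val < h)
    (h2 : h ≤ e.sup.val) (h3 : e.sup.val < 2 * h) (h4 : e.inf.val / w = c)
    (h5 : (e.sup.val - e.inf.val) % h = d) : diag n h w q e = some (d, c) := by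
  unfold diag
  rw [dif_pos ⟨h1, h2, h3, by rw [h4]; exact c.2⟩, Option.some.injEq, Prod.mk.injEq]
  exact ⟨Fin.ext h5, Fin.ext h4⟩

theorem mod_inj {a b : ℕ} (h1 : a % h = b % h) (h2 : a < b + h) (h3 : b < a + h) : a = b := by
  have h4 : (h : ℤ) ∣ (b : ℤ) - a := by
    have : (a : ℤ) ≡ b [ZMOD h] := by exact_mod_cast (Int.natCast_modEq_iff.2 h1)
    exact this.dvd
  have h5 : |(b : ℤ) - a| < h := by rw [abs_lt]; constructor <;> omega
  have h6 := Int.eq_zero_of_abs_lt_dvd h4 h5
  omega

theorem mod_shift {x d : ℕ} (hx : x < h) (hd : d < h) : (h + (x + d) % h - x) % h = d := by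
  by_cases H : x + d < h
  · rw [Nat.mod_eq_of_lt H, show h + (x + d) - x = h + d by omega, Nat.add_mod_left,
      Nat.mod_eq_of_lt hd]
  · have key : (x + d) % h = x + d - h := by
      rw [Nat.mod_eq_sub_mod (by omega : h ≤ x + d), Nat.mod_eq_of_lt (by omega)]
    rw [key, show h + (x + d - h) - x = d by omega, Nat.mod_eq_of_lt hd]

theorem sym2_eq (e : Sym2 (Fin n)) : e = s(e.inf, e.sup) := by
  induction e using Sym2.ind with
  | _ x y =>
    rcases le_total x y with h | h
    · simp [h]
    · simp [h, Sym2.eq_swap]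

theorem diag_matching (hn : 2 * h ≤ n) (hq : q * w ≤ h) (d : Fin h) (c : Fin q) :
    IsMatchingBlock (diag n h w q) w (some (d, c)) := by
  classical
  constructor
  · intro e e' h1 h2 v hv hv'
    obtain ⟨a1, a2, a3, a4⟩ := diag_eq h1
    obtain ⟨b1, b2, b3, b4⟩ := diag_eq h2
    rw [sym2_eq e, Sym2.mem_iff] at hv
    rw [sym2_eq e', Sym2.mem_iff] at hv'
    have key : e.inf = e'.inf ∧ e.sup = e'.sup := by
      rcases hv with hv | hv <;> rcases hv' with hv' | hv'
      · have e1 : e.inf = e'.inf := hv.symm.trans hv'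
        refine ⟨e1, Fin.ext ?_⟩
        have e2 : e.inf.val = e'.inf.val := congrArg _ e1
        have := mod_inj (a4.trans b4.symm) (by omega) (by omega)
        omega
      · exfalso
        have e2 : e.inf.val = e'.sup.val := congrArg _ (hv.symm.trans hv')
        omega
      · exfalso
        have e2 : e.sup.val = e'.inf.val := congrArg _ (hv.symm.trans hv')
        omega
      · have e1 : e.sup = e'.sup := hv.symm.trans hv'
        refine ⟨Fin.ext ?_, e1⟩
        have e2 : e.sup.val = e'.sup.val := congrArg _ e1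
        have := mod_inj (a4.trans b4.symm) (by omega) (by omega)
        omega
    rw [sym2_eq e, sym2_eq e', key.1, key.2]
  · have hx : ∀ j : Fin w, c.val * w + j.val < h := by
      intro j
      have h1 : (c.val + 1) * w ≤ q * w := Nat.mul_le_mul_right _ c.2
      have h2 : (c.val + 1) * w = c.val * w + w := by ring
      have h3 := j.2
      omega
    have hy : ∀ j : Fin w, h + (c.val * w + j.val + d.val) % h < 2 * h := by
      intro j
      have := Nat.mod_lt (c.val * w + j.val + d.val) (show 0 < h by have := hx j; omega)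
      omega
    refine ⟨univ.image fun j : Fin w => s((⟨c.val * w + j.val, by have := hx j; omega⟩ : Fin n),
      ⟨h + (c.val * w + j.val + d.val) % h, by have := hy j; omega⟩), ?_, ?_⟩
    · rw [card_image_of_injective, card_univ, Fintype.card_fin]
      intro j j' hj
      simp only [Sym2.eq_iff, Fin.mk.injEq] at hj
      apply Fin.ext
      rcases hj with hj | hj
      · omega
      · have := hx j
        omega
    · intro e he
      rw [mem_image] at he
      obtain ⟨j, -, rfl⟩ := he
      have h1 := hx j
      have h2 := hy j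
      have hle : (⟨c.val * w + j.val, by omega⟩ : Fin n) ≤
          ⟨h + (c.val * w + j.val + d.val) % h, by omega⟩ := by
        rw [Fin.mk_le_mk]
        omega
      have hw : (c.val * w + j.val) / w = c.val := by
        have h3 := j.2
        rw [mul_comm, Nat.mul_add_div (by omega), Nat.div_eq_of_lt h3, add_zero]
      constructor
      · refine diag_of ?_ ?_ ?_ ?_ ?_ <;>
          simp only [Sym2.inf_mk, Sym2.sup_mk, inf_eq_left.2 hle, sup_eq_right.2 hle]
        · exact h1
        · omega
        · exact h2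
        · exact hw
        · exact mod_shift h1 d.2
      · rw [Sym2.mk_isDiag_iff]
        simp only [Fin.mk.injEq]
        omega

end Pool.Agent.TH272.Nec
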