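import Pool.Agent.TH272.Nec.Local
import Pool.Agent.TH272.Nec.Partition

set_option autoImplicit false

/-! # Graph properties: circuits with local sharing -/

namespace Pool.Agent.TH272.Nec

open Finset

section

variable {n : ℕ} {κ : Type} [DecidableEq κ] {T : Type} [Fintype T] {Ω : Type} [Fintype Ω]

open Classical in
/-- If the pairs in block `i` can query the bits of a string which is encoded in the other pairs,
then block `i` is read often or there are many extra wires. -/
theorem graph_reads' (block : Sym2 (Fin n) → κ) (i : κ) (Q : SimpleGraph (Fin n) → Prop)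
    (G : (T → Bool) → T → SimpleGraph (Fin n))
    (h1 : ∀ z t t' e, block e ≠ i → (e ∈ (G z t).edgeSet ↔ e ∈ (G z t').edgeSet))
    (h2 : ∀ z z' t e, block e = i → (e ∈ (G z t).edgeSet ↔ e ∈ (G z' t).edgeSet))
    (hQ : ∀ z t, Q (G z t) ↔ z t = true)
    (μ : Ω → ℝ) (C : Ω → Circuit κ (Item block)) (hC : Computes μ C fun x => Q (graph block x)) :
    (49 / 600 : ℝ) * Fintype.card T ≤
      4 * mean μ (fun ω => (C ω).prog.reads i) + 4 * mean μ (fun ω => (C ω).prog.refsTo i) +
        mean μ (fun ω => (C ω).prog.count i) + 1 := by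
  rcases isEmpty_or_nonempty T with hT | ⟨⟨t0⟩⟩
  · rw [Fintype.card_eq_zero]
    have a1 := mean_nonneg μ hC.nonneg (fun ω => (C ω).prog.reads i)
    have a2 := mean_nonneg μ hC.nonneg (fun ω => (C ω).prog.refsTo i)
    have a3 := mean_nonneg μ hC.nonneg (fun ω => (C ω).prog.count i)
    push_cast
    linarith
  refine reads_lower' μ C _ hC i (fun t e => decide (e.1 ∈ (G (fun _ => false) t).edgeSet))
    (fun z j e => decide (e.1 ∈ (G z t0).edgeSet)) fun t z => ?_
  have e1 : graph block (Function.update (fun j e => decide (e.1 ∈ (G z t0).edgeSet)) i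
      (fun e => decide (e.1 ∈ (G (fun _ => false) t).edgeSet))) = G z t := by
    rw [← SimpleGraph.edgeSet_inj]
    ext e
    unfold graph
    rw [SimpleGraph.edgeSet_fromEdgeSet, Set.mem_diff, Set.mem_setOf_eq]
    have key : (Function.update (fun (j : κ) (e : {e : Sym2 (Fin n) // block e = j}) =>
        decide (e.1 ∈ (G z t0).edgeSet)) i
        (fun e => decide (e.1 ∈ (G (fun _ => false) t).edgeSet)) (block e) ⟨e, rfl⟩ = true) ↔
          e ∈ (G z t).edgeSet := by
      by_cases hi : block e = i
      · subst hi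
        rw [Function.update_self, decide_eq_true_iff]
        exact h2 _ _ _ _ rfl
      · rw [Function.update_of_ne hi, decide_eq_true_iff]
        exact h1 _ _ _ _ hi
    rw [key]
    constructor
    · exact fun h => h.1
    · exact fun h => ⟨h, fun hd => SimpleGraph.not_isDiag_of_mem_edgeSet _ h hd⟩
  rw [e1]
  exact hQ z t

end

section

variable {n : ℕ} {κ : Type} [DecidableEq κ]

theorem Fm.toBlocks_items (block : Sym2 (Fin n) → κ) {k : ℕ} (V : Fin k → Finset (Sym2 (Fin n)))
    (φ : Fm (Sym2 (Fin n)) (fun _ => Bool) k) :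
    (φ.toBlocks block).items (fun j => (V j).image block) = (φ.items V).image block := by
  induction φ with
  | leaf e p => simp [toBlocks, items]
  | ref j => rfl
  | gate g a b iha ihb => simp only [toBlocks, items, iha, ihb, image_union]

theorem Prog.toBlocks_items (block : Sym2 (Fin n) → κ) : ∀ {k : ℕ}
    (P : Prog (Sym2 (Fin n)) (fun _ => Bool) k),
    (P.toBlocks block).items = fun j => (P.items j).image block
  | _, .nil => by
    funext j
    exact j.elim0
  | k + 1, .snoc P φ => by
    funext j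
    simp only [toBlocks, items]
    rw [Prog.toBlocks_items block P, Fm.toBlocks_items]
    refine Fin.lastCases ?_ (fun j => ?_) j
    · simp only [Fin.snoc_last]
    · simp only [Fin.snoc_castSucc]

/-- The lower bound for circuits whose leaves read single pairs. -/
theorem single_local (hn : 2 ^ 11 ≤ n) {Ω : Type} [Fintype Ω] (Q : SimpleGraph (Fin n) → Prop)
    (μ : Ω → ℝ) (C : Ω → Circuit (Sym2 (Fin n)) (fun _ => Bool))
    (hC : Computes μ C fun x => Q (SimpleGraph.fromEdgeSet {e | x e = true})) (d : ℕ)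
    (hd : ∀ ω, (C ω).IsLocal d) (c : ℝ) (hc : 0 ≤ c)
    (w : ℕ) (hw : 1 ≤ w) (hw2 : 8 * w ≤ n)
    (h : ∀ (κ : Type) [DecidableEq κ] (block : Sym2 (Fin n) → κ) (B : Finset κ),
      (∀ i ∈ B, IsMatchingBlock block w i) → ∀ (C : Ω → Circuit κ (Item block)),
      (Computes μ C fun x => Q (graph block x)) → ∀ d, (∀ ω, (C ω).IsLocalOn B d) →
      c * B.card ≤ mean μ (fun ω => (C ω).leaves) +
        d * (mean μ (fun ω => (C ω).refs) + mean μ (fun ω => (C ω).shared))) :
    c * n ^ 2 ≤ 9 * w * (mean μ (fun ω => (C ω).leaves) + min (d : ℝ) (n ^ 2 / (4 * w)) *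
      (mean μ (fun ω => (C ω).refs) + mean μ (fun ω => (C ω).shared))) := by
  obtain ⟨hh, hhh⟩ : ∃ hh, hh = n / 2 := ⟨_, rfl⟩
  obtain ⟨q, hq⟩ : ∃ q, q = hh / w := ⟨_, rfl⟩
  have hqw : q * w ≤ hh := by rw [hq]; exact Nat.div_mul_le_self _ _
  have h1 := h (Option (Fin hh × Fin q)) (diag n hh w q) (univ.map Function.Embedding.some)
    (fun i hi => by
      rw [mem_map] at hi
      obtain ⟨⟨d, c⟩, -, rfl⟩ := hi
      exact diag_matching (by omega) hqw d c) (fun ω => (C ω).toBlocks _)
    (hC.toBlocks _) (min d (univ.map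
      (Function.Embedding.some : (Fin hh × Fin q) ↪ Option (Fin hh × Fin q))).card) (fun ω j => by
      have e1 : ((C ω).toBlocks (diag n hh w q)).prog.items =
          fun j => ((C ω).prog.items j).image (diag n hh w q) := Prog.toBlocks_items _ _
      rw [e1]
      exact le_min ((card_le_card inter_subset_right).trans (card_image_le.trans (hd ω j)))
        (card_le_card inter_subset_left))
  have e1 : mean μ (fun ω => ((C ω).toBlocks (diag n hh w q)).refs) =
      mean μ (fun ω => (C ω).refs) := by
    unfold mean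
    refine sum_congr rfl fun ω _ => ?_
    beta_reduce
    rw [show ((C ω).toBlocks (diag n hh w q)).refs = (C ω).refs from Prog.toBlocks_refs _ _]
  have e2 : mean μ (fun ω => ((C ω).toBlocks (diag n hh w q)).leaves) =
      mean μ (fun ω => (C ω).leaves) := by
    unfold mean
    refine sum_congr rfl fun ω _ => ?_
    beta_reduce
    rw [show ((C ω).toBlocks (diag n hh w q)).leaves = (C ω).leaves from Prog.toBlocks_leaves _ _]
  have e3 : mean μ (fun ω => ((C ω).toBlocks (diag n hh w q)).shared) =
      mean μ (fun ω => (C ω).shared) := rfl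
  rw [e1, e2, e3] at h1
  rw [card_map, card_univ, Fintype.card_prod, Fintype.card_fin, Fintype.card_fin] at h1
  -- the number of the blocks
  have h3 : hh < (q + 1) * w := by
    rw [hq]
    have := Nat.lt_div_mul_add (a := hh) (b := w) (by omega)
    linarith
  have h4 : (n : ℝ) ≤ 2 * hh + 1 := by
    have : n ≤ 2 * hh + 1 := by omega
    exact_mod_cast this
  have h5 : (hh : ℝ) ≤ (q + 1) * w := by exact_mod_cast h3.le
  have h6 : (8 : ℝ) * w ≤ n := by exact_mod_cast hw2
  have h7 : (2048 : ℝ) ≤ n := by exact_mod_cast hn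
  have h8 : (n : ℝ) ^ 2 ≤ 9 * w * (hh * q) := by
    have a1 : (2 * hh : ℝ) ≤ n := by
      have : 2 * hh ≤ n := by omega
      exact_mod_cast this
    have a2 : (n : ℝ) / 4 + n / 8 - 1 ≤ w * q := by nlinarith
    have a3 : (n : ℝ) / 2 - 1 / 2 ≤ hh := by linarith
    nlinarith [mul_le_mul a3 a2 (by linarith) (by linarith)]
  have h9 : (hh : ℝ) * q ≤ n ^ 2 / (4 * w) := by
    rw [le_div_iff₀ (by positivity)]
    have a1 : (2 * hh : ℝ) ≤ n := by
      have : 2 * hh ≤ n := by omega
      exact_mod_cast this
    have a2 : (q * w : ℝ) ≤ hh := by exact_mod_cast hqw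
    have a3 : (0 : ℝ) ≤ hh := Nat.cast_nonneg _
    have a4 : (0 : ℝ) ≤ q * w := by positivity
    nlinarith
  have h10 : 0 ≤ mean μ (fun ω => (C ω).refs) + mean μ (fun ω => (C ω).shared) := by
    have a2 := mean_nonneg μ hC.nonneg (fun ω => (C ω).refs)
    have a3 := mean_nonneg μ hC.nonneg (fun ω => (C ω).shared)
    linarith
  push_cast at h1
  have h11 := mul_le_mul_of_nonneg_right (min_le_min_left (d : ℝ) h9) h10
  calc c * n ^ 2 ≤ c * (9 * w * (hh * q)) := mul_le_mul_of_nonneg_left h8 hc
    _ = 9 * w * (c * (hh * q)) := by ring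
    _ ≤ 9 * w * (mean μ (fun ω => (C ω).leaves) + min (d : ℝ) (n ^ 2 / (4 * w)) *
      (mean μ (fun ω => (C ω).refs) + mean μ (fun ω => (C ω).shared))) :=
        mul_le_mul_of_nonneg_left (h1.trans (by linarith)) (by positivity)

end

end Pool.Agent.TH272.Nec
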