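import Pool.Agent.TH272.Nec.CliqueBlock
import Pool.Agent.TH272.Nec.CliqueRes
import Pool.Agent.TH272.Nec.GraphLocal

set_option autoImplicit false

/-! # The clique problem: circuits with local sharing -/

namespace Pool.Agent.TH272.Nec.Clq

open Finset

variable {n w ℓ r : ℕ} {κ : Type} [DecidableEq κ] {Ω : Type} [Fintype Ω]

/-- The lower bound for the number of the leaves which read a block. -/
theorem block_lower' (hn : 8 * ℓ + 2 * 2 ^ ℓ + r ≤ n) (hw : 4 * ℓ ≤ w)
    (block : Sym2 (Fin n) → κ) (i : κ) (hB : IsMatchingBlock block w i)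
    (μ : Ω → ℝ) (C : Ω → Circuit κ (Item block))
    (hC : Computes μ C fun x => ¬ (graph block x).CliqueFree (4 * ℓ + 2 + r)) :
    (49 / 600 : ℝ) * ((2 ^ ℓ : ℝ) ^ 2 - 2 ^ ℓ) ≤
      4 * mean μ (fun ω => (C ω).prog.reads i) + 4 * mean μ (fun ω => (C ω).prog.refsTo i) +
        mean μ (fun ω => (C ω).prog.count i) + 1 := by
  classical
  obtain ⟨g, hg⟩ := exists_pairs hB (β := Fin (2 * ℓ) × Bool) (by
    rw [Fintype.card_prod, Fintype.card_fin, Fintype.card_bool]; omega)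
  obtain ⟨e, he⟩ := exists_extend (β := (Fin (2 ^ ℓ) ⊕ Fin (2 ^ ℓ)) ⊕ Fin r)
    (((Equiv.prodAssoc (Fin (2 * ℓ)) Bool Bool).symm.toEmbedding).trans g) (by
      simp only [Fintype.card_sum, Fintype.card_prod, Fintype.card_fin, Fintype.card_bool]
      omega)
  have heg : ∀ p c, block s(e (.inl (p, c, false)), e (.inl (p, c, true))) = i := fun p c => by
    rw [he, he]
    exact hg (p, c)
  have key := graph_reads' (T := {ab : Fin (2 ^ ℓ) × Fin (2 ^ ℓ) //
      block s(e (.inr (.inl (.inl ab.1))), e (.inr (.inl (.inr ab.2)))) ≠ i}) block i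
    (fun G => ¬ G.CliqueFree (4 * ℓ + 2 + r))
    (fun z t => (H (fun a b => ∃ h, z ⟨(a, b), h⟩ = true) t.1).map e) ?_ ?_ ?_ μ C hC
  · refine le_trans (mul_le_mul_of_nonneg_left ?_ (by norm_num)) key
    have h := card_T block i hB (fun a => e (.inr (.inl (.inl a))))
      (fun b => e (.inr (.inl (.inr b)))) (fun a b h => by simpa using e.injective h)
    have h2 : ((2 ^ ℓ : ℕ) : ℝ) ^ 2 ≤ (Fintype.card {ab : Fin (2 ^ ℓ) × Fin (2 ^ ℓ) //
      block s(e (.inr (.inl (.inl ab.1))), e (.inr (.inl (.inr ab.2)))) ≠ i} : ℝ) +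
        ((2 ^ ℓ : ℕ) : ℝ) := by exact_mod_cast h
    push_cast at h2
    linarith
  · intro z t t' e' he'
    induction e' using Sym2.ind with
    | _ x y =>
      rw [SimpleGraph.mem_edgeSet, SimpleGraph.mem_edgeSet, SimpleGraph.map_adj,
        SimpleGraph.map_adj]
      refine exists_congr fun a => exists_congr fun b => ?_
      constructor <;>
      · rintro ⟨h1, h2, h3⟩
        refine ⟨?_, h2, h3⟩
        subst h2 h3
        unfold H at h1 ⊢
        rw [SimpleGraph.fromRel_adj] at h1 ⊢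
        refine ⟨h1.1, ?_⟩
        rcases a with ⟨p, c, s⟩ | (j | j) | j <;> rcases b with ⟨p', c', s'⟩ | (j' | j') | j' <;>
          simp only [rel] at h1 ⊢ <;> first | exact h1.2 | skip
        by_cases hp : p = p'
        · subst hp
          exfalso
          have h4 : s ≠ s' ∧ c = c' := by
            rcases h1.2 with h4 | h4
            · exact ⟨(h4 rfl).1, (h4 rfl).2.1⟩
            · exact ⟨(h4 rfl).1.symm, (h4 rfl).2.1.symm⟩
          obtain ⟨h4, rfl⟩ := h4
          apply he'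
          have h5 := heg p c
          cases s <;> cases s'
          · exact absurd rfl h4
          · exact h5
          · rw [Sym2.eq_swap]; exact h5
          · exact absurd rfl h4
        · exact Or.inl fun h => absurd h hp
  · intro z z' t e' he'
    induction e' using Sym2.ind with
    | _ x y =>
      rw [SimpleGraph.mem_edgeSet, SimpleGraph.mem_edgeSet, SimpleGraph.map_adj,
        SimpleGraph.map_adj]
      refine exists_congr fun a => exists_congr fun b => ?_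
      constructor <;>
      · rintro ⟨h1, h2, h3⟩
        refine ⟨?_, h2, h3⟩
        subst h2 h3
        unfold H at h1 ⊢
        rw [SimpleGraph.fromRel_adj] at h1 ⊢
        refine ⟨h1.1, ?_⟩
        rcases a with ⟨p, c, s⟩ | (j | j) | j <;> rcases b with ⟨p', c', s'⟩ | (j' | j') | j' <;>
          simp only [rel] at h1 ⊢ <;> first | exact h1.2 | skip
        · exfalso
          rcases h1.2 with ⟨h4, -⟩ | h4
          · exact h4 he'
          · exact h4
        · exfalso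
          rcases h1.2 with h4 | ⟨h4, -⟩
          · exact h4
          · exact h4 (by rw [Sym2.eq_swap]; exact he')
  · intro z t
    rw [SimpleGraph.cliqueFree_map_iff, cliqueFree_iff]
    constructor
    · rintro ⟨h, h2⟩
      exact h2
    · intro h
      exact ⟨t.2, h⟩


theorem blocks_local {s : ℕ} (hn : 2 ^ 11 ≤ n) (hs : 4 * Nat.log 2 n ≤ s) (hs2 : 2 * s ≤ n)
    (block : Sym2 (Fin n) → κ) (B : Finset κ)
    (hB : ∀ i ∈ B, IsMatchingBlock block (4 * Nat.log 2 n) i) (μ : Ω → ℝ)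
    (C : Ω → Circuit κ (Item block))
    (hC : Computes μ C fun x => ¬ (graph block x).CliqueFree s) (d : ℕ)
    (hd : ∀ ω, (C ω).IsLocalOn B d) :
    (n : ℝ) ^ 2 / 12800 * B.card ≤ mean μ (fun ω => (C ω).leaves) +
      d * (mean μ (fun ω => (C ω).refs) + mean μ (fun ω => (C ω).shared)) := by
  have key := local_lower μ hC.nonneg hC.sum_one C B d hd ((n : ℝ) ^ 2 / 3200)
    fun i hi => ?_
  · linarith
  obtain ⟨h1, h2, h3, h4, h5⟩ := log_bounds hn
  obtain ⟨ℓ, hℓ⟩ : ∃ ℓ, Nat.log 2 n = ℓ + 3 := ⟨Nat.log 2 n - 3, by omega⟩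
  have hB2 := hB i hi
  rw [hℓ] at h1 h2 h3 h4 h5 hs hB2
  rw [show ℓ + 3 - 3 = ℓ by omega] at h3 h4 h5
  obtain ⟨r, hr⟩ : ∃ r, s = 4 * ℓ + 2 + r := ⟨s - (4 * ℓ + 2), by omega⟩
  subst hr
  have h6 := block_lower' (n := n) (w := 4 * (ℓ + 3)) (ℓ := ℓ) (r := r) (by omega) (by omega)
    block i hB2 μ C hC
  have h7 : (256 : ℝ) ≤ 2 ^ ℓ := by exact_mod_cast h5
  have h8 : (n : ℝ) ≤ 16 * 2 ^ ℓ := by exact_mod_cast h4.le
  have h9 : (0 : ℝ) ≤ n := Nat.cast_nonneg n
  have h10 : (2048 : ℝ) ≤ n := by exact_mod_cast hn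
  have h11 : (n : ℝ) ^ 2 ≤ 256 * (2 ^ ℓ) ^ 2 := by nlinarith
  have h12 : (2 ^ ℓ : ℝ) ≤ (2 ^ ℓ) ^ 2 / 256 := by nlinarith
  have h13 : (65536 : ℝ) ≤ (2 ^ ℓ) ^ 2 := by nlinarith
  linarith

theorem single_local {s : ℕ} (hn : 2 ^ 11 ≤ n) (hs : 4 * Nat.log 2 n ≤ s) (hs2 : 2 * s ≤ n)
    (μ : Ω → ℝ) (C : Ω → Circuit (Sym2 (Fin n)) (fun _ => Bool))
    (hC : Computes μ C fun x => ¬ (SimpleGraph.fromEdgeSet {e | x e = true}).CliqueFree s)
    (d : ℕ) (hd : ∀ ω, (C ω).IsLocal d) :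
    (n : ℝ) ^ 4 / (5 * 10 ^ 5 * Nat.log 2 n) ≤ mean μ (fun ω => (C ω).leaves) +
      min (d : ℝ) (n ^ 2 / (16 * Nat.log 2 n)) *
        (mean μ (fun ω => (C ω).refs) + mean μ (fun ω => (C ω).shared)) := by
  obtain ⟨h1, h2, h3, h4, h5⟩ := log_bounds hn
  have h6 := Nec.single_local hn (fun G => ¬ G.CliqueFree s) μ C hC d hd
    ((n : ℝ) ^ 2 / 12800) (by positivity)
    (4 * Nat.log 2 n) (by omega) (by omega) fun κ _ block B hB C hC d hd =>
      blocks_local hn hs hs2 block B hB μ C hC d hd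
  have h7 : (11 : ℝ) ≤ Nat.log 2 n := by exact_mod_cast h1
  rw [div_le_iff₀ (by positivity)]
  push_cast at h6
  have e0 : (4 : ℝ) * (4 * (Nat.log 2 n : ℝ)) = 16 * Nat.log 2 n := by ring
  rw [e0] at h6
  have h8 : 0 ≤ mean μ (fun ω => (C ω).leaves) +
      min (d : ℝ) (n ^ 2 / (16 * Nat.log 2 n)) *
        (mean μ (fun ω => (C ω).refs) + mean μ (fun ω => (C ω).shared)) := by
    have a1 := mean_nonneg μ hC.nonneg (fun ω => (C ω).leaves)
    have a2 := mean_nonneg μ hC.nonneg (fun ω => (C ω).refs)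
    have a3 := mean_nonneg μ hC.nonneg (fun ω => (C ω).shared)
    positivity
  have h9 := mul_nonneg (Nat.cast_nonneg (α := ℝ) (Nat.log 2 n)) h8
  linarith

end Pool.Agent.TH272.Nec.Clq
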