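import Pool.Agent.TH272.Nec.Defs
import Pool.Agent.TH697.Form.Core

set_option autoImplicit false

/-! # A lower bound for random circuits with few extra wires -/

namespace Pool.Agent.TH272.Nec

open Finset Pool.Agent.TH697.Form

variable {ι : Type} {D : ι → Type} [DecidableEq ι]

namespace Fm

/-- The number of leaves that read item `i`. -/
def reads {k : ℕ} (i : ι) : Fm ι D k → ℕ
  | leaf j _ => if j = i then 1 else 0
  | ref _ => 0
  | gate _ a b => a.reads i + b.reads i

/-- The formula in which the references are replaced by fixed functions of item `i`. -/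
def toFml {k : ℕ} (i : ι) (f : D i → Fin k → Bool) : Fm ι D k → Fml ι D
  | leaf j p => .leaf j p
  | ref j => .leaf i (fun d => f d j)
  | gate g a b => .gate g (a.toFml i f) (b.toFml i f)

theorem toFml_eval {k : ℕ} (i : ι) (f : D i → Fin k → Bool) (φ : Fm ι D k) (x : ∀ i, D i)
    (d : D i) : (φ.toFml i f).eval (Function.update x i d) =
      φ.eval (Function.update x i d) (f d) := by
  induction φ with
  | leaf j p => rfl
  | ref j => simp [toFml, Fml.eval, eval]
  | gate g a b iha ihb => simp only [toFml, Fml.eval, eval, iha, ihb]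

theorem toFml_reads {k : ℕ} (i : ι) (f : D i → Fin k → Bool) (φ : Fm ι D k) :
    (φ.toFml i f).reads i = φ.reads i + φ.refs := by
  induction φ with
  | leaf j p => simp [toFml, Fml.reads, reads, refs]
  | ref j => simp [toFml, Fml.reads, reads, refs]
  | gate g a b iha ihb =>
    simp only [toFml, Fml.reads, reads, refs, iha, ihb]
    omega

theorem sum_reads_le {k : ℕ} (s : Finset ι) (φ : Fm ι D k) :
    ∑ i ∈ s, φ.reads i ≤ φ.leaves := by
  induction φ with
  | leaf j p =>
    simp only [reads, leaves]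
    rw [Finset.sum_ite_eq]
    split_ifs <;> norm_num
  | ref j => simp [reads, leaves]
  | gate g a b iha ihb =>
    simp only [reads, leaves, sum_add_distrib]
    omega

end Fm

namespace Prog

/-- The number of leaves that read item `i`. -/
def reads (i : ι) : {k : ℕ} → Prog ι D k → ℕ
  | _, nil => 0
  | _, snoc P φ => P.reads i + φ.reads i

theorem sum_reads_le (s : Finset ι) : ∀ {k : ℕ} (P : Prog ι D k),
    ∑ i ∈ s, P.reads i ≤ P.leaves
  | _, nil => by simp [reads, leaves]
  | _, snoc P φ => by
    simp only [reads, leaves, sum_add_distrib]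
    exact Nat.add_le_add (sum_reads_le s P) (Fm.sum_reads_le s φ)

open Classical in
theorem subfunctions (i : ι) : ∀ {k : ℕ} (P : Prog ι D k),
    ∃ S : Finset (D i → Fin k → Bool), S.card ≤ 2 ^ k * 16 ^ (P.reads i + P.refs) ∧
      ∀ x : ∀ i, D i, (fun d => P.eval (Function.update x i d)) ∈ S
  | _, nil => by
    refine ⟨{fun _ => Fin.elim0}, by simp [reads, refs], fun x => ?_⟩
    rw [mem_singleton]
    rfl
  | k + 1, snoc P φ => by
    obtain ⟨S, hS, hm⟩ := subfunctions i P
    choose T hT hT2 using fun f : D i → Fin k → Bool =>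
      Pool.Agent.TH697.Form.subfunctions i (φ.toFml i f)
    refine ⟨S.biUnion fun f => (T f).image fun g => fun d => (Fin.snoc (f d) (g d) :
      Fin (k + 1) → Bool), ?_, fun x => ?_⟩
    · refine card_biUnion_le.trans ?_
      calc ∑ f ∈ S, ((T f).image fun g => fun d => (Fin.snoc (f d) (g d) :
            Fin (k + 1) → Bool)).card
          ≤ ∑ f ∈ S, 2 * 16 ^ (φ.reads i + φ.refs) := by
            refine sum_le_sum fun f _ => card_image_le.trans ?_
            have h := hT f
            rwa [Fm.toFml_reads] at h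
        _ = S.card * (2 * 16 ^ (φ.reads i + φ.refs)) := by
            rw [sum_const, smul_eq_mul]
        _ ≤ (2 ^ k * 16 ^ (P.reads i + P.refs)) * (2 * 16 ^ (φ.reads i + φ.refs)) :=
            Nat.mul_le_mul_right _ hS
        _ = 2 ^ (k + 1) * 16 ^ ((snoc P φ).reads i + (snoc P φ).refs) := by
            simp only [reads, refs]
            ring
    · rw [mem_biUnion]
      refine ⟨_, hm x, ?_⟩
      rw [mem_image]
      refine ⟨_, hT2 (fun d => P.eval (Function.update x i d)) x, ?_⟩
      funext d
      simp only [eval]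
      rw [Fm.toFml_eval]

end Prog

section

variable {T : Type} [Fintype T] {Ω : Type} [Fintype Ω]

open Classical in
/-- If the bits of a string `z` which is encoded in the other items can be queried by item `i`,
then a random circuit reads item `i` in many leaves or has many extra wires. -/
theorem reads_lower (μ : Ω → ℝ) (C : Ω → Circuit ι D)
    (f : (∀ i, D i) → Prop) (hF : Computes μ C f) (i : ι)
    (q : T → D i) (R : (T → Bool) → ∀ i, D i)
    (hf : ∀ t z, f (Function.update (R z) i (q t)) ↔ z t = true) :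
    (49 / 600 : ℝ) * Fintype.card T ≤
      4 * mean μ (fun ω => (C ω).prog.reads i) + 4 * mean μ (fun ω => (C ω).refs) +
        mean μ (fun ω => (C ω).shared) + 1 := by
  obtain ⟨N, hN⟩ : ∃ N, N = Fintype.card T := ⟨_, rfl⟩
  obtain ⟨E, hE⟩ : ∃ E : Ω → ℝ, E = fun ω => (∑ z : T → Bool,
      ((univ.filter (fun t => (C ω).eval (Function.update (R z) i (q t)) ≠ z t)).card : ℝ)) /
        2 ^ Fintype.card T := ⟨_, rfl⟩
  have h1 : ∀ ω, (415 / 1000 : ℝ) * N - E ω ≤
      4 * (((C ω).prog.reads i : ℝ) + ((C ω).refs : ℝ)) + ((C ω).shared + 1) := by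
    intro ω
    obtain ⟨S0, hS01, hS02⟩ := Prog.subfunctions i (C ω).prog
    obtain ⟨S, hS⟩ : ∃ S : Finset (D i → Bool), S = S0.image fun h d => h d (Fin.last _) :=
      ⟨_, rfl⟩
    have hS1 : S.card ≤ 2 ^ ((C ω).shared + 1) * 16 ^ ((C ω).prog.reads i + (C ω).refs) := by
      rw [hS]
      exact card_image_le.trans hS01
    have hS2 : ∀ x : ∀ i, D i, (fun d => (C ω).eval (Function.update x i d)) ∈ S := by
      intro x
      rw [hS, mem_image]
      exact ⟨_, hS02 x, rfl⟩
    have hne : 1 ≤ S.card := card_pos.2 ⟨_, hS2 (R (fun _ => false))⟩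
    have hc := coding (fun _ => 0) (fun t _ => q t) (fun _ _ _ _ => rfl) S hne
      (fun z => fun d => (C ω).eval (Function.update (R z) i d)) (fun z => hS2 (R z))
    have h2 : Real.log S.card ≤ Real.log 2 *
        (4 * (((C ω).prog.reads i : ℝ) + ((C ω).refs : ℝ)) + ((C ω).shared + 1)) := by
      have h3 : (S.card : ℝ) ≤
          2 ^ ((C ω).shared + 1) * 16 ^ ((C ω).prog.reads i + (C ω).refs) := by
        exact_mod_cast hS1
      have h4 := Real.log_le_log (by exact_mod_cast hne) h3
      rw [Real.log_mul (by positivity) (by positivity), Real.log_pow, Real.log_pow,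
        show (16 : ℝ) = 2 ^ 4 by norm_num, Real.log_pow] at h4
      push_cast at h4
      linarith
    have h5 := log_43
    have h6 : (0 : ℝ) < Real.log 2 := Real.log_pos (by norm_num)
    have h7 : (0 : ℝ) ≤ N := Nat.cast_nonneg N
    have h8 : (N : ℝ) * Real.log (4 / 3) - Real.log 2 * E ω ≤ Real.log S.card := by
      rw [hN]
      simp only [hE]
      exact hc
    have h9 := mul_le_mul_of_nonneg_left h5 h7
    have h10 : Real.log 2 * ((415 / 1000 : ℝ) * N - E ω) ≤
        Real.log 2 * (4 * (((C ω).prog.reads i : ℝ) + ((C ω).refs : ℝ)) +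
          ((C ω).shared + 1)) := by
      linarith
    exact le_of_mul_le_mul_left h10 h6
  have h2 : ∑ ω, μ ω * E ω ≤ N / 3 := by
    have e1 : ∑ ω, μ ω * E ω = (∑ z : T → Bool, ∑ t : T,
        ∑ ω ∈ univ.filter (fun ω => (C ω).eval (Function.update (R z) i (q t)) ≠ z t),
          μ ω) / 2 ^ N := by
      have e5 : ∀ ω, μ ω * E ω = ∑ z : T → Bool, μ ω * (((univ.filter (fun t =>
          (C ω).eval (Function.update (R z) i (q t)) ≠ z t)).card : ℝ) /
            2 ^ Fintype.card T) := by
        intro ω
        simp only [hE]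
        rw [sum_div, mul_sum]
      rw [sum_congr rfl (fun ω _ => e5 ω), sum_comm, sum_div]
      refine sum_congr rfl fun z _ => ?_
      have e4 : ∀ ω, μ ω * (((univ.filter (fun t => (C ω).eval (Function.update (R z) i (q t)) ≠
          z t)).card : ℝ) / 2 ^ Fintype.card T) = (∑ t : T,
          if (C ω).eval (Function.update (R z) i (q t)) ≠ z t then μ ω else 0) /
            2 ^ Fintype.card T := by
        intro ω
        rw [card_filter, Nat.cast_sum, ← mul_div_assoc, mul_sum]
        congr 1
        refine sum_congr rfl fun t _ => ?_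
        split_ifs <;> simp
      rw [sum_congr rfl (fun ω _ => e4 ω), ← sum_div, sum_comm, hN]
      congr 1
      refine sum_congr rfl fun t _ => ?_
      rw [sum_filter]
    rw [e1, div_le_iff₀ (by positivity)]
    calc _ ≤ ∑ _z : T → Bool, ∑ _t : T, (1 / 3 : ℝ) := by
          refine sum_le_sum fun z _ => sum_le_sum fun t _ =>
            hF.error (Function.update (R z) i (q t)) _ fun ω hω => ?_
          rw [mem_filter] at hω
          intro hcon
          apply hω.2
          rw [hf] at hcon
          exact Bool.eq_iff_iff.2 hcon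
      _ = N / 3 * 2 ^ N := by
          simp only [sum_const, card_univ, nsmul_eq_mul, Fintype.card_fun, Fintype.card_bool,
            ← hN]
          push_cast
          ring
  have h3 := sum_le_sum fun ω (_ : ω ∈ (univ : Finset Ω)) =>
    mul_le_mul_of_nonneg_left (h1 ω) (hF.nonneg ω)
  have e2 : ∑ ω, μ ω * ((415 / 1000 : ℝ) * N - E ω) = (415 / 1000 : ℝ) * N - ∑ ω, μ ω * E ω := by
    simp_rw [mul_sub]
    rw [sum_sub_distrib, ← sum_mul, hF.sum_one, one_mul]
  have e3 : ∑ ω, μ ω * (4 * (((C ω).prog.reads i : ℝ) + ((C ω).refs : ℝ)) +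
      ((C ω).shared + 1)) =
      4 * mean μ (fun ω => (C ω).prog.reads i) + 4 * mean μ (fun ω => (C ω).refs) +
        mean μ (fun ω => (C ω).shared) + 1 := by
    have e6 : ∀ ω, μ ω * (4 * (((C ω).prog.reads i : ℝ) + ((C ω).refs : ℝ)) +
      ((C ω).shared + 1)) = 4 * (μ ω * ((C ω).prog.reads i : ℝ)) +
        4 * (μ ω * ((C ω).refs : ℝ)) + μ ω * ((C ω).shared : ℝ) + μ ω := fun ω => by ring
    rw [sum_congr rfl (fun ω _ => e6 ω), sum_add_distrib, sum_add_distrib, sum_add_distrib,
      hF.sum_one, ← mul_sum, ← mul_sum]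
    rfl
  rw [e2, e3] at h3
  rw [← hN]
  linarith

/-- The lower bound for the number of leaves. -/
theorem leaves_lower (μ : Ω → ℝ) (hμ : ∀ ω, 0 ≤ μ ω) (C : Ω → Circuit ι D)
    (s : Finset ι) (c : ℝ)
    (h : ∀ i ∈ s, c ≤ 4 * mean μ (fun ω => (C ω).prog.reads i)) :
    s.card * c ≤ 4 * mean μ (fun ω => (C ω).leaves) := by
  have h1 : ∑ _i ∈ s, c ≤ ∑ i ∈ s, 4 * mean μ (fun ω => (C ω).prog.reads i) :=
    sum_le_sum fun i hi => h i hi
  rw [sum_const, nsmul_eq_mul, ← mul_sum] at h1
  refine h1.trans (mul_le_mul_of_nonneg_left ?_ (by norm_num))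
  unfold mean
  rw [sum_comm]
  refine sum_le_sum fun ω _ => ?_
  rw [← mul_sum]
  refine mul_le_mul_of_nonneg_left ?_ (hμ ω)
  have := Prog.sum_reads_le s (C ω).prog
  exact_mod_cast this

end

end Pool.Agent.TH272.Nec
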