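import Mathlib

set_option autoImplicit false

/-!
# Circuits with sharing, written as sequences of formulas

A circuit over the full binary basis in which the values of `k` gates are used more than once is a
sequence of `k + 1` formulas; the leaves of a formula read the input or refer to the value of an
earlier formula. The number of references is the total fan-out of the `k` shared gates. The circuit
is a formula if and only if `k = 0`.
-/

namespace Pool.Agent.TH272.Nec

/-- Formulas. The input consists of items `x i`, `i : ι`, and `k` bits have been computed before. A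
leaf is an arbitrary predicate of one item or one of the `k` bits, a gate is an arbitrary function
of two bits. -/
inductive Fm (ι : Type) (D : ι → Type) (k : ℕ) : Type
  | leaf : (i : ι) → (D i → Bool) → Fm ι D k
  | ref : Fin k → Fm ι D k
  | gate : (Bool → Bool → Bool) → Fm ι D k → Fm ι D k → Fm ι D k

namespace Fm

variable {ι : Type} {D : ι → Type} {k : ℕ}

/-- The value of the formula. -/
def eval : Fm ι D k → (∀ i, D i) → (Fin k → Bool) → Bool
  | leaf i p, x, _ => p (x i)
  | ref j, _, v => v j
  | gate g a b, x, v => g (a.eval x v) (b.eval x v)

/-- The number of leaves that read the input. -/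
def leaves : Fm ι D k → ℕ
  | leaf _ _ => 1
  | ref _ => 0
  | gate _ a b => a.leaves + b.leaves

/-- The number of references to bits computed before. -/
def refs : Fm ι D k → ℕ
  | leaf _ _ => 0
  | ref _ => 1
  | gate _ a b => a.refs + b.refs

end Fm

/-- Sequences of `k` formulas; each formula may refer to the values of the earlier ones. -/
inductive Prog (ι : Type) (D : ι → Type) : ℕ → Type
  | nil : Prog ι D 0
  | snoc : {k : ℕ} → Prog ι D k → Fm ι D k → Prog ι D (k + 1)

namespace Prog

variable {ι : Type} {D : ι → Type}

/-- The values of the formulas. -/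
def eval : {k : ℕ} → Prog ι D k → (∀ i, D i) → Fin k → Bool
  | _, nil, _ => Fin.elim0
  | _, snoc P φ, x => Fin.snoc (P.eval x) (φ.eval x (P.eval x))

/-- The number of leaves that read the input. -/
def leaves : {k : ℕ} → Prog ι D k → ℕ
  | _, nil => 0
  | _, snoc P φ => P.leaves + φ.leaves

/-- The number of references. -/
def refs : {k : ℕ} → Prog ι D k → ℕ
  | _, nil => 0
  | _, snoc P φ => P.refs + φ.refs

end Prog

/-- A circuit is a sequence of `k + 1` formulas, where `k` is the number of shared gates. -/
structure Circuit (ι : Type) (D : ι → Type) : Type where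
  /-- the number of the gates whose values are shared -/
  shared : ℕ
  /-- the formulas -/
  prog : Prog ι D (shared + 1)

namespace Circuit

variable {ι : Type} {D : ι → Type}

/-- The value of a circuit is the value of the last formula. -/
def eval (C : Circuit ι D) (x : ∀ i, D i) : Bool := C.prog.eval x (Fin.last _)

/-- The number of leaves that read the input. -/
def leaves (C : Circuit ι D) : ℕ := C.prog.leaves

/-- The total fan-out of the shared gates. -/
def refs (C : Circuit ι D) : ℕ := C.prog.refs

end Circuit

/-- The random circuit `C` (`C ω` has probability `μ ω`) computes `f` with error probability at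
most `1 / 3` on every input. -/
structure Computes {ι : Type} {D : ι → Type} {Ω : Type} [Fintype Ω] (μ : Ω → ℝ)
    (C : Ω → Circuit ι D) (f : (∀ i, D i) → Prop) : Prop where
  nonneg : ∀ ω, 0 ≤ μ ω
  sum_one : ∑ ω, μ ω = 1
  error : ∀ x, ∀ E : Finset Ω, (∀ ω ∈ E, ¬ ((C ω).eval x = true ↔ f x)) → ∑ ω ∈ E, μ ω ≤ 1 / 3

/-- The expected value of a quantity. -/
def mean {Ω : Type} [Fintype Ω] (μ : Ω → ℝ) (a : Ω → ℕ) : ℝ := ∑ ω, μ ω * (a ω : ℝ)

end Pool.Agent.TH272.Nec
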