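import Pool.Agent.TH272.Nec.Defs

set_option autoImplicit false

/-! # Graph properties as functions of blocks of pairs of vertices -/

namespace Pool.Agent.TH272.Nec

/-- The items of the input of a graph problem if the pairs of vertices are divided into blocks:
item `i` consists of one bit for each pair in block `i`. -/
abbrev Item {n : ℕ} {κ : Type} (block : Sym2 (Fin n) → κ) (i : κ) : Type :=
  {e : Sym2 (Fin n) // block e = i} → Bool

/-- The graph with vertex set `Fin n` which is given by the input `x`: distinct vertices `u`, `v`
are adjacent if and only if the bit of the pair `{u, v}` is true. -/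
def graph {n : ℕ} {κ : Type} (block : Sym2 (Fin n) → κ) (x : ∀ i, Item block i) :
    SimpleGraph (Fin n) :=
  SimpleGraph.fromEdgeSet {e | x (block e) ⟨e, rfl⟩ = true}

/-- Block `i` is a matching with at least `w` edges: no two pairs in the block have a common
vertex, and it contains at least `w` pairs of distinct vertices. -/
def IsMatchingBlock {n : ℕ} {κ : Type} (block : Sym2 (Fin n) → κ) (w : ℕ) (i : κ) : Prop :=
  (∀ e e', block e = i → block e' = i → ∀ v, v ∈ e → v ∈ e' → e = e') ∧
    ∃ M : Finset (Sym2 (Fin n)), w ≤ M.card ∧ ∀ e ∈ M, block e = i ∧ ¬ e.IsDiag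

end Pool.Agent.TH272.Nec
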