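import Pool.Agent.TH272.Nec.Core
import Pool.Agent.TH272.Nec.GraphDefs

set_option autoImplicit false

/-! # The lower bound for graph properties -/

namespace Pool.Agent.TH272.Nec

open Finset

section

variable {n : ℕ} {κ : Type} [DecidableEq κ] {T : Type} [Fintype T] {Ω : Type} [Fintype Ω]

theorem mean_nonneg (μ : Ω → ℝ) (hμ : ∀ ω, 0 ≤ μ ω) (a : Ω → ℕ) : 0 ≤ mean μ a :=
  sum_nonneg fun ω _ => mul_nonneg (hμ ω) (Nat.cast_nonneg _)

open Classical in
/-- If the pairs in block `i` can query the bits of a string which is encoded in the other pairs,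
then block `i` is read often or there are many extra wires. -/
theorem graph_reads (block : Sym2 (Fin n) → κ) (i : κ) (Q : SimpleGraph (Fin n) → Prop)
    (G : (T → Bool) → T → SimpleGraph (Fin n))
    (h1 : ∀ z t t' e, block e ≠ i → (e ∈ (G z t).edgeSet ↔ e ∈ (G z t').edgeSet))
    (h2 : ∀ z z' t e, block e = i → (e ∈ (G z t).edgeSet ↔ e ∈ (G z' t).edgeSet))
    (hQ : ∀ z t, Q (G z t) ↔ z t = true)
    (μ : Ω → ℝ) (C : Ω → Circuit κ (Item block)) (hC : Computes μ C fun x => Q (graph block x)) :
    (49 / 600 : ℝ) * Fintype.card T ≤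
      4 * mean μ (fun ω => (C ω).prog.reads i) + 4 * mean μ (fun ω => (C ω).refs) +
        mean μ (fun ω => (C ω).shared) + 1 := by
  rcases isEmpty_or_nonempty T with hT | ⟨⟨t0⟩⟩
  · rw [Fintype.card_eq_zero]
    have a1 := mean_nonneg μ hC.nonneg (fun ω => (C ω).prog.reads i)
    have a2 := mean_nonneg μ hC.nonneg (fun ω => (C ω).refs)
    have a3 := mean_nonneg μ hC.nonneg (fun ω => (C ω).shared)
    push_cast
    linarith
  refine reads_lower μ C _ hC i (fun t e => decide (e.1 ∈ (G (fun _ => false) t).edgeSet))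
    (fun z j e => decide (e.1 ∈ (G z t0).edgeSet)) fun t z => ?_
  have e1 : graph block (Function.update (fun j e => decide (e.1 ∈ (G z t0).edgeSet)) i
      (fun e => decide (e.1 ∈ (G (fun _ => false) t).edgeSet))) = G z t := by
    rw [← SimpleGraph.edgeSet_inj]
    ext e
    unfold graph
    rw [SimpleGraph.edgeSet_fromEdgeSet, Set.mem_diff, Set.mem_setOf_eq]
    have key : (Function.update (fun (j : κ) (e : {e : Sym2 (Fin n) // block e = j}) =>
        decide (e.1 ∈ (G z t0).edgeSet)) i
        (fun e => decide (e.1 ∈ (G (fun _ => false) t).edgeSet)) (block e) ⟨e, rfl⟩ = true) ↔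
          e ∈ (G z t).edgeSet := by
      by_cases hi : block e = i
      · subst hi
        rw [Function.update_self, decide_eq_true_iff]
        exact h2 _ _ _ _ rfl
      · rw [Function.update_of_ne hi, decide_eq_true_iff]
        exact h1 _ _ _ _ hi
    rw [key]
    constructor
    · exact fun h => h.1
    · exact fun h => ⟨h, fun hd => SimpleGraph.not_isDiag_of_mem_edgeSet _ h hd⟩
  rw [e1]
  exact hQ z t

end

section

variable {n : ℕ} {κ : Type}

/-- A formula whose leaves read single pairs, as a formula whose leaves read blocks. -/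
def Fm.toBlocks (block : Sym2 (Fin n) → κ) {k : ℕ} :
    Fm (Sym2 (Fin n)) (fun _ => Bool) k → Fm κ (Item block) k
  | .leaf e p => .leaf (block e) (fun y => p (y ⟨e, rfl⟩))
  | .ref j => .ref j
  | .gate g a b => .gate g (a.toBlocks block) (b.toBlocks block)

/-- A program whose leaves read single pairs, as a program whose leaves read blocks. -/
def Prog.toBlocks (block : Sym2 (Fin n) → κ) : {k : ℕ} →
    Prog (Sym2 (Fin n)) (fun _ => Bool) k → Prog κ (Item block) k
  | _, .nil => .nil
  | _, .snoc P φ => .snoc (P.toBlocks block) (φ.toBlocks block)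

/-- A circuit whose leaves read single pairs, as a circuit whose leaves read blocks. -/
def Circuit.toBlocks (block : Sym2 (Fin n) → κ) (C : Circuit (Sym2 (Fin n)) (fun _ => Bool)) :
    Circuit κ (Item block) := ⟨C.shared, C.prog.toBlocks block⟩

theorem Fm.toBlocks_eval (block : Sym2 (Fin n) → κ) {k : ℕ}
    (φ : Fm (Sym2 (Fin n)) (fun _ => Bool) k) (x : ∀ i, Item block i) (v : Fin k → Bool) :
    (φ.toBlocks block).eval x v = φ.eval (fun e => x (block e) ⟨e, rfl⟩) v := by
  induction φ with
  | leaf e p => rfl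
  | ref j => rfl
  | gate g a b iha ihb => simp only [toBlocks, eval, iha, ihb]

theorem Fm.toBlocks_leaves (block : Sym2 (Fin n) → κ) {k : ℕ}
    (φ : Fm (Sym2 (Fin n)) (fun _ => Bool) k) : (φ.toBlocks block).leaves = φ.leaves := by
  induction φ with
  | leaf e p => rfl
  | ref j => rfl
  | gate g a b iha ihb => simp only [toBlocks, leaves, iha, ihb]

theorem Fm.toBlocks_refs (block : Sym2 (Fin n) → κ) {k : ℕ}
    (φ : Fm (Sym2 (Fin n)) (fun _ => Bool) k) : (φ.toBlocks block).refs = φ.refs := by
  induction φ with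
  | leaf e p => rfl
  | ref j => rfl
  | gate g a b iha ihb => simp only [toBlocks, refs, iha, ihb]

theorem Prog.toBlocks_eval (block : Sym2 (Fin n) → κ) (x : ∀ i, Item block i) : ∀ {k : ℕ}
    (P : Prog (Sym2 (Fin n)) (fun _ => Bool) k),
    (P.toBlocks block).eval x = P.eval (fun e => x (block e) ⟨e, rfl⟩)
  | _, .nil => rfl
  | _, .snoc P φ => by
    simp only [toBlocks, eval]
    rw [Prog.toBlocks_eval block x P, Fm.toBlocks_eval]

theorem Prog.toBlocks_leaves (block : Sym2 (Fin n) → κ) : ∀ {k : ℕ}
    (P : Prog (Sym2 (Fin n)) (fun _ => Bool) k), (P.toBlocks block).leaves = P.leaves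
  | _, .nil => rfl
  | _, .snoc P φ => by
    simp only [toBlocks, leaves]
    rw [Prog.toBlocks_leaves block P, Fm.toBlocks_leaves]

theorem Prog.toBlocks_refs (block : Sym2 (Fin n) → κ) : ∀ {k : ℕ}
    (P : Prog (Sym2 (Fin n)) (fun _ => Bool) k), (P.toBlocks block).refs = P.refs
  | _, .nil => rfl
  | _, .snoc P φ => by
    simp only [toBlocks, refs]
    rw [Prog.toBlocks_refs block P, Fm.toBlocks_refs]

/-- Circuits whose leaves read single pairs compute the property also if they are considered as
circuits whose leaves read blocks. -/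
theorem Computes.toBlocks {Ω : Type} [Fintype Ω] (block : Sym2 (Fin n) → κ)
    (Q : SimpleGraph (Fin n) → Prop) (μ : Ω → ℝ)
    (C : Ω → Circuit (Sym2 (Fin n)) (fun _ => Bool))
    (hC : Computes μ C fun x => Q (SimpleGraph.fromEdgeSet {e | x e = true})) :
    Computes μ (fun ω => (C ω).toBlocks block) fun x => Q (graph block x) where
  nonneg := hC.nonneg
  sum_one := hC.sum_one
  error x E hE := by
    refine hC.error (fun e => x (block e) ⟨e, rfl⟩) E fun ω hω => ?_
    have h := hE ω hω
    unfold Circuit.eval Circuit.toBlocks at h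
    rw [Prog.toBlocks_eval] at h
    exact h

end

end Pool.Agent.TH272.Nec
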