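import Pool.Agent.H545R2.SegGraph

set_option autoImplicit false

/-! # A gadget for Hamiltonian cycles: the directed graph -/

namespace Pool.Agent.TH272.Nec.Ham

variable {m : ℕ} {R : Fin m → ℕ} {U V : Type}

/-- The vertices. -/
inductive Vx (R : Fin m → ℕ) (U V : Type) : Type
  | c : Fin (m + 1) → Vx R U V
  | t : (i : Fin m) → Fin (R i + 1) → Vx R U V
  | s : (i : Fin m) → Fin (R i) → Vx R U V
  | s' : (i : Fin m) → Fin (R i) → Vx R U V
  | w : U ⊕ V → Vx R U V

/-- The arcs. Row `i` can be passed from the left to the right, with a detour through a vertex in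
`A i k` for every `k`, or from the right to the left. The first is possible only if `q i`. -/
def Arc (A : (i : Fin m) → Fin (R i) → U ⊕ V → Prop) (q : Fin m → Prop) (z : U → V → Prop) :
    Vx R U V → Vx R U V → Prop
  | .c i, .t j k => i = j.castSucc ∧ (k.val = 0 ∧ q j ∨ k.val = R j)
  | .c i, .w (.inl _) => i = Fin.last m
  | .t j k, .c i => i = j.succ ∧ (k.val = 0 ∨ k.val = R j)
  | .t i k, .s j l => i = j ∧ k.val = l.val
  | .t i k, .s' j l => i = j ∧ k.val = l.val + 1
  | .s j l, .t i k => i = j ∧ k.val = l.val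
  | .s i k, .w x => A i k x
  | .s' j l, .t i k => i = j ∧ k.val = l.val + 1
  | .s' i k, .s j l => i = j ∧ k.val = l.val
  | .w x, .s' i k => A i k x
  | .w (.inl a), .w (.inr b) => z a b
  | .w (.inr _), .c i => i = 0
  | _, _ => False

variable {A : (i : Fin m) → Fin (R i) → U ⊕ V → Prop} {q : Fin m → Prop} {z : U → V → Prop}

/-! ## the arcs at a vertex -/

theorem t_eq {i : Fin m} {k l : Fin (R i + 1)} (h : k.val = l.val) :
    (Vx.t i k : Vx R U V) = .t i l := by rw [Fin.ext h]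

theorem from_s {i : Fin m} {k : Fin (R i)} {y : Vx R U V} (h : Arc A q z (.s i k) y) :
    y = .t i k.castSucc ∨ ∃ x, y = .w x ∧ A i k x := by
  cases y with
  | c i => exact h.elim
  | t j l =>
    obtain ⟨rfl, h⟩ := h
    exact Or.inl (t_eq h)
  | s j l => exact h.elim
  | s' j l => exact h.elim
  | w x => exact Or.inr ⟨x, rfl, h⟩

theorem from_s' {i : Fin m} {k : Fin (R i)} {y : Vx R U V} (h : Arc A q z (.s' i k) y) :
    y = .t i k.succ ∨ y = .s i k := by
  cases y with
  | c i => exact h.elim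
  | t j l =>
    obtain ⟨rfl, h⟩ := h
    exact Or.inl (t_eq (by rw [h]; rfl))
  | s j l =>
    obtain ⟨rfl, h⟩ := h
    rw [Fin.ext h.symm]
    exact Or.inr rfl
  | s' j l => exact h.elim
  | w x => exact h.elim

theorem from_t {i : Fin m} {k : Fin (R i + 1)} {y : Vx R U V} (h : Arc A q z (.t i k) y) :
    (y = .c i.succ ∧ (k.val = 0 ∨ k.val = R i)) ∨ (∃ l : Fin (R i), y = .s i l ∧ k.val = l.val) ∨
      ∃ l : Fin (R i), y = .s' i l ∧ k.val = l.val + 1 := by
  cases y with
  | c j =>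
    obtain ⟨rfl, h⟩ := h
    exact Or.inl ⟨rfl, h⟩
  | t j l => exact h.elim
  | s j l =>
    obtain ⟨rfl, h⟩ := h
    exact Or.inr (Or.inl ⟨l, rfl, h⟩)
  | s' j l =>
    obtain ⟨rfl, h⟩ := h
    exact Or.inr (Or.inr ⟨l, rfl, h⟩)
  | w x => exact h.elim

theorem to_t {i : Fin m} {k : Fin (R i + 1)} {y : Vx R U V} (h : Arc A q z y (.t i k)) :
    (y = .c i.castSucc ∧ (k.val = 0 ∧ q i ∨ k.val = R i)) ∨
      (∃ l : Fin (R i), y = .s i l ∧ k.val = l.val) ∨
      ∃ l : Fin (R i), y = .s' i l ∧ k.val = l.val + 1 := by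
  cases y with
  | c j =>
    obtain ⟨rfl, h⟩ := h
    exact Or.inl ⟨rfl, h⟩
  | t j l => exact h.elim
  | s j l =>
    obtain ⟨rfl, h⟩ := h
    exact Or.inr (Or.inl ⟨l, rfl, h⟩)
  | s' j l =>
    obtain ⟨rfl, h⟩ := h
    exact Or.inr (Or.inr ⟨l, rfl, h⟩)
  | w x => exact (by cases x <;> exact h.elim)

theorem to_s {i : Fin m} {k : Fin (R i)} {y : Vx R U V} (h : Arc A q z y (.s i k)) :
    y = .t i k.castSucc ∨ y = .s' i k := by
  cases y with
  | c j => exact h.elim
  | t j l =>
    obtain ⟨rfl, h⟩ := h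
    exact Or.inl (t_eq h)
  | s j l => exact h.elim
  | s' j l =>
    obtain ⟨rfl, h⟩ := h
    rw [Fin.ext h]
    exact Or.inr rfl
  | w x => exact (by cases x <;> exact h.elim)

theorem to_s' {i : Fin m} {k : Fin (R i)} {y : Vx R U V} (h : Arc A q z y (.s' i k)) :
    y = .t i k.succ ∨ ∃ x, y = .w x ∧ A i k x := by
  cases y with
  | c j => exact h.elim
  | t j l =>
    obtain ⟨rfl, h⟩ := h
    exact Or.inl (t_eq (by rw [h]; rfl))
  | s j l => exact h.elim
  | s' j l => exact h.elim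
  | w x => exact Or.inr ⟨x, rfl, by cases x <;> exact h⟩

theorem to_inl {a : U} {y : Vx R U V} (h : Arc A q z y (.w (.inl a))) :
    y = .c (Fin.last m) ∨ ∃ i k, y = .s i k ∧ A i k (.inl a) := by
  cases y with
  | c j => exact Or.inl (congrArg _ h)
  | t j l => exact h.elim
  | s j l => exact Or.inr ⟨j, l, rfl, h⟩
  | s' j l => exact h.elim
  | w x => exact (by cases x <;> exact h.elim)

theorem to_inr {b : V} {y : Vx R U V} (h : Arc A q z y (.w (.inr b))) :
    (∃ a, y = .w (.inl a) ∧ z a b) ∨ ∃ i k, y = .s i k ∧ A i k (.inr b) := by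
  cases y with
  | c j => exact h.elim
  | t j l => exact h.elim
  | s j l => exact Or.inr ⟨j, l, rfl, h⟩
  | s' j l => exact h.elim
  | w x =>
    cases x with
    | inl a => exact Or.inl ⟨a, rfl, h⟩
    | inr b => exact h.elim

theorem from_inl {a : U} {y : Vx R U V} (h : Arc A q z (.w (.inl a)) y) :
    (∃ b, y = .w (.inr b) ∧ z a b) ∨ ∃ i k, y = .s' i k ∧ A i k (.inl a) := by
  cases y with
  | c j => exact h.elim
  | t j l => exact h.elim
  | s j l => exact h.elim
  | s' j l => exact Or.inr ⟨j, l, rfl, h⟩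
  | w x =>
    cases x with
    | inl a => exact h.elim
    | inr b => exact Or.inl ⟨b, rfl, h⟩

/-! ## soundness -/

section

variable {σ : Equiv.Perm (Vx R U V)} (hσ : ∀ x, Arc A q z x (σ x)) (h2 : ∀ x, σ (σ x) ≠ x)

include hσ h2

theorem inactive {i : Fin m} (h0 : σ (.t i 0) = .c i.succ) : ∀ k (hk : k < R i),
    σ (.s i ⟨k, hk⟩) = .t i ⟨k, by omega⟩ ∧ σ (.t i ⟨k + 1, by omega⟩) = .s' i ⟨k, hk⟩ := by
  have hlast : ∀ hR : 0 < R i, σ (.t i (Fin.last _)) = .s' i ⟨R i - 1, by omega⟩ := by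
    intro hR
    rcases from_t (hσ (.t i (Fin.last _))) with ⟨h, -⟩ | ⟨l, h, hl⟩ | ⟨l, h, hl⟩
    · have h3 := σ.injective (h0.trans h.symm)
      rw [Vx.t.injEq] at h3
      have h4 := congrArg Fin.val (eq_of_heq h3.2)
      simp only [Fin.val_zero, Fin.val_last] at h4
      omega
    · have := l.isLt
      rw [Fin.val_last] at hl
      omega
    · rw [Fin.val_last] at hl
      rw [h]
      congr 1
      exact Fin.ext (by simp only; omega)
  have hs0 : ∀ hR : 0 < R i, σ (.s i ⟨0, hR⟩) = .t i 0 := by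
    intro hR
    obtain ⟨y, hy⟩ := σ.surjective (.t i 0)
    have h := hσ y
    rw [hy] at h
    rcases to_t h with ⟨rfl, -⟩ | ⟨l, rfl, hl⟩ | ⟨l, rfl, hl⟩
    · exfalso
      obtain ⟨y', hy'⟩ := σ.surjective (.t i (Fin.last _))
      have h' := hσ y'
      rw [hy'] at h'
      rcases to_t h' with ⟨rfl, -⟩ | ⟨l, rfl, hl⟩ | ⟨l, rfl, hl⟩
      · rw [hy, Vx.t.injEq] at hy'
        have h4 := congrArg Fin.val (eq_of_heq hy'.2)
        simp only [Fin.val_zero, Fin.val_last] at h4
        omega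
      · have := l.isLt
        rw [Fin.val_last] at hl
        omega
      · rw [Fin.val_last] at hl
        have h5 : l = ⟨R i - 1, by omega⟩ := Fin.ext (by simp only; omega)
        apply h2 (.s' i l)
        rw [hy', hlast hR, h5]
    · have : l = ⟨0, hR⟩ := Fin.ext (by simpa using hl.symm)
      rw [← this]
      exact hy
    · rw [Fin.val_zero] at hl
      omega
  have key : ∀ k (hk : k < R i), σ (.s i ⟨k, hk⟩) = .t i ⟨k, by omega⟩ := by
    intro k
    induction k with
    | zero =>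
      intro hk
      exact hs0 hk
    | succ k ih =>
      intro hk
      have ih := ih (by omega)
      have h3 : σ (.s' i ⟨k, by omega⟩) = .s i ⟨k, by omega⟩ := by
        obtain ⟨y, hy⟩ := σ.surjective (.s i ⟨k, by omega⟩)
        have h := hσ y
        rw [hy] at h
        rcases to_s h with rfl | rfl
        · exact absurd ((congrArg σ hy).trans ih) (h2 _)
        · exact hy
      obtain ⟨y, hy⟩ := σ.surjective (.t i ⟨k + 1, by omega⟩)
      have h := hσ y
      rw [hy] at h
      rcases to_t h with ⟨-, h4⟩ | ⟨l, rfl, hl⟩ | ⟨l, rfl, hl⟩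
      · simp only at h4
        omega
      · have : l = ⟨k + 1, hk⟩ := Fin.ext hl.symm
        rw [← this]
        exact hy
      · have : l = ⟨k, by omega⟩ := Fin.ext (by simp only at hl ⊢; omega)
        rw [this, h3] at hy
        exact absurd hy (by simp)
  intro k hk
  refine ⟨key k hk, ?_⟩
  by_cases hk1 : k + 1 < R i
  · rcases from_t (hσ (.t i ⟨k + 1, by omega⟩)) with ⟨-, h⟩ | ⟨l, h, hl⟩ | ⟨l, h, hl⟩
    · simp only at h
      omega
    · exfalso
      have : l = ⟨k + 1, hk1⟩ := Fin.ext hl.symm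
      rw [this] at h
      exact h2 _ ((congrArg σ h).trans (key (k + 1) hk1))
    · rw [h]
      congr 1
      exact Fin.ext (by simp only at hl ⊢; omega)
  · have h3 := hlast (by omega)
    have e1 : (⟨k + 1, by omega⟩ : Fin (R i + 1)) = Fin.last _ :=
      Fin.ext (by rw [Fin.val_last]; simp only; omega)
    rw [e1, h3]
    congr 1
    exact Fin.ext (by simp only; omega)

theorem active {i : Fin m} (h0 : σ (.t i 0) ≠ .c i.succ) : q i ∧ ∀ k : Fin (R i),
    (∃ x, σ (.s i k) = .w x ∧ A i k x) ∧ ∃ y, σ (.w y) = .s' i k ∧ A i k y := by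
  have hR : 0 < R i ∧ ∀ hR : 0 < R i, σ (.t i 0) = .s i ⟨0, hR⟩ := by
    rcases from_t (hσ (.t i 0)) with ⟨h, -⟩ | ⟨l, h, hl⟩ | ⟨l, h, hl⟩
    · exact absurd h h0
    · refine ⟨lt_of_le_of_lt (Nat.zero_le _) l.isLt, fun hR => ?_⟩
      rw [h]
      congr 1
      exact Fin.ext hl.symm
    · rw [Fin.val_zero] at hl
      omega
  have key : ∀ k (hk : k < R i), σ (.t i ⟨k, by omega⟩) = .s i ⟨k, hk⟩ ∧
      σ (.s' i ⟨k, hk⟩) = .t i ⟨k + 1, by omega⟩ := by
    intro k
    induction k with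
    | zero =>
      intro hk
      refine ⟨hR.2 hk, ?_⟩
      rcases from_s' (hσ (.s' i ⟨0, hk⟩)) with h | h
      · exact h
      · exact absurd (σ.injective (h.trans (hR.2 hk).symm)) (by simp)
    | succ k ih =>
      intro hk
      have ih := ih (by omega)
      have h3 : σ (.t i ⟨k + 1, by omega⟩) = .s i ⟨k + 1, hk⟩ := by
        rcases from_t (hσ (.t i ⟨k + 1, by omega⟩)) with ⟨-, h⟩ | ⟨l, h, hl⟩ | ⟨l, h, hl⟩
        · simp only at h
          omega
        · rw [h]
          congr 1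
          exact Fin.ext hl.symm
        · exfalso
          have : l = ⟨k, by omega⟩ := Fin.ext (by simp only at hl ⊢; omega)
          rw [this] at h
          exact h2 _ ((congrArg σ h).trans ih.2)
      refine ⟨h3, ?_⟩
      rcases from_s' (hσ (.s' i ⟨k + 1, hk⟩)) with h | h
      · exact h
      · exact absurd (σ.injective (h.trans h3.symm)) (by simp)
  have hs : ∀ k : Fin (R i), ∃ x, σ (.s i k) = .w x ∧ A i k x := by
    intro k
    rcases from_s (hσ (.s i k)) with h | h
    · exact absurd ((congrArg σ h).trans (key k.val k.isLt).1) (h2 _)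
    · exact h
  refine ⟨?_, fun k => ⟨hs k, ?_⟩⟩
  · obtain ⟨y, hy⟩ := σ.surjective (.t i 0)
    have h := hσ y
    rw [hy] at h
    rcases to_t h with ⟨rfl, h4⟩ | ⟨l, rfl, hl⟩ | ⟨l, rfl, hl⟩
    · rcases h4 with h4 | h4
      · exact h4.2
      · rw [Fin.val_zero] at h4
        omega
    · obtain ⟨x, hx, -⟩ := hs l
      rw [hy] at hx
      exact absurd hx (by simp)
    · rw [Fin.val_zero] at hl
      omega
  · obtain ⟨y, hy⟩ := σ.surjective (.s' i k)
    have h := hσ y
    rw [hy] at h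
    rcases to_s' h with rfl | ⟨x, rfl, hx⟩
    · exfalso
      exact h2 _ ((congrArg σ hy).trans (key k.val k.isLt).2)
    · exact ⟨x, hy, hx⟩

/-- Soundness. -/
theorem sound [Fintype U] {a : U} {b : V}
    (hside : ∀ i k a x, A i k (.inl a) → A i k x → ∃ a', x = .inl a')
    (ha : ∀ i k, q i → ¬ A i k (.inl a)) (hb : ∀ i k, q i → ¬ A i k (.inr b)) : z a b := by
  classical
  -- a detour only in active rows
  have hs : ∀ i (k : Fin (R i)) x, σ (.s i k) = .w x → σ (.t i 0) ≠ .c i.succ := by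
    intro i k x h h0
    have := (inactive hσ h2 h0 k.val k.isLt).1
    rw [show (⟨k.val, k.isLt⟩ : Fin (R i)) = k from rfl, h] at this
    exact absurd this (by simp)
  have hs' : ∀ i (k : Fin (R i)) x, σ (.w x) = .s' i k → σ (.t i 0) ≠ .c i.succ := by
    intro i k x h h0
    have := (inactive hσ h2 h0 k.val k.isLt).2
    exact absurd (σ.injective (this.trans h.symm)) (by simp)
  -- the vertex before `b`
  obtain ⟨u1, hu1, hz1⟩ : ∃ u1, σ (.w (.inl u1)) = .w (.inr b) ∧ z u1 b := by
    obtain ⟨y, hy⟩ := σ.surjective (.w (.inr b))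
    have h := hσ y
    rw [hy] at h
    rcases to_inr h with ⟨a', rfl, h⟩ | ⟨i, k, rfl, h⟩
    · exact ⟨a', hy, h⟩
    · exact absurd h (hb i k (active hσ h2 (hs i k _ hy)).1)
  -- the vertex after `a`
  obtain ⟨v1, hv1⟩ : ∃ v1, σ (.w (.inl a)) = .w (.inr v1) := by
    rcases from_inl (hσ (.w (.inl a))) with ⟨v1, h, -⟩ | ⟨i, k, h, h3⟩
    · exact ⟨v1, h⟩
    · exact absurd h3 (ha i k (active hσ h2 (hs' i k _ h)).1)
  by_contra hcon
  have hne : u1 ≠ a := by
    rintro rfl
    exact hcon hz1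
  -- the vertices with a detour
  have hφ : ∀ u : U, σ (.c (Fin.last m)) ≠ .w (.inl u) → ∃ u' : U, ∃ i, ∃ k : Fin (R i),
      σ (.s i k) = .w (.inl u) ∧ σ (.w (.inl u')) = .s' i k := by
    intro u hu
    obtain ⟨y, hy⟩ := σ.surjective (.w (.inl u))
    have h := hσ y
    rw [hy] at h
    rcases to_inl h with rfl | ⟨i, k, rfl, h⟩
    · exact absurd hy hu
    · obtain ⟨-, h3⟩ := active hσ h2 (hs i k _ hy)
      obtain ⟨x, hx1, hx2⟩ := (h3 k).2
      obtain ⟨a', rfl⟩ := hside i k u x h hx2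
      exact ⟨a', i, k, hy, hx1⟩
  obtain ⟨P, hP⟩ : ∃ P : Finset U, P = Finset.univ.filter
      (fun u => σ (.c (Fin.last m)) ≠ .w (.inl u)) := ⟨_, rfl⟩
  have hPc : Fintype.card U ≤ P.card + 1 := by
    have h3 : (Finset.univ.filter (fun u : U => σ (.c (Fin.last m)) = .w (.inl u))).card ≤ 1 := by
      rw [Finset.card_le_one]
      intro x hx y hy
      simp only [Finset.mem_filter, Finset.mem_univ, true_and] at hx hy
      have := hx.symm.trans hy
      simpa using this
    have h4 := Finset.card_filter_add_card_filter_not (s := (Finset.univ : Finset U))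
      (fun u : U => σ (.c (Fin.last m)) = .w (.inl u))
    rw [Finset.card_univ] at h4
    rw [hP]
    simp only [ne_eq]
    omega
  choose! φ hφ2 using hφ
  have hinj : Set.InjOn φ P := by
    intro u hu u' hu' h
    rw [Finset.mem_coe, hP, Finset.mem_filter] at hu hu'
    obtain ⟨i, k, h3, h4⟩ := hφ2 u hu.2
    obtain ⟨i', k', h3', h4'⟩ := hφ2 u' hu'.2
    rw [h, h4'] at h4
    rw [Vx.s'.injEq] at h4
    obtain ⟨rfl, h4⟩ := h4
    obtain rfl := eq_of_heq h4
    rw [h3] at h3'
    simpa using h3'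
  have himg : P.image φ ⊆ (Finset.univ.erase a).erase u1 := by
    intro x hx
    rw [Finset.mem_image] at hx
    obtain ⟨u, hu, rfl⟩ := hx
    rw [hP, Finset.mem_filter] at hu
    obtain ⟨i, k, h3, h4⟩ := hφ2 u hu.2
    rw [Finset.mem_erase, Finset.mem_erase]
    refine ⟨?_, ?_, Finset.mem_univ _⟩
    · intro hcon
      rw [hcon, hu1] at h4
      exact absurd h4 (by simp)
    · intro hcon
      rw [hcon, hv1] at h4
      exact absurd h4 (by simp)
  have h5 := Finset.card_le_card himg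
  rw [Finset.card_image_of_injOn hinj, Finset.card_erase_of_mem (by simp [hne]),
    Finset.card_erase_of_mem (Finset.mem_univ _), Finset.card_univ] at h5
  have h6 : 1 < Fintype.card U := by
    rw [← Finset.card_univ, Finset.one_lt_card]
    exact ⟨u1, Finset.mem_univ _, a, Finset.mem_univ _, hne⟩
  omega

end

end Pool.Agent.TH272.Nec.Ham
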