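import Pool.Agent.TH272.Nec.Ham1

set_option autoImplicit false

/-! # A gadget for Hamiltonian cycles: cycles in the undirected graph -/

namespace Pool.Agent.TH272.Nec.Ham

open Pool.Agent.H545R2

section lift

variable {X : Type} [Fintype X] [DecidableEq X]

/-- The edges between the ports: from the second port of `x` to the first port of `y` for every arc
from `x` to `y`. -/
def port (E : X → X → Prop) (p p' : X × Bool) : Prop := p.2 = true ∧ p'.2 = false ∧ E p.1 p'.1

theorem perm_of_ham {E : X → X → Prop} {f : X} {zf : ℕ} (h3 : 3 ≤ Fintype.card X)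
    (h : (segGraph (port E) f zf).IsHamiltonian) :
    ∃ σ : Equiv.Perm X, (∀ x, E x (σ x)) ∧ ∀ x, σ (σ x) ≠ x := by
  classical
  have hc : 3 ≤ Fintype.card (SegV X zf) := by
    refine h3.trans ?_
    refine Fintype.card_le_of_injective (fun x : X => (Sum.inl (x, none) : SegV X zf)) ?_
    intro x y hxy
    simpa using hxy
  obtain ⟨ν, h1, h2, h4⟩ := seg_matching hc h
  have ht : ∀ x, (ν (x, true)).2 = false ∧ E x (ν (x, true)).1 := by
    intro x
    rcases h2 (x, true) with h | h
    · exact ⟨h.2.1, h.2.2⟩
    · exact absurd h.2.1 (by simp)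
  have hf : ∀ x, (ν (x, false)).2 = true := by
    intro x
    rcases h2 (x, false) with h | h
    · exact absurd h.1 (by simp)
    · exact h.1
  have e1 : ∀ x, ((ν (x, true)).1, false) = ν (x, true) := fun x => Prod.ext rfl (ht x).1.symm
  have e2 : ∀ x, ((ν (x, false)).1, true) = ν (x, false) := fun x => Prod.ext rfl (hf x).symm
  refine ⟨⟨fun x => (ν (x, true)).1, fun x => (ν (x, false)).1, ?_, ?_⟩, fun x => (ht x).2, ?_⟩
  · intro x
    simp only [e1, h1]
  · intro x
    simp only [e2, h1]
  · intro x hx
    simp only [Equiv.coe_fn_mk] at hx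
    obtain ⟨y, hy⟩ : ∃ y, y = (ν (x, true)).1 := ⟨_, rfl⟩
    rw [← hy] at hx
    have g1 : ν (x, true) = (y, false) := by rw [← e1, hy]
    have g2 : ν (y, true) = (x, false) := by rw [← e1, hx]
    have g3 : ν (y, false) = (x, true) := by rw [← g1, h1]
    have g4 : ν (x, false) = (y, true) := by rw [← g2, h1]
    have h5 := h4 {p | p.1 = x ∨ p.1 = y} ⟨(x, true), Or.inl rfl⟩ (by
      rintro ⟨p, β⟩ hp
      simp only [Set.mem_ofPred_eq] at hp ⊢
      rcases hp with rfl | rfl <;> cases β
      · rw [g4]; exact Or.inr rfl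
      · rw [g1]; exact Or.inr rfl
      · rw [g3]; exact Or.inl rfl
      · rw [g2]; exact Or.inl rfl) (by
      rintro ⟨p, β⟩ hp
      exact hp)
    have h6 : (Finset.univ : Finset X) ⊆ {x, y} := by
      intro w _
      have : (w, true) ∈ ({p | p.1 = x ∨ p.1 = y} : Set (X × Bool)) := by rw [h5]; trivial
      simp only [Set.mem_ofPred_eq] at this
      simpa using this
    have h7 := Finset.card_le_card h6
    rw [Finset.card_univ] at h7
    have := Finset.card_le_two (a := x) (b := y)
    omega

theorem ham_of_list {E : X → X → Prop} {f : X} {zf : ℕ} (L : List X) (hch : L.IsChain E)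
    (hmem : ∀ x, x ∈ L) (hlen : L.length ≤ Fintype.card X)
    (hclose : ∀ x ∈ L.getLast?, ∀ y ∈ L.head?, E x y) :
    (segGraph (port E) f zf).IsHamiltonian := by
  classical
  have hnd : L.Nodup := by
    rw [← Multiset.coe_nodup, ← Multiset.toFinset_card_eq_card_iff_nodup]
    refine le_antisymm (Multiset.toFinset_card_le _) ?_
    have : (L : Multiset X).toFinset = Finset.univ := by
      ext x
      simp [hmem x]
    rw [this, Finset.card_univ, Multiset.coe_card]
    exact hlen
  refine seg_hamiltonian (L.map fun x => (x, false)) ?_ ?_ ?_ ?_ ?_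
  · rw [List.isChain_map]
    refine hch.imp ?_
    intro x y hxy
    exact Or.inl ⟨rfl, rfl, hxy⟩
  · rw [List.map_map, show (Prod.fst ∘ fun x : X => (x, false)) = id from rfl, List.map_id]
    exact hnd
  · intro x
    rw [List.map_map, show (Prod.fst ∘ fun x : X => (x, false)) = id from rfl, List.map_id]
    exact hmem x
  · intro p hp _
    rw [List.mem_map] at hp
    obtain ⟨x, -, rfl⟩ := hp
    rfl
  · intro x hx y hy
    rw [List.getLast?_map] at hx
    rw [List.head?_map] at hy
    simp only [Option.mem_def, Option.map_eq_some_iff] at hx hy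
    obtain ⟨x, hx, rfl⟩ := hx
    obtain ⟨y, hy, rfl⟩ := hy
    exact Or.inl ⟨rfl, rfl, hclose x hx y hy⟩

end lift

end Pool.Agent.TH272.Nec.Ham
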