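import Pool.Agent.TH272.Nec.Ham2

set_option autoImplicit false

/-! # A gadget for Hamiltonian cycles: the cycle -/

namespace Pool.Agent.TH272.Nec.Ham

open Pool.Agent.H545R2

variable {m : ℕ} {R : Fin m → ℕ} {U V : Type}

/-- The vertices as a sum. -/
def vxEquiv (R : Fin m → ℕ) (U V : Type) : Vx R U V ≃
    Fin (m + 1) ⊕ (Σ i, Fin (R i + 1)) ⊕ (Σ i, Fin (R i)) ⊕ (Σ i, Fin (R i)) ⊕ (U ⊕ V) where
  toFun x := match x with
    | .c i => .inl i
    | .t i k => .inr (.inl ⟨i, k⟩)
    | .s i k => .inr (.inr (.inl ⟨i, k⟩))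
    | .s' i k => .inr (.inr (.inr (.inl ⟨i, k⟩)))
    | .w x => .inr (.inr (.inr (.inr x)))
  invFun x := match x with
    | .inl i => .c i
    | .inr (.inl ⟨i, k⟩) => .t i k
    | .inr (.inr (.inl ⟨i, k⟩)) => .s i k
    | .inr (.inr (.inr (.inl ⟨i, k⟩))) => .s' i k
    | .inr (.inr (.inr (.inr x))) => .w x
  left_inv x := by cases x <;> rfl
  right_inv x := by rcases x with i | ⟨i, k⟩ | ⟨i, k⟩ | ⟨i, k⟩ | x <;> rfl

instance [Fintype U] [Fintype V] : Fintype (Vx R U V) := Fintype.ofEquiv _ (vxEquiv R U V).symm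

theorem card_vx [Fintype U] [Fintype V] : Fintype.card (Vx R U V) =
    m + 1 + (∑ i, (3 * R i + 1)) + (Fintype.card U + Fintype.card V) := by
  rw [Fintype.card_congr (vxEquiv R U V)]
  simp only [Fintype.card_sum, Fintype.card_fin, Fintype.card_sigma, Finset.sum_add_distrib,
    Finset.sum_const, Finset.card_univ, ← Finset.mul_sum, smul_eq_mul]
  ring

variable {A : (i : Fin m) → Fin (R i) → U ⊕ V → Prop} {q : Fin m → Prop} {z : U → V → Prop}

/-- The way through a row from the left to the right. -/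
def fwd (i : Fin m) (f : Fin (R i) → U ⊕ V) : (k : ℕ) → k ≤ R i → List (Vx R U V)
  | 0, _ => [.t i 0]
  | k + 1, h => fwd i f k (by omega) ++
      [.s i ⟨k, h⟩, .w (f ⟨k, h⟩), .s' i ⟨k, h⟩, .t i ⟨k + 1, by omega⟩]

/-- The way through a row from the right to the left. -/
def bwd (i : Fin m) : (k : ℕ) → k ≤ R i → List (Vx R U V)
  | 0, _ => [.t i 0]
  | k + 1, h => .t i ⟨k + 1, by omega⟩ :: .s' i ⟨k, h⟩ :: .s i ⟨k, h⟩ :: bwd i k (by omega)

theorem fwd_length (i : Fin m) (f : Fin (R i) → U ⊕ V) : ∀ k (h : k ≤ R i),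
    (fwd i f k h).length = 4 * k + 1
  | 0, _ => rfl
  | k + 1, h => by
    simp only [fwd, List.length_append, fwd_length i f k, List.length_cons, List.length_nil]
    omega

theorem bwd_length (i : Fin m) : ∀ k (h : k ≤ R i),
    (bwd i k h : List (Vx R U V)).length = 3 * k + 1
  | 0, _ => rfl
  | k + 1, h => by
    simp only [bwd, bwd_length i k, List.length_cons]
    omega

theorem fwd_head (i : Fin m) (f : Fin (R i) → U ⊕ V) : ∀ k (h : k ≤ R i),
    (fwd i f k h).head? = some (.t i 0)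
  | 0, _ => rfl
  | k + 1, h => by
    simp only [fwd, List.head?_append, fwd_head i f k]
    rfl

theorem fwd_last (i : Fin m) (f : Fin (R i) → U ⊕ V) : ∀ k (h : k ≤ R i),
    (fwd i f k h).getLast? = some (.t i ⟨k, by omega⟩)
  | 0, _ => rfl
  | k + 1, h => by
    simp only [fwd, List.getLast?_append]
    rfl

theorem bwd_head (i : Fin m) : ∀ k (h : k ≤ R i),
    (bwd i k h : List (Vx R U V)).head? = some (.t i ⟨k, by omega⟩)
  | 0, _ => rfl
  | _ + 1, _ => rfl

theorem bwd_last (i : Fin m) : ∀ k (h : k ≤ R i),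
    (bwd i k h : List (Vx R U V)).getLast? = some (.t i 0)
  | 0, _ => rfl
  | k + 1, h => by
    simp only [bwd]
    rw [List.getLast?_cons, List.getLast?_cons, List.getLast?_cons, bwd_last i k]
    rfl

theorem fwd_chain (i : Fin m) (f : Fin (R i) → U ⊕ V) (hf : ∀ k, A i k (f k)) :
    ∀ k (h : k ≤ R i), (fwd i f k h).IsChain (Arc A q z)
  | 0, _ => by simp [fwd]
  | k + 1, h => by
    simp only [fwd]
    rw [List.isChain_append]
    refine ⟨fwd_chain i f hf k _, ?_, ?_⟩
    · have h1 : Arc A q z (.s i ⟨k, h⟩) (.w (f ⟨k, h⟩)) := hf _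
      have h2 : Arc A q z (.w (f ⟨k, h⟩)) (.s' i ⟨k, h⟩) := by
        have := hf ⟨k, h⟩
        cases hx : f ⟨k, h⟩ with
        | inl a => rw [hx] at this; exact this
        | inr b => rw [hx] at this; exact this
      have h3 : Arc A q z (.s' i ⟨k, h⟩) (.t i ⟨k + 1, by omega⟩) := ⟨rfl, rfl⟩
      simp [h1, h2, h3]
    · intro x hx y hy
      rw [fwd_last] at hx
      simp only [List.head?_cons, Option.mem_def, Option.some.injEq] at hx hy
      subst hx hy
      exact ⟨rfl, rfl⟩

theorem bwd_chain (i : Fin m) : ∀ k (h : k ≤ R i),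
    (bwd i k h : List (Vx R U V)).IsChain (Arc A q z)
  | 0, _ => by simp [bwd]
  | k + 1, h => by
    simp only [bwd]
    rw [List.isChain_cons_cons, List.isChain_cons_cons, List.isChain_cons]
    refine ⟨⟨rfl, rfl⟩, ⟨rfl, rfl⟩, ?_, bwd_chain i k _⟩
    intro y hy
    rw [bwd_head] at hy
    simp only [Option.mem_def, Option.some.injEq] at hy
    subst hy
    exact ⟨rfl, rfl⟩

theorem fwd_mem (i : Fin m) (f : Fin (R i) → U ⊕ V) : ∀ k (h : k ≤ R i),
    (∀ l (hl : l ≤ k), .t i ⟨l, by omega⟩ ∈ fwd i f k h) ∧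
    ∀ l (hl : l < k), .s i ⟨l, by omega⟩ ∈ fwd i f k h ∧ .s' i ⟨l, by omega⟩ ∈ fwd i f k h ∧
      .w (f ⟨l, by omega⟩) ∈ fwd i f k h
  | 0, _ => by
    refine ⟨fun l hl => ?_, fun l hl => absurd hl (by omega)⟩
    obtain rfl : l = 0 := by omega
    simp [fwd]
  | k + 1, h => by
    obtain ⟨h1, h2⟩ := fwd_mem i f k (by omega)
    simp only [fwd, List.mem_append]
    refine ⟨fun l hl => ?_, fun l hl => ?_⟩
    · rcases Nat.lt_or_ge k l with h3 | h3
      · obtain rfl : l = k + 1 := by omega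
        right
        simp
      · exact Or.inl (h1 l h3)
    · rcases Nat.lt_or_ge l k with h3 | h3
      · obtain ⟨g1, g2, g3⟩ := h2 l h3
        exact ⟨Or.inl g1, Or.inl g2, Or.inl g3⟩
      · obtain rfl : l = k := by omega
        refine ⟨Or.inr ?_, Or.inr ?_, Or.inr ?_⟩ <;> simp

theorem bwd_mem (i : Fin m) : ∀ k (h : k ≤ R i),
    (∀ l (hl : l ≤ k), (.t i ⟨l, by omega⟩ : Vx R U V) ∈ bwd i k h) ∧
    ∀ l (hl : l < k), (.s i ⟨l, by omega⟩ : Vx R U V) ∈ bwd i k h ∧
      (.s' i ⟨l, by omega⟩ : Vx R U V) ∈ bwd i k h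
  | 0, _ => by
    refine ⟨fun l hl => ?_, fun l hl => absurd hl (by omega)⟩
    obtain rfl : l = 0 := by omega
    simp [bwd]
  | k + 1, h => by
    obtain ⟨h1, h2⟩ := bwd_mem i k (by omega)
    simp only [bwd, List.mem_cons]
    refine ⟨fun l hl => ?_, fun l hl => ?_⟩
    · rcases Nat.lt_or_ge k l with h3 | h3
      · obtain rfl : l = k + 1 := by omega
        exact Or.inl rfl
      · exact Or.inr (Or.inr (Or.inr (h1 l h3)))
    · rcases Nat.lt_or_ge l k with h3 | h3
      · obtain ⟨g1, g2⟩ := h2 l h3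
        exact ⟨Or.inr (Or.inr (Or.inr g1)), Or.inr (Or.inr (Or.inr g2))⟩
      · obtain rfl : l = k := by omega
        exact ⟨Or.inr (Or.inr (Or.inl rfl)), Or.inr (Or.inl rfl)⟩

open Classical in
/-- A row. -/
noncomputable def row (q : Fin m → Prop) (f : (i : Fin m) → Fin (R i) → U ⊕ V) (i : Fin m) :
    List (Vx R U V) :=
  if q i then fwd i (f i) (R i) le_rfl else bwd i (R i) le_rfl

/-- The way through the first rows. -/
noncomputable def path (q : Fin m → Prop) (f : (i : Fin m) → Fin (R i) → U ⊕ V) (a : U) (b : V) :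
    (i : ℕ) → i ≤ m → List (Vx R U V)
  | 0, _ => [.c (Fin.last m), .w (.inl a), .w (.inr b)]
  | i + 1, h => path q f a b i (by omega) ++ .c ⟨i, by omega⟩ :: row q f ⟨i, h⟩

theorem row_head (f : (i : Fin m) → Fin (R i) → U ⊕ V) (i : Fin m) :
    ∀ y ∈ (row q f i).head?, Arc A q z (.c i.castSucc) y := by
  intro y hy
  unfold row at hy
  split_ifs at hy with h
  · rw [fwd_head] at hy
    simp only [Option.mem_def, Option.some.injEq] at hy
    subst hy
    exact ⟨rfl, Or.inl ⟨rfl, h⟩⟩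
  · rw [bwd_head] at hy
    simp only [Option.mem_def, Option.some.injEq] at hy
    subst hy
    exact ⟨rfl, Or.inr rfl⟩

theorem row_last (f : (i : Fin m) → Fin (R i) → U ⊕ V) (i : Fin m) :
    ∃ x, (row q f i).getLast? = some x ∧ Arc A q z x (.c i.succ) := by
  unfold row
  split_ifs with h
  · exact ⟨_, fwd_last _ _ _ _, rfl, Or.inr rfl⟩
  · exact ⟨_, bwd_last _ _ _, rfl, Or.inl rfl⟩

theorem row_chain (f : (i : Fin m) → Fin (R i) → U ⊕ V) (hf : ∀ i, q i → ∀ k, A i k (f i k))
    (i : Fin m) : (row q f i).IsChain (Arc A q z) := by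
  unfold row
  split_ifs with h
  · exact fwd_chain i (f i) (hf i h) _ _
  · exact bwd_chain i _ _

theorem path_head (f : (i : Fin m) → Fin (R i) → U ⊕ V) (a : U) (b : V) : ∀ i (h : i ≤ m),
    (path q f a b i h).head? = some (.c (Fin.last m))
  | 0, _ => rfl
  | i + 1, h => by
    simp only [path, List.head?_append, path_head f a b i]
    rfl

theorem path_last (f : (i : Fin m) → Fin (R i) → U ⊕ V) (a : U) (b : V) : ∀ i (h : i ≤ m),
    ∃ x, (path q f a b i h).getLast? = some x ∧ Arc A q z x (.c ⟨i, by omega⟩)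
  | 0, _ => ⟨_, rfl, rfl⟩
  | i + 1, h => by
    obtain ⟨x, h1, h2⟩ := row_last (A := A) (q := q) (z := z) f ⟨i, h⟩
    refine ⟨x, ?_, h2⟩
    simp only [path, List.getLast?_append, List.getLast?_cons, h1]
    rfl

theorem path_chain (f : (i : Fin m) → Fin (R i) → U ⊕ V) (hf : ∀ i, q i → ∀ k, A i k (f i k))
    (a : U) (b : V) (hz : z a b) : ∀ i (h : i ≤ m), (path q f a b i h).IsChain (Arc A q z)
  | 0, _ => by
    have h1 : Arc A q z (.c (Fin.last m)) (.w (.inl a)) := rfl
    have h2 : Arc A q z (.w (.inl a)) (.w (.inr b)) := hz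
    simp [path, h1, h2]
  | i + 1, h => by
    simp only [path]
    rw [List.isChain_append, List.isChain_cons]
    refine ⟨path_chain f hf a b hz i _, ⟨?_, row_chain f hf _⟩, ?_⟩
    · exact row_head f ⟨i, h⟩
    · intro x hx y hy
      obtain ⟨x', h1, h2⟩ := path_last (A := A) (q := q) (z := z) f a b i (by omega)
      rw [h1] at hx
      simp only [List.head?_cons, Option.mem_def, Option.some.injEq] at hx hy
      subst hx hy
      exact h2

theorem path_mem (f : (i : Fin m) → Fin (R i) → U ⊕ V) (a : U) (b : V) : ∀ i (h : i ≤ m),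
    .w (.inl a) ∈ path q f a b i h ∧ .w (.inr b) ∈ path q f a b i h ∧
      .c (Fin.last m) ∈ path q f a b i h ∧
      ∀ j (hj : j < i), .c ⟨j, by omega⟩ ∈ path q f a b i h ∧
        ∀ x ∈ row q f ⟨j, by omega⟩, x ∈ path q f a b i h
  | 0, _ => by simp [path]
  | i + 1, h => by
    obtain ⟨h1, h2, h3, h4⟩ := path_mem f a b i (by omega)
    simp only [path, List.mem_append, List.mem_cons]
    refine ⟨Or.inl h1, Or.inl h2, Or.inl h3, fun j hj => ?_⟩
    rcases Nat.lt_or_ge j i with h5 | h5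
    · exact ⟨Or.inl (h4 j h5).1, fun x hx => Or.inl ((h4 j h5).2 x hx)⟩
    · obtain rfl : j = i := by omega
      exact ⟨Or.inr (Or.inl rfl), fun x hx => Or.inr (Or.inr hx)⟩

open Classical in
theorem path_length (f : (i : Fin m) → Fin (R i) → U ⊕ V) (a : U) (b : V) : ∀ i (h : i ≤ m),
    (path q f a b i h).length = 3 + ∑ j : Fin i,
      (2 + 3 * R (Fin.castLE h j) + if q (Fin.castLE h j) then R (Fin.castLE h j) else 0)
  | 0, _ => rfl
  | i + 1, h => by
    simp only [path, List.length_append, List.length_cons, path_length f a b i]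
    rw [Fin.sum_univ_castSucc]
    have e1 : Fin.castLE h (Fin.last i) = ⟨i, h⟩ := rfl
    have e2 : ∀ j : Fin i, Fin.castLE h j.castSucc = Fin.castLE (by omega) j := fun j => rfl
    have e3 : (row q f ⟨i, h⟩ : List (Vx R U V)).length =
        3 * R ⟨i, h⟩ + 1 + if q ⟨i, h⟩ then R ⟨i, h⟩ else 0 := by
      unfold row
      split_ifs with h5
      · rw [fwd_length]; omega
      · rw [bwd_length]
    rw [e1, e3]
    simp only [e2]
    omega

open Classical in
/-- Completeness. -/
theorem complete [Fintype U] [Fintype V] {g : Vx R U V} {zf : ℕ} (a : U) (b : V) (hz : z a b)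
    (f : (i : Fin m) → Fin (R i) → U ⊕ V) (hf : ∀ i, q i → ∀ k, A i k (f i k))
    (hsurj : ∀ x, x = .inl a ∨ x = .inr b ∨ ∃ i, q i ∧ ∃ k, f i k = x)
    (hcard : (∑ i, if q i then R i else 0) + 2 ≤ Fintype.card U + Fintype.card V) :
    (segGraph (port (Arc A q z)) g zf).IsHamiltonian := by
  obtain ⟨h1, h2, h3, h4⟩ := path_mem (q := q) f a b m le_rfl
  refine ham_of_list (path q f a b m le_rfl) (path_chain f hf a b hz m _) (fun x => ?_) ?_ ?_
  · cases x with
    | c i =>
      refine Fin.lastCases h3 (fun i => ?_) i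
      exact (h4 i.val i.isLt).1
    | t i k =>
      refine (h4 i.val i.isLt).2 _ ?_
      unfold row
      split_ifs with h
      · exact (fwd_mem i (f i) (R i) le_rfl).1 k.val (by omega)
      · exact (bwd_mem i (R i) le_rfl).1 k.val (by omega)
    | s i k =>
      refine (h4 i.val i.isLt).2 _ ?_
      unfold row
      split_ifs with h
      · exact ((fwd_mem i (f i) (R i) le_rfl).2 k.val k.isLt).1
      · exact ((bwd_mem i (R i) le_rfl).2 k.val k.isLt).1
    | s' i k =>
      refine (h4 i.val i.isLt).2 _ ?_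
      unfold row
      split_ifs with h
      · exact ((fwd_mem i (f i) (R i) le_rfl).2 k.val k.isLt).2.1
      · exact ((bwd_mem i (R i) le_rfl).2 k.val k.isLt).2
    | w x =>
      rcases hsurj x with rfl | rfl | ⟨i, hq, k, rfl⟩
      · exact h1
      · exact h2
      · refine (h4 i.val i.isLt).2 _ ?_
        unfold row
        rw [if_pos (show q ⟨i.val, _⟩ from hq)]
        exact ((fwd_mem i (f i) (R i) le_rfl).2 k.val k.isLt).2.2
  · rw [path_length, card_vx]
    have e : ∀ j : Fin m, Fin.castLE le_rfl j = j := fun j => rfl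
    simp only [e, Finset.sum_add_distrib, Finset.sum_const, Finset.card_univ, Fintype.card_fin,
      smul_eq_mul]
    omega
  · intro x hx y hy
    obtain ⟨x', h5, h6⟩ := path_last (A := A) (q := q) (z := z) f a b m le_rfl
    rw [h5] at hx
    rw [path_head] at hy
    simp only [Option.mem_def, Option.some.injEq] at hx hy
    subst hx hy
    exact h6

end Pool.Agent.TH272.Nec.Ham
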