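import Pool.Agent.TH272.Nec.Ham3

set_option autoImplicit false

/-! # A gadget for Hamiltonian cycles: two addresses -/

namespace Pool.Agent.TH272.Nec.Ham

open Pool.Agent.H545R2

variable {ℓ : ℕ}

/-- The index of a row: the side, the value of a bit, and its number. -/
abbrev Rw (ℓ : ℕ) : Type := Bool × Bool × Fin ℓ

/-- The numbers of the rows. -/
noncomputable def rw (ℓ : ℕ) : Fin (Fintype.card (Rw ℓ)) ≃ Rw ℓ := (Fintype.equivFin (Rw ℓ)).symm

/-- The tails of the addresses. -/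
abbrev Tl (j : Fin ℓ) : Type := {i : Fin ℓ // j < i} → Bool

/-- The numbers of the tails. -/
noncomputable def tl (j : Fin ℓ) : Fin (Fintype.card (Tl j)) ≃ Tl j :=
  (Fintype.equivFin (Tl j)).symm

/-- The lengths of the rows. -/
noncomputable def len (ℓ : ℕ) (i : Fin (Fintype.card (Rw ℓ))) : ℕ :=
  Fintype.card (Tl ((rw ℓ) i).2.2)

/-- The address of a side. -/
def adr (a b : Fin ℓ → Bool) : Bool → Fin ℓ → Bool
  | false => a
  | true => b

/-- The detours. -/
def det (ℓ : ℕ) (i : Fin (Fintype.card (Rw ℓ))) (k : Fin (len ℓ i))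
    (x : (Fin ℓ → Bool) ⊕ (Fin ℓ → Bool)) : Prop :=
  ∃ u, x = (if ((rw ℓ) i).1 then .inr u else .inl u) ∧ u ((rw ℓ) i).2.2 = ((rw ℓ) i).2.1 ∧
    ∀ i', u i'.1 = tl ((rw ℓ) i).2.2 k i'

/-- The rows which can be passed from the left to the right. -/
def qry (a b : Fin ℓ → Bool) (i : Fin (Fintype.card (Rw ℓ))) : Prop :=
  adr a b ((rw ℓ) i).1 ((rw ℓ) i).2.2 ≠ ((rw ℓ) i).2.1

/-- The vertices. -/
abbrev Vt (ℓ : ℕ) : Type := Vx (len ℓ) (Fin ℓ → Bool) (Fin ℓ → Bool)

theorem card_tl (j : Fin ℓ) : Fintype.card (Tl j) = 2 ^ (ℓ - 1 - j.val) := by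
  rw [Fintype.card_fun, Fintype.card_bool]
  congr 1
  rw [Fintype.card_subtype]
  have : (Finset.univ.filter fun i : Fin ℓ => j < i) = Finset.Ioi j := by
    ext i
    simp
  rw [this, Fin.card_Ioi]

theorem sum_tl (ℓ : ℕ) : (∑ j : Fin ℓ, Fintype.card (Tl j)) + 1 = 2 ^ ℓ := by
  simp only [card_tl]
  rw [Fin.sum_univ_eq_sum_range (fun j => 2 ^ (ℓ - 1 - j)) ℓ,
    Finset.sum_range_reflect (fun j => 2 ^ j) ℓ]
  induction ℓ with
  | zero => rfl
  | succ ℓ ih => rw [Finset.sum_range_succ, pow_succ]; omega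

theorem sum_rows (f : Rw ℓ → ℕ) : ∑ i, f ((rw ℓ) i) = ∑ s, ∑ b, ∑ j, f (s, b, j) := by
  rw [Equiv.sum_comp (rw ℓ) f, Fintype.sum_prod_type]
  refine Finset.sum_congr rfl fun s _ => ?_
  rw [Fintype.sum_prod_type]

theorem card_vt (ℓ : ℕ) : Fintype.card (Vt ℓ) + 11 = 14 * 2 ^ ℓ + 8 * ℓ := by
  rw [card_vx]
  have h1 : ∑ i, (3 * len ℓ i + 1) = ∑ s : Bool, ∑ b : Bool, ∑ j : Fin ℓ,
      (3 * Fintype.card (Tl j) + 1) := sum_rows (fun r => 3 * Fintype.card (Tl r.2.2) + 1)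
  have h3 : (∑ s : Bool, ∑ b : Bool, ∑ j : Fin ℓ, (3 * Fintype.card (Tl j) + 1)) =
      12 * (∑ j : Fin ℓ, Fintype.card (Tl j)) + 4 * ℓ := by
    simp only [Finset.sum_add_distrib, ← Finset.mul_sum, Finset.sum_const, Finset.card_univ,
      Fintype.card_bool, Fintype.card_fin, smul_eq_mul]
    ring
  have h2 := sum_tl ℓ
  have h4 : Fintype.card (Rw ℓ) = 4 * ℓ := by
    rw [Fintype.card_prod, Fintype.card_prod, Fintype.card_bool, Fintype.card_fin]
    ring
  have h5 : Fintype.card (Fin ℓ → Bool) = 2 ^ ℓ := by simp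
  rw [h1, h3, h4, h5]
  omega

theorem det_inl {i : Fin (Fintype.card (Rw ℓ))} {k : Fin (len ℓ i)} {a : Fin ℓ → Bool}
    (h : det ℓ i k (.inl a)) : ((rw ℓ) i).1 = false ∧ a ((rw ℓ) i).2.2 = ((rw ℓ) i).2.1 := by
  obtain ⟨u, h1, h2, -⟩ := h
  by_cases hs : ((rw ℓ) i).1 = true
  · rw [if_pos hs] at h1
    exact absurd h1 (by simp)
  · rw [if_neg hs, Sum.inl.injEq] at h1
    subst h1
    exact ⟨by simpa using hs, h2⟩

theorem det_inr {i : Fin (Fintype.card (Rw ℓ))} {k : Fin (len ℓ i)} {b : Fin ℓ → Bool}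
    (h : det ℓ i k (.inr b)) : ((rw ℓ) i).1 = true ∧ b ((rw ℓ) i).2.2 = ((rw ℓ) i).2.1 := by
  obtain ⟨u, h1, h2, -⟩ := h
  by_cases hs : ((rw ℓ) i).1 = true
  · rw [if_pos hs, Sum.inr.injEq] at h1
    subst h1
    exact ⟨hs, h2⟩
  · rw [if_neg hs] at h1
    exact absurd h1 (by simp)

open Classical in
/-- The way through the active rows. -/
noncomputable def way (a b : Fin ℓ → Bool) (i : Fin (Fintype.card (Rw ℓ))) (k : Fin (len ℓ i)) :
    (Fin ℓ → Bool) ⊕ (Fin ℓ → Bool) :=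
  if ((rw ℓ) i).1 then
    .inr fun i' => if h : ((rw ℓ) i).2.2 < i' then tl ((rw ℓ) i).2.2 k ⟨i', h⟩ else
      if i' = ((rw ℓ) i).2.2 then ((rw ℓ) i).2.1 else b i'
  else
    .inl fun i' => if h : ((rw ℓ) i).2.2 < i' then tl ((rw ℓ) i).2.2 k ⟨i', h⟩ else
      if i' = ((rw ℓ) i).2.2 then ((rw ℓ) i).2.1 else a i'

theorem way_det (a b : Fin ℓ → Bool) (i : Fin (Fintype.card (Rw ℓ))) (k : Fin (len ℓ i)) :
    det ℓ i k (way a b i k) := by
  unfold way
  by_cases hs : ((rw ℓ) i).1 = true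
  · rw [if_pos hs]
    refine ⟨_, by rw [if_pos hs], ?_, fun i' => ?_⟩
    · rw [dif_neg (lt_irrefl _), if_pos rfl]
    · rw [dif_pos i'.2]
  · rw [if_neg hs]
    refine ⟨_, by rw [if_neg hs], ?_, fun i' => ?_⟩
    · rw [dif_neg (lt_irrefl _), if_pos rfl]
    · rw [dif_pos i'.2]

/-- The first place where two addresses differ. -/
theorem exists_first {u a : Fin ℓ → Bool} (h : u ≠ a) :
    ∃ j, u j ≠ a j ∧ ∀ i < j, u i = a i := by
  classical
  obtain ⟨j, hj⟩ : ∃ j, u j ≠ a j := by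
    by_contra hcon
    push Not at hcon
    exact h (funext hcon)
  obtain ⟨j0, h1, h2⟩ := (Finset.univ.filter fun j => u j ≠ a j).exists_min_image id
    ⟨j, by simp [hj]⟩
  simp only [Finset.mem_filter, Finset.mem_univ, true_and, id] at h1 h2
  refine ⟨j0, h1, fun i hi => ?_⟩
  by_contra hcon
  exact absurd (h2 i hcon) (not_le.2 hi)

theorem way_surj (a b : Fin ℓ → Bool) (x : (Fin ℓ → Bool) ⊕ (Fin ℓ → Bool)) :
    x = .inl a ∨ x = .inr b ∨ ∃ i, qry a b i ∧ ∃ k, way a b i k = x := by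
  classical
  rcases x with u | v
  · by_cases h : u = a
    · exact Or.inl (by rw [h])
    · obtain ⟨j, h1, h2⟩ := exists_first h
      refine Or.inr (Or.inr ?_)
      obtain ⟨i, hi⟩ : ∃ i, (rw ℓ) i = (false, u j, j) := (rw ℓ).surjective _
      refine ⟨i, ?_, ?_⟩
      · unfold qry
        rw [hi]
        exact h1.symm
      · have hi1 : ((rw ℓ) i).1 = false := by rw [hi]
        have hi2 : ((rw ℓ) i).2.2 = j := by rw [hi]
        have hi3 : ((rw ℓ) i).2.1 = u j := by rw [hi]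
        obtain ⟨k, hk⟩ := (tl ((rw ℓ) i).2.2).surjective fun i' => u i'.1
        refine ⟨k, ?_⟩
        unfold way
        rw [if_neg (by rw [hi1]; simp), Sum.inl.injEq]
        funext i'
        rw [hk]
        split_ifs with g1 g2
        · rfl
        · rw [hi3, g2, hi2]
        · rw [hi2] at g1 g2
          exact (h2 i' (lt_of_le_of_ne (not_lt.1 g1) g2)).symm
  · by_cases h : v = b
    · exact Or.inr (Or.inl (by rw [h]))
    · obtain ⟨j, h1, h2⟩ := exists_first h
      refine Or.inr (Or.inr ?_)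
      obtain ⟨i, hi⟩ : ∃ i, (rw ℓ) i = (true, v j, j) := (rw ℓ).surjective _
      refine ⟨i, ?_, ?_⟩
      · unfold qry
        rw [hi]
        exact h1.symm
      · have hi1 : ((rw ℓ) i).1 = true := by rw [hi]
        have hi2 : ((rw ℓ) i).2.2 = j := by rw [hi]
        have hi3 : ((rw ℓ) i).2.1 = v j := by rw [hi]
        obtain ⟨k, hk⟩ := (tl ((rw ℓ) i).2.2).surjective fun i' => v i'.1
        refine ⟨k, ?_⟩
        unfold way
        rw [if_pos hi1, Sum.inr.injEq]
        funext i'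
        rw [hk]
        split_ifs with g1 g2
        · rfl
        · rw [hi3, g2, hi2]
        · rw [hi2] at g1 g2
          exact (h2 i' (lt_of_le_of_ne (not_lt.1 g1) g2)).symm

open Classical in
theorem sum_qry (a b : Fin ℓ → Bool) :
    (∑ i, if qry a b i then len ℓ i else 0) + 2 = 2 * 2 ^ ℓ := by
  have h1 : ∑ i, (if qry a b i then len ℓ i else 0) = ∑ s : Bool, ∑ c : Bool, ∑ j : Fin ℓ,
      if adr a b s j ≠ c then Fintype.card (Tl j) else 0 := by
    refine (Finset.sum_congr rfl fun i _ => ?_).trans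
      (sum_rows (fun r => if adr a b r.1 r.2.2 ≠ r.2.1 then Fintype.card (Tl r.2.2) else 0))
    unfold qry len
    congr
  rw [h1]
  have h2 : ∀ s : Bool, ∑ c : Bool, ∑ j : Fin ℓ,
      (if adr a b s j ≠ c then Fintype.card (Tl j) else 0) = ∑ j : Fin ℓ, Fintype.card (Tl j) := by
    intro s
    rw [Finset.sum_comm]
    refine Finset.sum_congr rfl fun j _ => ?_
    rw [Fintype.sum_bool]
    cases adr a b s j <;> simp
  simp only [h2, Fintype.sum_bool]
  have h3 := sum_tl ℓ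
  omega

/-- The graph. -/
noncomputable def HG (ℓ zf : ℕ) (z : (Fin ℓ → Bool) → (Fin ℓ → Bool) → Prop)
    (a b : Fin ℓ → Bool) : SimpleGraph (SegV (Vt ℓ) zf) :=
  segGraph (port (Arc (det ℓ) (qry a b) z)) (.c 0) zf

noncomputable instance : DecidableEq (Vt ℓ) := Classical.decEq _

theorem ham_iff (zf : ℕ) (z : (Fin ℓ → Bool) → (Fin ℓ → Bool) → Prop) (a b : Fin ℓ → Bool) :
    (HG ℓ zf z a b).IsHamiltonian ↔ z a b := by
  have h3 : 3 ≤ Fintype.card (Vt ℓ) := by
    have := card_vt ℓ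
    have := Nat.one_le_two_pow (n := ℓ)
    omega
  constructor
  · intro h
    obtain ⟨σ, h1, h2⟩ := perm_of_ham h3 h
    refine sound h1 h2 ?_ ?_ ?_
    · intro i k a' x h3 h4
      cases x with
      | inl u => exact ⟨u, rfl⟩
      | inr v =>
        have := (det_inl h3).1
        rw [(det_inr h4).1] at this
        exact absurd this (by simp)
    · intro i k hq hd
      obtain ⟨g1, g2⟩ := det_inl hd
      unfold qry at hq
      rw [g1] at hq
      exact hq g2
    · intro i k hq hd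
      obtain ⟨g1, g2⟩ := det_inr hd
      unfold qry at hq
      rw [g1] at hq
      exact hq g2
  · intro h
    refine complete a b h (way a b) (fun i _ k => way_det a b i k) (way_surj a b) ?_
    have h1 := sum_qry a b
    simp only [Fintype.card_fun, Fintype.card_bool, Fintype.card_fin]
    convert (le_of_eq h1).trans (le_of_eq (two_mul _)) using 2

end Pool.Agent.TH272.Nec.Ham
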