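import Pool.Agent.TH272.Nec.Ham4
import Pool.Agent.TH272.Nec.Block
import Pool.Agent.TH272.Nec.Asym

set_option autoImplicit false
set_option linter.unusedSectionVars false

/-! # Hamiltonicity: one block -/

namespace Pool.Agent.TH272.Nec.Ham

open Finset Pool.Agent.H545R2

theorem card_T {n w : ℕ} {κ : Type} {α : Type} [Fintype α] (block : Sym2 (Fin n) → κ)
    [DecidableEq κ] (i : κ) (hB : IsMatchingBlock block w i)
    (x y : α → Fin n) (hy : Function.Injective y) :
    Fintype.card α ^ 2 ≤ Fintype.card {ab : α × α // block s(x ab.1, y ab.2) ≠ i} +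
      Fintype.card α := by
  classical
  have h1 : Fintype.card {ab : α × α // block s(x ab.1, y ab.2) = i} ≤ Fintype.card α := by
    refine Fintype.card_le_of_injective (fun ab => ab.1.1) ?_
    rintro ⟨⟨a, b⟩, h⟩ ⟨⟨a', b'⟩, h'⟩ hab
    simp only at hab
    subst hab
    have h3 := hB.1 _ _ h h' (x a) (by simp) (by simp)
    simp only [Sym2.eq_iff] at h3
    rcases h3 with h3 | h3
    · have := hy h3.2
      subst this
      rfl
    · have := hy (h3.2.trans h3.1)
      subst this
      rfl
  have h2 := Fintype.card_subtype_compl (fun ab : α × α => block s(x ab.1, y ab.2) = i)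
  rw [Fintype.card_prod] at h2
  have h3 : Fintype.card {ab : α × α // block s(x ab.1, y ab.2) = i} ≤
      Fintype.card α * Fintype.card α := by
    refine (Fintype.card_subtype_le _).trans (le_of_eq ?_)
    rw [Fintype.card_prod]
  have e1 : Fintype.card α ^ 2 = Fintype.card α * Fintype.card α := sq _
  show Fintype.card α ^ 2 ≤ Fintype.card {ab : α × α // ¬ block s(x ab.1, y ab.2) = i} +
    Fintype.card α
  omega

/-- A bijection which extends a given injection. -/
theorem exists_equiv {α X : Type} [Fintype X] {n : ℕ} (ψ : α ↪ X) (g : α ↪ Fin n)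
    (hX : Fintype.card X = n) : ∃ e : X ≃ Fin n, ∀ a, e (ψ a) = g a := by
  classical
  let e0 : X ≃ Fin n := Fintype.equivFinOfCardEq hX
  let f1 : α ≃ Set.range (fun a => e0 (ψ a)) :=
    Equiv.ofInjective _ (e0.injective.comp ψ.injective)
  let f2 : α ≃ Set.range g := Equiv.ofInjective _ g.injective
  let f3 : {x // x ∈ Set.range (fun a => e0 (ψ a))} ≃ {x // x ∈ Set.range g} :=
    f1.symm.trans f2
  refine ⟨e0.trans f3.extendSubtype, fun a => ?_⟩
  rw [Equiv.trans_apply, Equiv.extendSubtype_apply_of_mem _ _ ⟨a, rfl⟩]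
  have : (⟨e0 (ψ a), ⟨a, rfl⟩⟩ : {x // x ∈ Set.range (fun a => e0 (ψ a))}) = f1 a := rfl
  simp only [f3, Equiv.trans_apply]
  rw [this, Equiv.symm_apply_apply]
  rfl

theorem ham_mono_iso {X Y : Type} [Fintype X] [Fintype Y] [DecidableEq X] [DecidableEq Y]
    {G : SimpleGraph X} {H : SimpleGraph Y} (φ : G ≃g H) (h : G.IsHamiltonian) :
    H.IsHamiltonian := by
  intro hc
  obtain ⟨a, p, hp⟩ := h (by rwa [Fintype.card_congr φ.toEquiv])
  exact ⟨_, p.map φ.toHom, hp.map φ.bijective⟩

theorem ham_iso {X Y : Type} [Fintype X] [Fintype Y] [DecidableEq X] [DecidableEq Y]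
    {G : SimpleGraph X} {H : SimpleGraph Y} (φ : G ≃g H) : H.IsHamiltonian ↔ G.IsHamiltonian :=
  ⟨ham_mono_iso φ.symm, ham_mono_iso φ⟩

theorem adj_of {M : Type} {S S' : M × Bool → M × Bool → Prop} {f : M} {zf : ℕ}
    {x y : SegV M zf} (h : (segGraph S f zf).Adj x y)
    (hS : ∀ p p' : M × Bool, x = .inl (p.1, some p.2) → y = .inl (p'.1, some p'.2) →
      (S p p' → S' p p') ∧ (S p' p → S' p' p)) : (segGraph S' f zf).Adj x y := by
  unfold segGraph at h ⊢
  rw [SimpleGraph.fromRel_adj] at h ⊢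
  refine ⟨h.1, ?_⟩
  rcases h.2 with h | h
  · left
    cases h with
    | port m m' β β' hR => exact .port m m' β β' ((hS (m, β) (m', β') rfl rfl).1 hR)
    | mid m β hβ => exact .mid m β hβ
    | midf j hj => exact .midf j hj
    | ff j j' hj => exact .ff j j' hj
    | fp j hj => exact .fp j hj
  · right
    cases h with
    | port m m' β β' hR => exact .port m m' β β' ((hS (m', β') (m, β) rfl rfl).2 hR)
    | mid m β hβ => exact .mid m β hβ
    | midf j hj => exact .midf j hj
    | ff j j' hj => exact .ff j j' hj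
    | fp j hj => exact .fp j hj

variable {ℓ : ℕ}

/-- The pairs which decide in which way the rows can be passed. -/
theorem arc_q {a b a' b' : Fin ℓ → Bool} {z : (Fin ℓ → Bool) → (Fin ℓ → Bool) → Prop}
    {p p' : Vt ℓ × Bool} (h : port (Arc (det ℓ) (qry a b) z) p p')
    (hp : ∀ j, ¬ (p = (.c j.castSucc, true) ∧ p' = (.t j 0, false))) :
    port (Arc (det ℓ) (qry a' b') z) p p' := by
  obtain ⟨h1, h2, h3⟩ := h
  refine ⟨h1, h2, ?_⟩
  obtain ⟨x, β⟩ := p
  obtain ⟨y, β'⟩ := p'
  simp only at h1 h2 h3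
  subst h1 h2
  cases x with
  | c i =>
    cases y with
    | t j k =>
      obtain ⟨rfl, h3⟩ := h3
      refine ⟨rfl, Or.inr ?_⟩
      rcases h3 with ⟨h3, -⟩ | h3
      · exfalso
        apply hp j
        refine ⟨rfl, ?_⟩
        rw [show k = 0 from Fin.ext h3]
      · exact h3
    | c j => exact h3
    | s j k => exact h3
    | s' j k => exact h3
    | w x => exact (by cases x <;> exact h3)
  | t i k => exact (by cases y <;> exact h3)
  | s i k => exact (by cases y <;> exact h3)
  | s' i k => exact (by cases y <;> exact h3)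
  | w x =>
    cases x with
    | inl u =>
      cases y with
      | w y => exact (by cases y <;> exact h3)
      | c j => exact h3
      | s j k => exact h3
      | s' j k => exact h3
      | t j k => exact h3
    | inr u =>
      cases y with
      | w y => exact (by cases y <;> exact h3)
      | c j => exact h3
      | s j k => exact h3
      | s' j k => exact h3
      | t j k => exact h3

/-- The pairs which encode the string. -/
theorem arc_z {a b : Fin ℓ → Bool} {z z' : (Fin ℓ → Bool) → (Fin ℓ → Bool) → Prop}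
    {p p' : Vt ℓ × Bool} (h : port (Arc (det ℓ) (qry a b) z) p p')
    (hp : ∀ u v, p = (.w (.inl u), true) → p' = (.w (.inr v), false) → z u v → z' u v) :
    port (Arc (det ℓ) (qry a b) z') p p' := by
  obtain ⟨h1, h2, h3⟩ := h
  refine ⟨h1, h2, ?_⟩
  obtain ⟨x, β⟩ := p
  obtain ⟨y, β'⟩ := p'
  simp only at h1 h2 h3
  subst h1 h2
  cases x with
  | c i =>
    cases y with
    | w y => exact (by cases y <;> exact h3)
    | c j => exact h3
    | s j k => exact h3
    | s' j k => exact h3
    | t j k => exact h3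
  | t i k => exact (by cases y <;> exact h3)
  | s i k => exact (by cases y <;> exact h3)
  | s' i k => exact (by cases y <;> exact h3)
  | w x =>
    cases x with
    | inl u =>
      cases y with
      | w y =>
        cases y with
        | inl v => exact h3
        | inr v => exact hp u v rfl rfl h3
      | c j => exact h3
      | s j k => exact h3
      | s' j k => exact h3
      | t j k => exact h3
    | inr u =>
      cases y with
      | w y => exact (by cases y <;> exact h3)
      | c j => exact h3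
      | s j k => exact h3
      | s' j k => exact h3
      | t j k => exact h3

variable {n w : ℕ} {κ : Type} [DecidableEq κ] {Ω : Type} [Fintype Ω]

/-- The places of the string. -/
abbrev Pl {zf : ℕ} (block : Sym2 (Fin n) → κ) (i : κ) (e : SegV (Vt ℓ) zf ≃ Fin n) : Type :=
  {ab : (Fin ℓ → Bool) × (Fin ℓ → Bool) //
    block s(e (.inl (.w (.inl ab.1), some true)), e (.inl (.w (.inr ab.2), some false))) ≠ i}

/-- The graph on the vertices `Fin n`. -/
noncomputable def GG {zf : ℕ} (block : Sym2 (Fin n) → κ) (i : κ) (e : SegV (Vt ℓ) zf ≃ Fin n)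
    (z : Pl block i e → Bool) (t : Pl block i e) : SimpleGraph (Fin n) :=
  (HG ℓ zf (fun a b => ∃ h, z ⟨(a, b), h⟩ = true) t.1.1 t.1.2).map e

theorem gg_t {zf : ℕ} (block : Sym2 (Fin n) → κ) (i : κ) (e : SegV (Vt ℓ) zf ≃ Fin n)
    (heg : ∀ j, block s(e (.inl (.c j.castSucc, some true)), e (.inl (.t j 0, some false))) = i)
    (z : Pl block i e → Bool) (t t' : Pl block i e) (e' : Sym2 (Fin n)) (he' : block e' ≠ i)
    (h : e' ∈ (GG block i e z t).edgeSet) : e' ∈ (GG block i e z t').edgeSet := by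
  unfold GG at h ⊢
  induction e' using Sym2.ind with
  | _ x y =>
    rw [SimpleGraph.mem_edgeSet, SimpleGraph.map_adj'] at h ⊢
    obtain ⟨hne, x, y, h1, rfl, rfl⟩ := h
    refine ⟨hne, x, y, adj_of h1 ?_, rfl, rfl⟩
    rintro ⟨p, β⟩ ⟨p', β'⟩ rfl rfl
    refine ⟨fun h => arc_q h ?_, fun h => arc_q h ?_⟩
    · rintro j ⟨h2, h3⟩
      rw [Prod.mk.injEq] at h2 h3
      obtain ⟨rfl, rfl⟩ := h2
      obtain ⟨rfl, rfl⟩ := h3
      exact he' (heg j)
    · rintro j ⟨h2, h3⟩
      rw [Prod.mk.injEq] at h2 h3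
      obtain ⟨rfl, rfl⟩ := h2
      obtain ⟨rfl, rfl⟩ := h3
      apply he'
      rw [Sym2.eq_swap]
      exact heg j

theorem gg_z {zf : ℕ} (block : Sym2 (Fin n) → κ) (i : κ) (e : SegV (Vt ℓ) zf ≃ Fin n)
    (z z' : Pl block i e → Bool) (t : Pl block i e) (e' : Sym2 (Fin n)) (he' : block e' = i)
    (h : e' ∈ (GG block i e z t).edgeSet) : e' ∈ (GG block i e z' t).edgeSet := by
  unfold GG at h ⊢
  induction e' using Sym2.ind with
  | _ x y =>
    rw [SimpleGraph.mem_edgeSet, SimpleGraph.map_adj'] at h ⊢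
    obtain ⟨hne, x, y, h1, rfl, rfl⟩ := h
    refine ⟨hne, x, y, adj_of h1 ?_, rfl, rfl⟩
    rintro ⟨p, β⟩ ⟨p', β'⟩ rfl rfl
    refine ⟨fun h => arc_z h ?_, fun h => arc_z h ?_⟩
    · rintro u v h2 h3 ⟨h4, -⟩
      rw [Prod.mk.injEq] at h2 h3
      obtain ⟨rfl, rfl⟩ := h2
      obtain ⟨rfl, rfl⟩ := h3
      exact absurd he' h4
    · rintro u v h2 h3 ⟨h4, -⟩
      rw [Prod.mk.injEq] at h2 h3
      obtain ⟨rfl, rfl⟩ := h2
      obtain ⟨rfl, rfl⟩ := h3
      rw [Sym2.eq_swap] at he'
      exact absurd he' h4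

/-- The lower bound for the number of the leaves which read a block. -/
theorem block_lower (hn : 42 * 2 ^ ℓ + 24 * ℓ ≤ n) (hw : 4 * ℓ ≤ w)
    (block : Sym2 (Fin n) → κ) (i : κ) (hB : IsMatchingBlock block w i)
    (μ : Ω → ℝ) (C : Ω → Circuit κ (Item block))
    (hC : Computes μ C fun x => (graph block x).IsHamiltonian) :
    (49 / 600 : ℝ) * ((2 ^ ℓ : ℝ) ^ 2 - 2 ^ ℓ) ≤
      4 * mean μ (fun ω => (C ω).prog.reads i) + 4 * mean μ (fun ω => (C ω).refs) +
        mean μ (fun ω => (C ω).shared) + 1 := by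
  obtain ⟨g, hg⟩ := exists_pairs hB (β := Fin (Fintype.card (Rw ℓ))) (by
    rw [Fintype.card_fin, Fintype.card_prod, Fintype.card_prod, Fintype.card_bool,
      Fintype.card_fin]
    omega)
  obtain ⟨zf, hzf⟩ : ∃ zf, zf = n - 3 * Fintype.card (Vt ℓ) := ⟨_, rfl⟩
  have hcv := card_vt ℓ
  have hcard : Fintype.card (SegV (Vt ℓ) zf) = n := by
    rw [Fintype.card_sum, Fintype.card_prod, Fintype.card_option, Fintype.card_bool,
      Fintype.card_fin]
    omega
  obtain ⟨ψ, hψ1, hψ2⟩ : ∃ ψ : Fin (Fintype.card (Rw ℓ)) × Bool ↪ SegV (Vt ℓ) zf,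
      (∀ j, ψ (j, false) = .inl (.c j.castSucc, some true)) ∧
      ∀ j, ψ (j, true) = .inl (.t j 0, some false) := by
    refine ⟨⟨fun p => match p with
      | (j, false) => .inl (.c j.castSucc, some true)
      | (j, true) => .inl (.t j 0, some false), ?_⟩, fun _ => rfl, fun _ => rfl⟩
    rintro ⟨j, β⟩ ⟨j', β'⟩ h
    cases β <;> cases β' <;> simp at h ⊢
    · exact h
    · exact h.1
  obtain ⟨e, he⟩ := exists_equiv ψ g hcard
  have heg : ∀ j, block s(e (.inl (.c j.castSucc, some true)), e (.inl (.t j 0, some false))) =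
      i := by
    intro j
    rw [← hψ1, ← hψ2, he, he]
    exact hg j
  have key := graph_reads (T := Pl block i e) block i (fun G => G.IsHamiltonian)
    (GG block i e) (fun z t t' e' he' => ⟨gg_t block i e heg z t t' e' he',
      gg_t block i e heg z t' t e' he'⟩) (fun z z' t e' he' => ⟨gg_z block i e z z' t e' he',
      gg_z block i e z' z t e' he'⟩) ?_ μ C hC
  · refine le_trans (mul_le_mul_of_nonneg_left ?_ (by norm_num)) key
    have h := card_T block i hB (fun a => e (.inl (.w (.inl a), some true)))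
      (fun b : Fin ℓ → Bool => e (.inl (.w (.inr b), some false)))
      (fun a b h => by simpa using e.injective h)
    have h1 : Fintype.card (Fin ℓ → Bool) = 2 ^ ℓ := by simp
    rw [h1] at h
    have h2 : ((2 ^ ℓ : ℕ) : ℝ) ^ 2 ≤ (Fintype.card (Pl block i e) : ℝ) + ((2 ^ ℓ : ℕ) : ℝ) := by
      exact_mod_cast h
    push_cast at h2
    linarith
  · intro z t
    have h1 : (GG block i e z t).IsHamiltonian ↔
        (HG ℓ zf (fun a b => ∃ h, z ⟨(a, b), h⟩ = true) t.1.1 t.1.2).IsHamiltonian :=
      ham_iso (SimpleGraph.Iso.map e _)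
    rw [h1, ham_iff]
    constructor
    · rintro ⟨h, h2⟩
      exact h2
    · intro h
      exact ⟨t.2, h⟩

end Pool.Agent.TH272.Nec.Ham
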