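import Pool.Agent.TH272.Nec.Ham5

set_option autoImplicit false

/-! # The lower bounds for Hamiltonicity -/

namespace Pool.Agent.TH272.Nec.Ham

open Finset

variable {n : ℕ} {Ω : Type} [Fintype Ω]

theorem blocks (hn : 2 ^ 11 ≤ n) {κ : Type} [DecidableEq κ] (block : Sym2 (Fin n) → κ)
    (B : Finset κ) (hB : ∀ i ∈ B, IsMatchingBlock block (4 * Nat.log 2 n) i) (μ : Ω → ℝ)
    (C : Ω → Circuit κ (Item block))
    (hC : Computes μ C fun x => (graph block x).IsHamiltonian) :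
    (n : ℝ) ^ 2 / (2 * 10 ^ 6) ≤
        mean μ (fun ω => (C ω).refs) + mean μ (fun ω => (C ω).shared) ∨
      (n : ℝ) ^ 2 / (2 * 10 ^ 6) * B.card ≤ mean μ (fun ω => (C ω).leaves) := by
  refine blocks_lower block B μ hC.nonneg C _ fun i hi => ?_
  have h1 : 11 ≤ Nat.log 2 n := by
    have := Nat.log_mono_right (b := 2) hn
    rwa [Nat.log_pow (by norm_num)] at this
  have h2 : 2 ^ Nat.log 2 n ≤ n := Nat.pow_log_le_self 2 (by omega)
  have h3 : n < 2 ^ (Nat.log 2 n + 1) := Nat.lt_pow_succ_log_self (by norm_num) n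
  obtain ⟨ℓ, hℓ⟩ : ∃ ℓ, Nat.log 2 n = ℓ + 6 := ⟨Nat.log 2 n - 6, by omega⟩
  have hB2 := hB i hi
  rw [hℓ] at h1 h2 h3 hB2
  have h4 : ℓ < 2 ^ ℓ := Nat.lt_two_pow_self
  have e1 : 2 ^ (ℓ + 6) = 64 * 2 ^ ℓ := by ring
  have e2 : 2 ^ (ℓ + 6 + 1) = 128 * 2 ^ ℓ := by ring
  have h5 : 2 ^ 5 ≤ 2 ^ ℓ := Nat.pow_le_pow_right (by norm_num) (by omega)
  have h6 : ∀ k : ℕ, 24 * (k + 5) ≤ 22 * 2 ^ (k + 5) := by
    intro k
    induction k with
    | zero => norm_num
    | succ k ih =>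
      have : 2 ^ (k + 1 + 5) = 2 * 2 ^ (k + 5) := by ring
      omega
  have h7 := h6 (ℓ - 5)
  rw [show ℓ - 5 + 5 = ℓ by omega] at h7
  have key := block_lower (n := n) (w := 4 * (ℓ + 6)) (ℓ := ℓ) (by omega) (by omega)
    block i hB2 μ C hC
  have r1 : (32 : ℝ) ≤ 2 ^ ℓ := by exact_mod_cast h5
  have r2 : (n : ℝ) ≤ 128 * 2 ^ ℓ := by
    have : n ≤ 128 * 2 ^ ℓ := by omega
    exact_mod_cast this
  have r3 : (0 : ℝ) ≤ n := Nat.cast_nonneg n
  have r4 : (n : ℝ) ^ 2 ≤ 16384 * (2 ^ ℓ) ^ 2 := by nlinarith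
  have r5 : (2 ^ ℓ : ℝ) ≤ (2 ^ ℓ) ^ 2 / 32 := by nlinarith
  have r6 : (1 : ℝ) ≤ (2 ^ ℓ) ^ 2 / 1024 := by nlinarith
  nlinarith

theorem single (hn : 2 ^ 11 ≤ n) (μ : Ω → ℝ) (C : Ω → Circuit (Sym2 (Fin n)) (fun _ => Bool))
    (hC : Computes μ C fun x => (SimpleGraph.fromEdgeSet {e | x e = true}).IsHamiltonian) :
    (n : ℝ) ^ 2 / (2 * 10 ^ 6) ≤
        mean μ (fun ω => (C ω).refs) + mean μ (fun ω => (C ω).shared) ∨
      (n : ℝ) ^ 4 / (10 ^ 8 * Nat.log 2 n) ≤ mean μ (fun ω => (C ω).leaves) := by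
  obtain ⟨h1, h2, h3, h4, h5⟩ := log_bounds hn
  refine (single_lower hn (fun G => G.IsHamiltonian) μ C hC ((n : ℝ) ^ 2 / (2 * 10 ^ 6))
    (by positivity) (4 * Nat.log 2 n) (by omega) (by omega) fun κ _ block B hB C hC =>
      blocks hn block B hB μ C hC).imp id fun h6 => ?_
  have h7 : (11 : ℝ) ≤ Nat.log 2 n := by exact_mod_cast h1
  rw [div_le_iff₀ (by positivity)]
  push_cast at h6
  have h8 : 0 ≤ mean μ (fun ω => (C ω).leaves) := by
    refine sum_nonneg fun ω _ => mul_nonneg (hC.nonneg ω) (Nat.cast_nonneg _)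
  have h9 : 0 ≤ (Nat.log 2 n : ℝ) * mean μ (fun ω => (C ω).leaves) := by positivity
  linarith

/-- Formulas. -/
theorem formula (hn : 2 ^ 11 ≤ n) (F : Fm (Sym2 (Fin n)) (fun _ => Bool) 0)
    (hF : ∀ x, F.eval x Fin.elim0 = true ↔
      (SimpleGraph.fromEdgeSet {e | x e = true}).IsHamiltonian) :
    (n : ℝ) ^ 4 / (10 ^ 8 * Nat.log 2 n) ≤ F.leaves := by
  have hC : Computes (Ω := Unit) (fun _ => 1) (fun _ => ⟨0, .snoc .nil F⟩)
      (fun x => (SimpleGraph.fromEdgeSet {e : Sym2 (Fin n) | x e = true}).IsHamiltonian) := by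
    refine ⟨fun _ => by norm_num, by simp, fun x E hE => ?_⟩
    have e3 : (⟨0, .snoc .nil F⟩ : Circuit (Sym2 (Fin n)) (fun _ => Bool)).eval x =
        F.eval x Fin.elim0 := by
      show Fin.snoc (α := fun _ => Bool) (Fin.elim0 : Fin 0 → Bool) (F.eval x Fin.elim0)
        (Fin.last 0) = _
      rw [Fin.snoc_last]
    have h4 : E = ∅ := by
      rw [Finset.eq_empty_iff_forall_notMem]
      intro ω hω
      have h5 := hE ω hω
      rw [e3] at h5
      exact h5 (hF x)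
    rw [h4]
    norm_num
  rcases single hn _ _ hC with h | h
  · exfalso
    have e : ∀ F : Fm (Sym2 (Fin n)) (fun _ => Bool) 0, F.refs = 0 := by
      intro F
      induction F with
      | leaf i p => rfl
      | ref j => exact j.elim0
      | gate g a b iha ihb => simp only [Fm.refs, iha, ihb]
    have e2 : (⟨0, .snoc .nil F⟩ : Circuit (Sym2 (Fin n)) (fun _ => Bool)).refs = 0 := by
      show 0 + F.refs = 0
      rw [e F]
    simp only [mean, univ_unique, PUnit.default_eq_unit, one_mul, sum_singleton, e2] at h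
    have h2 : (2048 : ℝ) ≤ n := by exact_mod_cast hn
    push_cast at h
    nlinarith
  · have e2 : (⟨0, .snoc .nil F⟩ : Circuit (Sym2 (Fin n)) (fun _ => Bool)).leaves =
        F.leaves := by
      show 0 + F.leaves = F.leaves
      rw [zero_add]
    simpa only [mean, univ_unique, PUnit.default_eq_unit, one_mul, sum_singleton, e2] using h

end Pool.Agent.TH272.Nec.Ham
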