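import Pool.Agent.TH272.Nec.Ham5
import Pool.Agent.TH272.Nec.HamFin
import Pool.Agent.TH272.Nec.GraphLocal

set_option autoImplicit false

/-! # Hamiltonicity: circuits with local sharing -/

namespace Pool.Agent.TH272.Nec.Ham

open Finset Pool.Agent.H545R2

variable {n w ℓ : ℕ} {κ : Type} [DecidableEq κ] {Ω : Type} [Fintype Ω]

/-- The lower bound for the number of the leaves which read a block. -/
theorem block_lower' (hn : 42 * 2 ^ ℓ + 24 * ℓ ≤ n) (hw : 4 * ℓ ≤ w)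
    (block : Sym2 (Fin n) → κ) (i : κ) (hB : IsMatchingBlock block w i)
    (μ : Ω → ℝ) (C : Ω → Circuit κ (Item block))
    (hC : Computes μ C fun x => (graph block x).IsHamiltonian) :
    (49 / 600 : ℝ) * ((2 ^ ℓ : ℝ) ^ 2 - 2 ^ ℓ) ≤
      4 * mean μ (fun ω => (C ω).prog.reads i) + 4 * mean μ (fun ω => (C ω).prog.refsTo i) +
        mean μ (fun ω => (C ω).prog.count i) + 1 := by
  obtain ⟨g, hg⟩ := exists_pairs hB (β := Fin (Fintype.card (Rw ℓ))) (by
    rw [Fintype.card_fin, Fintype.card_prod, Fintype.card_prod, Fintype.card_bool,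
      Fintype.card_fin]
    omega)
  obtain ⟨zf, hzf⟩ : ∃ zf, zf = n - 3 * Fintype.card (Vt ℓ) := ⟨_, rfl⟩
  have hcv := card_vt ℓ
  have hcard : Fintype.card (SegV (Vt ℓ) zf) = n := by
    rw [Fintype.card_sum, Fintype.card_prod, Fintype.card_option, Fintype.card_bool,
      Fintype.card_fin]
    omega
  obtain ⟨ψ, hψ1, hψ2⟩ : ∃ ψ : Fin (Fintype.card (Rw ℓ)) × Bool ↪ SegV (Vt ℓ) zf,
      (∀ j, ψ (j, false) = .inl (.c j.castSucc, some true)) ∧
      ∀ j, ψ (j, true) = .inl (.t j 0, some false) := by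
    refine ⟨⟨fun p => match p with
      | (j, false) => .inl (.c j.castSucc, some true)
      | (j, true) => .inl (.t j 0, some false), ?_⟩, fun _ => rfl, fun _ => rfl⟩
    rintro ⟨j, β⟩ ⟨j', β'⟩ h
    cases β <;> cases β' <;> simp at h ⊢
    · exact h
    · exact h.1
  obtain ⟨e, he⟩ := exists_equiv ψ g hcard
  have heg : ∀ j, block s(e (.inl (.c j.castSucc, some true)), e (.inl (.t j 0, some false))) =
      i := by
    intro j
    rw [← hψ1, ← hψ2, he, he]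
    exact hg j
  have key := graph_reads' (T := Pl block i e) block i (fun G => G.IsHamiltonian)
    (GG block i e) (fun z t t' e' he' => ⟨gg_t block i e heg z t t' e' he',
      gg_t block i e heg z t' t e' he'⟩) (fun z z' t e' he' => ⟨gg_z block i e z z' t e' he',
      gg_z block i e z' z t e' he'⟩) ?_ μ C hC
  · refine le_trans (mul_le_mul_of_nonneg_left ?_ (by norm_num)) key
    have h := card_T block i hB (fun a => e (.inl (.w (.inl a), some true)))
      (fun b : Fin ℓ → Bool => e (.inl (.w (.inr b), some false)))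
      (fun a b h => by simpa using e.injective h)
    have h1 : Fintype.card (Fin ℓ → Bool) = 2 ^ ℓ := by simp
    rw [h1] at h
    have h2 : ((2 ^ ℓ : ℕ) : ℝ) ^ 2 ≤ (Fintype.card (Pl block i e) : ℝ) + ((2 ^ ℓ : ℕ) : ℝ) := by
      exact_mod_cast h
    push_cast at h2
    linarith
  · intro z t
    have h1 : (GG block i e z t).IsHamiltonian ↔
        (HG ℓ zf (fun a b => ∃ h, z ⟨(a, b), h⟩ = true) t.1.1 t.1.2).IsHamiltonian :=
      ham_iso (SimpleGraph.Iso.map e _)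
    rw [h1, ham_iff]
    constructor
    · rintro ⟨h, h2⟩
      exact h2
    · intro h
      exact ⟨t.2, h⟩


theorem blocks_local (hn : 2 ^ 11 ≤ n) (block : Sym2 (Fin n) → κ)
    (B : Finset κ) (hB : ∀ i ∈ B, IsMatchingBlock block (4 * Nat.log 2 n) i) (μ : Ω → ℝ)
    (C : Ω → Circuit κ (Item block))
    (hC : Computes μ C fun x => (graph block x).IsHamiltonian) (d : ℕ)
    (hd : ∀ ω, (C ω).IsLocalOn B d) :
    (n : ℝ) ^ 2 / 10 ^ 6 * B.card ≤ mean μ (fun ω => (C ω).leaves) +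
      d * (mean μ (fun ω => (C ω).refs) + mean μ (fun ω => (C ω).shared)) := by
  have key := local_lower μ hC.nonneg hC.sum_one C B d hd ((n : ℝ) ^ 2 / 250000)
    fun i hi => ?_
  · linarith
  have h1 : 11 ≤ Nat.log 2 n := by
    have := Nat.log_mono_right (b := 2) hn
    rwa [Nat.log_pow (by norm_num)] at this
  have h2 : 2 ^ Nat.log 2 n ≤ n := Nat.pow_log_le_self 2 (by omega)
  have h3 : n < 2 ^ (Nat.log 2 n + 1) := Nat.lt_pow_succ_log_self (by norm_num) n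
  obtain ⟨ℓ, hℓ⟩ : ∃ ℓ, Nat.log 2 n = ℓ + 6 := ⟨Nat.log 2 n - 6, by omega⟩
  have hB2 := hB i hi
  rw [hℓ] at h1 h2 h3 hB2
  have h4 : ℓ < 2 ^ ℓ := Nat.lt_two_pow_self
  have e1 : 2 ^ (ℓ + 6) = 64 * 2 ^ ℓ := by ring
  have e2 : 2 ^ (ℓ + 6 + 1) = 128 * 2 ^ ℓ := by ring
  have h5 : 2 ^ 5 ≤ 2 ^ ℓ := Nat.pow_le_pow_right (by norm_num) (by omega)
  have h6 : ∀ k : ℕ, 24 * (k + 5) ≤ 22 * 2 ^ (k + 5) := by
    intro k
    induction k with
    | zero => norm_num
    | succ k ih =>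
      have : 2 ^ (k + 1 + 5) = 2 * 2 ^ (k + 5) := by ring
      omega
  have h7 := h6 (ℓ - 5)
  rw [show ℓ - 5 + 5 = ℓ by omega] at h7
  have key := block_lower' (n := n) (w := 4 * (ℓ + 6)) (ℓ := ℓ) (by omega) (by omega)
    block i hB2 μ C hC
  have r1 : (32 : ℝ) ≤ 2 ^ ℓ := by exact_mod_cast h5
  have r2 : (n : ℝ) ≤ 128 * 2 ^ ℓ := by
    have : n ≤ 128 * 2 ^ ℓ := by omega
    exact_mod_cast this
  have r3 : (0 : ℝ) ≤ n := Nat.cast_nonneg n
  have r4 : (n : ℝ) ^ 2 ≤ 16384 * (2 ^ ℓ) ^ 2 := by nlinarith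
  have r5 : (2 ^ ℓ : ℝ) ≤ (2 ^ ℓ) ^ 2 / 32 := by nlinarith
  have r6 : (1 : ℝ) ≤ (2 ^ ℓ) ^ 2 / 1024 := by nlinarith
  linarith

theorem single_local (hn : 2 ^ 11 ≤ n) (μ : Ω → ℝ)
    (C : Ω → Circuit (Sym2 (Fin n)) (fun _ => Bool))
    (hC : Computes μ C fun x => (SimpleGraph.fromEdgeSet {e | x e = true}).IsHamiltonian)
    (d : ℕ) (hd : ∀ ω, (C ω).IsLocal d) :
    (n : ℝ) ^ 4 / (4 * 10 ^ 7 * Nat.log 2 n) ≤ mean μ (fun ω => (C ω).leaves) +
      min (d : ℝ) (n ^ 2 / (16 * Nat.log 2 n)) *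
        (mean μ (fun ω => (C ω).refs) + mean μ (fun ω => (C ω).shared)) := by
  obtain ⟨h1, h2, h3, h4, h5⟩ := log_bounds hn
  have h6 := Nec.single_local hn (fun G => G.IsHamiltonian) μ C hC d hd
    ((n : ℝ) ^ 2 / 10 ^ 6) (by positivity)
    (4 * Nat.log 2 n) (by omega) (by omega) fun κ _ block B hB C hC d hd =>
      blocks_local hn block B hB μ C hC d hd
  have h7 : (11 : ℝ) ≤ Nat.log 2 n := by exact_mod_cast h1
  rw [div_le_iff₀ (by positivity)]
  push_cast at h6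
  have e0 : (4 : ℝ) * (4 * (Nat.log 2 n : ℝ)) = 16 * Nat.log 2 n := by ring
  rw [e0] at h6
  have h8 : 0 ≤ mean μ (fun ω => (C ω).leaves) +
      min (d : ℝ) (n ^ 2 / (16 * Nat.log 2 n)) *
        (mean μ (fun ω => (C ω).refs) + mean μ (fun ω => (C ω).shared)) := by
    have a1 := mean_nonneg μ hC.nonneg (fun ω => (C ω).leaves)
    have a2 := mean_nonneg μ hC.nonneg (fun ω => (C ω).refs)
    have a3 := mean_nonneg μ hC.nonneg (fun ω => (C ω).shared)
    positivity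
  have h9 := mul_nonneg (Nat.cast_nonneg (α := ℝ) (Nat.log 2 n)) h8
  linarith

end Pool.Agent.TH272.Nec.Ham
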