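import Mathlib

set_option autoImplicit false

/-! # Indirect storage access -/

namespace Pool.Agent.TH272.Nec.Isa

/-- The bits of the input: `q` address bits, `2 ^ q` blocks of `ℓ` bits, and a table with `2 ^ ℓ`
cells. -/
inductive Bit (q ℓ : ℕ) : Type
  | addr : Fin q → Bit q ℓ
  | blk : (Fin q → Bool) → Fin ℓ → Bit q ℓ
  | cell : (Fin ℓ → Bool) → Bit q ℓ
  deriving DecidableEq, Fintype

/-- Indirect storage access: the address bits select a block, and the block selects the cell of the
table that is the value. -/
def isa {q ℓ : ℕ} (x : Bit q ℓ → Bool) : Bool :=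
  x (.cell fun j => x (.blk (fun i => x (.addr i)) j))

end Pool.Agent.TH272.Nec.Isa
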