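import Pool.Agent.TH272.Nec.Merge
import Pool.Agent.TH272.Nec.IsaDefs

set_option autoImplicit false

/-! # Circuits for indirect storage access -/

namespace Pool.Agent.TH272.Nec.Isa

open Finset

variable {q ℓ : ℕ}

/-! ## the lower bound -/

/-- The blocks; `none` is the rest of the input. -/
def part : Bit q ℓ → Option (Fin q → Bool)
  | .addr _ => none
  | .blk b _ => some b
  | .cell _ => none

/-- The queries. -/
def query (i : Option (Fin q → Bool)) (t : Fin ℓ → Bool) :
    Blk (part (q := q) (ℓ := ℓ)) i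
  | ⟨.blk _ j, _⟩ => t j
  | _ => false

/-- The rest of the input. -/
def rest (i : Option (Fin q → Bool)) (z : (Fin ℓ → Bool) → Bool) :
    ∀ k, Blk (part (q := q) (ℓ := ℓ)) k := fun _ e =>
  match e.1 with
  | .addr j => (i.getD fun _ => false) j
  | .blk _ _ => false
  | .cell t => z t

theorem lower {Ω : Type} [Fintype Ω] (hℓ : 7 ≤ ℓ) (μ : Ω → ℝ)
    (C : Ω → Circuit (Bit q ℓ) (fun _ => Bool)) (hC : Computes μ C fun x => isa x = true) :
    (2 : ℝ) ^ ℓ / 120 ≤ mean μ (fun ω => (C ω).refs) + mean μ (fun ω => (C ω).shared) ∨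
      (2 : ℝ) ^ (q + ℓ) / 120 ≤ mean μ (fun ω => (C ω).leaves) := by
  have hcard : Fintype.card (Fin ℓ → Bool) = 2 ^ ℓ := by simp
  have h100 : 100 ≤ Fintype.card (Fin ℓ → Bool) := by
    rw [hcard]
    calc 100 ≤ 2 ^ 7 := by norm_num
      _ ≤ 2 ^ ℓ := Nat.pow_le_pow_right (by norm_num) hℓ
  have h := merge_lower (part (q := q) (ℓ := ℓ)) (fun x => isa x = true)
    (univ.map Function.Embedding.some) h100 query rest ?_ μ C hC
  · rw [hcard, card_map, card_univ] at h
    have h2 : Fintype.card (Fin q → Bool) = 2 ^ q := by simp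
    rw [h2] at h
    push_cast at h
    refine h.imp id fun h3 => ?_
    rw [pow_add]
    linarith
  · intro i hi t z
    rw [mem_map] at hi
    obtain ⟨b, -, rfl⟩ := hi
    obtain ⟨X, hX⟩ : ∃ X : Bit q ℓ → Bool, X = fun e => Function.update (rest (some b) z) (some b)
      (query (some b) t) (part e) ⟨e, rfl⟩ := ⟨_, rfl⟩
    have h1 : ∀ (k : Option (Fin q → Bool)) (_ : k ≠ some b) (e : {e : Bit q ℓ // part e = k}),
        Function.update (rest (some b) z) (some b) (query (some b) t) k e =
          rest (some b) z k e := by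
      intro k hk e
      rw [Function.update_of_ne hk]
    have h2 : ∀ e : {e : Bit q ℓ // part e = some b},
        Function.update (rest (some b) z) (some b) (query (some b) t) (some b) e =
          query (some b) t e := by
      intro e
      rw [Function.update_self]
    have e1 : (fun i : Fin q => X (.addr i)) = b := by
      funext i
      rw [hX]
      exact h1 none (by simp) ⟨.addr i, rfl⟩
    have e2 : (fun j : Fin ℓ => X (.blk b j)) = t := by
      funext j
      rw [hX]
      exact h2 ⟨.blk b j, rfl⟩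
    have e3 : X (.cell t) = z t := by
      rw [hX]
      exact h1 none (by simp) ⟨.cell t, rfl⟩
    have key : isa X = true ↔ z t = true := by
      unfold isa
      rw [e1, e2, e3]
    rw [hX] at key
    exact key

/-! ## the upper bounds -/

variable {ι : Type} {D : ι → Type} {k : ℕ}

/-- The formula that selects one of `2 ^ m` formulas. -/
def mux : (m : ℕ) → (Fin m → Fm ι D k) → ((Fin m → Bool) → Fm ι D k) → Fm ι D k
  | 0, _, data => data Fin.elim0
  | m + 1, sel, data => .gate (fun a b => a || b)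
      (.gate (fun a b => a && b) (sel 0) (mux m (fun i => sel i.succ)
        fun t => data (Fin.cons true t)))
      (.gate (fun a b => !a && b) (sel 0) (mux m (fun i => sel i.succ)
        fun t => data (Fin.cons false t)))

theorem mux_eval (x : ∀ i, D i) (v : Fin k → Bool) : ∀ (m : ℕ) (sel : Fin m → Fm ι D k)
    (data : (Fin m → Bool) → Fm ι D k),
    (mux m sel data).eval x v = (data fun j => (sel j).eval x v).eval x v
  | 0, sel, data => by
    unfold mux
    congr 2
    funext j
    exact j.elim0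
  | m + 1, sel, data => by
    simp only [mux, Fm.eval]
    rw [mux_eval x v m, mux_eval x v m]
    have e : (fun j => (sel j).eval x v) =
        (Fin.cons ((sel 0).eval x v) fun j : Fin m => (sel j.succ).eval x v : Fin (m + 1) → Bool) := by
      funext j
      refine Fin.cases ?_ (fun j => ?_) j
      · simp
      · simp
    rw [e]
    cases (sel 0).eval x v <;> simp

theorem mux_leaves : ∀ (m : ℕ) (sel : Fin m → Fm ι D k) (data : (Fin m → Bool) → Fm ι D k)
    (s d : ℕ), (∀ j, (sel j).leaves = s) → (∀ t, (data t).leaves = d) →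
    (mux m sel data).leaves + 2 * s = 2 ^ m * (d + 2 * s)
  | 0, sel, data, s, d, _, hd => by
    simp [mux, hd]
  | m + 1, sel, data, s, d, hs, hd => by
    simp only [mux, Fm.leaves]
    have h1 := mux_leaves m (fun i => sel i.succ) (fun t => data (Fin.cons true t)) s d
      (fun j => hs _) (fun t => hd _)
    have h2 := mux_leaves m (fun i => sel i.succ) (fun t => data (Fin.cons false t)) s d
      (fun j => hs _) (fun t => hd _)
    rw [hs, pow_succ]
    linarith

theorem mux_refs : ∀ (m : ℕ) (sel : Fin m → Fm ι D k) (data : (Fin m → Bool) → Fm ι D k)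
    (s d : ℕ), (∀ j, (sel j).refs = s) → (∀ t, (data t).refs = d) →
    (mux m sel data).refs + 2 * s = 2 ^ m * (d + 2 * s)
  | 0, sel, data, s, d, _, hd => by
    simp [mux, hd]
  | m + 1, sel, data, s, d, hs, hd => by
    simp only [mux, Fm.refs]
    have h1 := mux_refs m (fun i => sel i.succ) (fun t => data (Fin.cons true t)) s d
      (fun j => hs _) (fun t => hd _)
    have h2 := mux_refs m (fun i => sel i.succ) (fun t => data (Fin.cons false t)) s d
      (fun j => hs _) (fun t => hd _)
    rw [hs, pow_succ]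
    linarith

/-- The formula for a bit of the selected block. -/
def blkBit (k : ℕ) (j : Fin ℓ) : Fm (Bit q ℓ) (fun _ => Bool) k :=
  mux q (fun i => .leaf (.addr i) id) fun b => .leaf (.blk b j) id

theorem blkBit_eval (j : Fin ℓ) (x : Bit q ℓ → Bool) (v : Fin k → Bool) :
    (blkBit k j).eval x v = x (.blk (fun i => x (.addr i)) j) := by
  unfold blkBit
  rw [mux_eval]
  rfl

theorem blkBit_leaves (j : Fin ℓ) : (blkBit (q := q) k j).leaves + 2 = 3 * 2 ^ q := by
  unfold blkBit
  have := mux_leaves (D := fun _ => Bool) (k := k) q (fun i => .leaf (Bit.addr (ℓ := ℓ) i) id)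
    (fun b => .leaf (.blk b j) id) 1 1 (fun _ => rfl) (fun _ => rfl)
  omega

theorem blkBit_refs (j : Fin ℓ) : (blkBit (q := q) k j).refs = 0 := by
  unfold blkBit
  have := mux_refs (D := fun _ => Bool) (k := k) q (fun i => .leaf (Bit.addr (ℓ := ℓ) i) id)
    (fun b => .leaf (.blk b j) id) 0 0 (fun _ => rfl) (fun _ => rfl)
  omega

/-- The program that computes the first bits of the selected block. -/
def prog (q ℓ : ℕ) : (m : ℕ) → m ≤ ℓ → Prog (Bit q ℓ) (fun _ => Bool) m
  | 0, _ => .nil
  | m + 1, h => .snoc (prog q ℓ m (by omega)) (blkBit m ⟨m, h⟩)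

theorem prog_eval (x : Bit q ℓ → Bool) : ∀ (m : ℕ) (h : m ≤ ℓ) (j : Fin m),
    (prog q ℓ m h).eval x j = x (.blk (fun i => x (.addr i)) (Fin.castLE h j))
  | 0, _, j => j.elim0
  | m + 1, h, j => by
    simp only [prog, Prog.eval]
    refine Fin.lastCases ?_ (fun j => ?_) j
    · rw [Fin.snoc_last, blkBit_eval]
      rfl
    · rw [Fin.snoc_castSucc, prog_eval x m (by omega) j]
      rfl

theorem prog_leaves : ∀ (m : ℕ) (h : m ≤ ℓ), (prog q ℓ m h).leaves + 2 * m = 3 * m * 2 ^ q
  | 0, _ => by simp [prog, Prog.leaves]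
  | m + 1, h => by
    simp only [prog, Prog.leaves]
    have h1 := prog_leaves m (by omega : m ≤ ℓ)
    have h2 := blkBit_leaves (q := q) (k := m) (⟨m, h⟩ : Fin ℓ)
    nlinarith

theorem prog_refs : ∀ (m : ℕ) (h : m ≤ ℓ), (prog q ℓ m h).refs = 0
  | 0, _ => rfl
  | m + 1, h => by
    simp only [prog, Prog.refs]
    rw [prog_refs m (by omega), blkBit_refs]

/-- The last formula of the small circuit. -/
def last (q ℓ : ℕ) : Fm (Bit q ℓ) (fun _ => Bool) ℓ :=
  mux ℓ (fun j => .ref j) fun t => .leaf (.cell t) id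

theorem last_refs (q ℓ : ℕ) : (last q ℓ).refs + 2 = 2 * 2 ^ ℓ := by
  have := mux_refs (D := fun _ => Bool) (k := ℓ) ℓ (fun j => .ref j)
    (fun t => .leaf (Bit.cell (q := q) t) id) 1 0 (fun _ => rfl) (fun _ => rfl)
  unfold last
  omega

theorem last_leaves (q ℓ : ℕ) : (last q ℓ).leaves = 2 ^ ℓ := by
  have := mux_leaves (D := fun _ => Bool) (k := ℓ) ℓ (fun j => .ref j)
    (fun t => .leaf (Bit.cell (q := q) t) id) 0 1 (fun _ => rfl) (fun _ => rfl)
  unfold last
  omega

/-- The small circuit. -/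
theorem circuit (q ℓ : ℕ) : ∃ C : Circuit (Bit q ℓ) (fun _ => Bool), (∀ x, C.eval x = isa x) ∧
    C.shared = ℓ ∧ C.refs ≤ 2 * 2 ^ ℓ ∧ C.leaves ≤ 3 * ℓ * 2 ^ q + 2 ^ ℓ := by
  refine ⟨⟨ℓ, .snoc (prog q ℓ ℓ le_rfl) (last q ℓ)⟩, fun x => ?_, rfl, ?_, ?_⟩
  · unfold Circuit.eval
    simp only [Prog.eval]
    rw [Fin.snoc_last]
    unfold last
    rw [mux_eval]
    unfold isa
    simp only [Fm.eval, id]
    congr 2
    funext j
    rw [prog_eval]
    rfl
  · show (prog q ℓ ℓ le_rfl).refs + (last q ℓ).refs ≤ _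
    rw [prog_refs]
    have := last_refs q ℓ
    omega
  · show (prog q ℓ ℓ le_rfl).leaves + (last q ℓ).leaves ≤ _
    have h1 := prog_leaves (q := q) ℓ (le_refl ℓ)
    have := last_leaves q ℓ
    omega

/-- The formula. -/
theorem formula (q ℓ : ℕ) : ∃ C : Circuit (Bit q ℓ) (fun _ => Bool), (∀ x, C.eval x = isa x) ∧
    C.shared = 0 ∧ C.refs = 0 ∧ C.leaves ≤ 7 * 2 ^ (q + ℓ) := by
  refine ⟨⟨0, .snoc .nil (mux ℓ (fun j => blkBit 0 j) fun t => .leaf (.cell t) id)⟩,
    fun x => ?_, rfl, ?_, ?_⟩
  · unfold Circuit.eval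
    simp only [Prog.eval]
    rw [Fin.snoc_last, mux_eval]
    unfold isa
    simp only [Fm.eval, id]
    congr 2
    funext j
    rw [blkBit_eval]
  · show 0 + (mux ℓ (fun j => blkBit 0 j) fun t => .leaf (.cell t) id).refs = _
    have := mux_refs (D := fun _ => Bool) (k := 0) ℓ (fun j => blkBit (q := q) 0 j)
      (fun t => .leaf (Bit.cell (q := q) t) id) 0 0 (fun _ => blkBit_refs _) (fun _ => rfl)
    omega
  · show 0 + (mux ℓ (fun j => blkBit 0 j) fun t => .leaf (.cell t) id).leaves ≤ _
    have := mux_leaves (D := fun _ => Bool) (k := 0) ℓ (fun j => blkBit (q := q) 0 j)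
      (fun t => .leaf (Bit.cell (q := q) t) id) (3 * 2 ^ q - 2) 1
      (fun j => by have := blkBit_leaves (q := q) (k := 0) j; omega) (fun _ => rfl)
    have h2 : 1 + 2 * (3 * 2 ^ q - 2) ≤ 7 * 2 ^ q := by
      have := Nat.one_le_two_pow (n := q)
      omega
    calc _ ≤ 2 ^ ℓ * (1 + 2 * (3 * 2 ^ q - 2)) := by
          rw [← this, zero_add]
          exact Nat.le_add_right _ _
      _ ≤ 2 ^ ℓ * (7 * 2 ^ q) := Nat.mul_le_mul_left _ h2
      _ = _ := by ring

theorem card_bit (q ℓ : ℕ) : Fintype.card (Bit q ℓ) = q + 2 ^ q * ℓ + 2 ^ ℓ := by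
  have e : Bit q ℓ ≃ (Fin q ⊕ ((Fin q → Bool) × Fin ℓ)) ⊕ (Fin ℓ → Bool) :=
    { toFun := fun x => match x with
        | .addr i => .inl (.inl i)
        | .blk b j => .inl (.inr (b, j))
        | .cell t => .inr t
      invFun := fun x => match x with
        | .inl (.inl i) => .addr i
        | .inl (.inr (b, j)) => .blk b j
        | .inr t => .cell t
      left_inv := fun x => by cases x <;> rfl
      right_inv := fun x => by rcases x with (i | ⟨b, j⟩) | t <;> rfl }
  rw [Fintype.card_congr e]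
  simp

end Pool.Agent.TH272.Nec.Isa
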