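import Pool.Agent.TH272.Nec.Heavy

set_option autoImplicit false

/-! # Indirect storage access: references to gates that depend on many bits -/

namespace Pool.Agent.TH272.Nec

open Finset

theorem Fm.heavyRefs_eq_zero {ι : Type} {D : ι → Type} [DecidableEq ι] {k : ℕ}
    (V : Fin k → Finset ι) (d : ℕ) (hV : ∀ j, (V j).card ≤ d) (φ : Fm ι D k) :
    φ.heavyRefs V d = 0 := by
  induction φ with
  | leaf i p => rfl
  | ref j =>
    have := hV j
    simp only [heavyRefs]
    rw [if_neg (by omega)]
  | gate g a b iha ihb => simp only [heavyRefs, iha, ihb]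

theorem Prog.heavyRefs_eq_zero {ι : Type} {D : ι → Type} [DecidableEq ι] (d : ℕ) :
    ∀ {k : ℕ} (P : Prog ι D (k + 1)) (_ : ∀ j : Fin k, (P.items j.castSucc).card ≤ d),
      P.heavyRefs d = 0
  | 0, .snoc .nil φ, _ => by
    simp only [heavyRefs]
    rw [Fm.heavyRefs_eq_zero _ _ fun j => j.elim0]
  | k + 1, .snoc P φ, h => by
    have h1 : ∀ j, (P.items j).card ≤ d := by
      intro j
      have := h j
      simpa [items] using this
    simp only [heavyRefs]
    rw [Prog.heavyRefs_eq_zero d P fun j => h1 j.castSucc, Fm.heavyRefs_eq_zero _ _ h1]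

theorem Circuit.heavy_eq_zero {ι : Type} {D : ι → Type} [DecidableEq ι] (d : ℕ)
    (C : Circuit ι D) (h : C.IsLocal d) : C.heavyGates d = 0 ∧ C.heavyRefs d = 0 := by
  refine ⟨?_, Prog.heavyRefs_eq_zero d C.prog h⟩
  unfold Circuit.heavyGates
  rw [card_eq_zero, filter_eq_empty_iff]
  intro j _
  have := h j
  omega

namespace Isa

variable {q ℓ : ℕ}

theorem lower_heavy {Ω : Type} [Fintype Ω] (hℓ : 7 ≤ ℓ) (μ : Ω → ℝ)
    (C : Ω → Circuit (Bit q ℓ) (fun _ => Bool)) (hC : Computes μ C fun x => isa x = true)
    (d : ℕ) :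
    (2 : ℝ) ^ (q + ℓ) / 64 ≤ mean μ (fun ω => (C ω).leaves) +
      d * (mean μ (fun ω => (C ω).refs) + mean μ (fun ω => (C ω).shared)) +
      2 ^ q * (mean μ (fun ω => (C ω).heavyRefs d) + mean μ (fun ω => (C ω).heavyGates d)) := by
  have hcard : Fintype.card (Fin ℓ → Bool) = 2 ^ ℓ := by simp
  have h105 : 105 ≤ Fintype.card (Fin ℓ → Bool) := by
    rw [hcard]
    calc 105 ≤ 2 ^ 7 := by norm_num
      _ ≤ 2 ^ ℓ := Nat.pow_le_pow_right (by norm_num) hℓ
  have h := merge_heavy (part (q := q) (ℓ := ℓ)) (fun x => isa x = true)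
    (univ.map Function.Embedding.some) h105 query rest ?_ μ C hC d
  · rw [hcard, card_map, card_univ] at h
    have h2 : Fintype.card (Fin q → Bool) = 2 ^ q := by simp
    rw [h2] at h
    push_cast at h
    rw [pow_add]
    linarith
  · intro i hi t z
    rw [mem_map] at hi
    obtain ⟨b, -, rfl⟩ := hi
    obtain ⟨X, hX⟩ : ∃ X : Bit q ℓ → Bool, X = fun e => Function.update (rest (some b) z) (some b)
      (query (some b) t) (part e) ⟨e, rfl⟩ := ⟨_, rfl⟩
    have h1 : ∀ (k : Option (Fin q → Bool)) (_ : k ≠ some b) (e : {e : Bit q ℓ // part e = k}),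
        Function.update (rest (some b) z) (some b) (query (some b) t) k e =
          rest (some b) z k e := by
      intro k hk e
      rw [Function.update_of_ne hk]
    have h2 : ∀ e : {e : Bit q ℓ // part e = some b},
        Function.update (rest (some b) z) (some b) (query (some b) t) (some b) e =
          query (some b) t e := by
      intro e
      rw [Function.update_self]
    have e1 : (fun i : Fin q => X (.addr i)) = b := by
      funext i
      rw [hX]
      exact h1 none (by simp) ⟨.addr i, rfl⟩
    have e2 : (fun j : Fin ℓ => X (.blk b j)) = t := by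
      funext j
      rw [hX]
      exact h2 ⟨.blk b j, rfl⟩
    have e3 : X (.cell t) = z t := by
      rw [hX]
      exact h1 none (by simp) ⟨.cell t, rfl⟩
    have key : isa X = true ↔ z t = true := by
      unfold isa
      rw [e1, e2, e3]
    rw [hX] at key
    exact key

end Isa

end Pool.Agent.TH272.Nec
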